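import Pool.Agent.Lib.MFib.CDefs
import Pool.Agent.Lib.MP_d9f52e_nt.EBas

/-!
# CAlg (about 280 lines): a pair of pencils gives `CData` on the Milnor fibre

* `pencil_S_ne`: `S_0 S_1 S_2 = h^3` on `Q = 1` and `h ≠ 0`.
* `pencil_curve`: `Y² + Y = S_0 (S_0 + S_1)/S_1² = - S_0 S_2 S_1/S_1³ = -h³/S_1³ = X³`.
* `exists_cdata`.  `M = S'_0 S_1 - S_0 S'_1 ≠ 0` (hypothesis), `N_k = - h' S_1 + w^k h S'_1`.  By `UniqueFactorizationMonoid.exists_reduced_factors` (for `M ≠ 0` and `N_k`): `M = P_k P'_k`,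
  `N_k = P_k N'_k`, `IsRelPrime P'_k N'_k`.  Polynomial identity: `N_k * U_k * Q = M * V * S_1 * S'_1` with `U_k = h'^2 S_1^2 + w^k h h' S_1 S'_1 + w^{2k} h^2 S'_1^2`,
  `V = S'_0 S_1 + S_0 S'_1 + S_1 S'_1`: indeed `N_k U_k = -(h'^3 S_1^3 - h^3 S'_1^3)` (`w^3 = 1`), times `Q`: `- S'_0 S'_1 S'_2 S_1^3 + S_0 S_1 S_2 S'_1^3 = S_1 S'_1 (- S'_0 S'_2 S_1^2 + S_0 S_2 S'_1^2)` and with
  `S_2 = -S_0 - S_1`, `S'_2 = - S'_0 - S'_1`: `= S_1 S'_1 (S'_0(S'_0+S'_1) S_1^2 - S_0 (S_0+S_1) S'_1^2) = S_1 S'_1 M V` (`ring`/`linear_combination`).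
  Cancel `P_k ≠ 0`: `N'_k U_k Q = P'_k V S_1 S'_1`, so `P'_k ∣ U_k Q` (`IsRelPrime.dvd_of_dvd_mul_left`).
  `p k z = eval z P_k`, `p' k z = eval z P'_k / (S_1(z) S'_1(z))`: product `M/(S_1 S'_1) = Y' - Y`.
  If `p_k(z) = 0` (`z ∈ F`): `M(z) = 0`, `N_k(z) = 0`: `Y' = Y`, `X' = w^k X`.  If `X' = w^k X` and `Y' = Y` at `z`: `N_k(z) = 0`, so `h' S_1 = w^k h S'_1` and `U_k(z) = 3 w^{2k} h² S'_1² ≠ 0`; `Q(z) = 1`; so
  `P'_k(z) ≠ 0` (it divides `U_k Q`), and `M(z) = 0` gives `P_k(z) = 0`.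
  `ne₁`: `X = -h/S_1 ≠ 0`.
-/

set_option autoImplicit false

namespace MFib

open MvPolynomial MPd9f52e

variable {l : ℕ} {Q : Pol l}

private theorem eval_prod (P : Pencil Q) (z : Fib Q) :
    eval z.1 (P.S 0) * eval z.1 (P.S 1) * eval z.1 (P.S 2) = eval z.1 P.h ^ 3 := by
  have h := congrArg (eval z.1) P.prod
  rw [map_mul, map_mul, map_mul, map_pow, z.2, mul_one] at h
  exact h

private theorem eval_sum (P : Pencil Q) (z : Fib Q) :
    eval z.1 (P.S 0) + eval z.1 (P.S 1) + eval z.1 (P.S 2) = 0 := by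
  have h := congrArg (eval z.1) P.sum
  rw [map_add, map_add, map_zero] at h
  exact h

private theorem eval_h_ne (P : Pencil Q) (z : Fib Q) : eval z.1 P.h ≠ 0 := by
  apply P.h_ne
  rw [z.2]
  exact one_ne_zero

theorem pencil_S_ne (P : Pencil Q) (a : Fin 3) (z : Fib Q) : eval z.1 (P.S a) ≠ 0 := by
  have h := eval_prod P z
  have h2 : eval z.1 P.h ^ 3 ≠ 0 := pow_ne_zero _ (eval_h_ne P z)
  rw [← h] at h2
  fin_cases a
  · exact left_ne_zero_of_mul (left_ne_zero_of_mul h2)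
  · exact right_ne_zero_of_mul (left_ne_zero_of_mul h2)
  · exact right_ne_zero_of_mul h2

theorem pencil_X_ne (P : Pencil Q) (z : Fib Q) : P.X z.1 ≠ 0 := by
  unfold Pencil.X
  exact div_ne_zero (neg_ne_zero.mpr (eval_h_ne P z)) (pencil_S_ne P 1 z)

theorem pencil_curve (P : Pencil Q) (z : Fib Q) : P.Y z.1 ^ 2 + P.Y z.1 = P.X z.1 ^ 3 := by
  unfold Pencil.X Pencil.Y
  have h1 := pencil_S_ne P 1 z
  have h2 := eval_prod P z
  have h3 := eval_sum P z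
  have h4 : eval z.1 (P.S 2) = - eval z.1 (P.S 0) - eval z.1 (P.S 1) := by
    linear_combination h3
  rw [h4] at h2
  field_simp
  linear_combination -h2

private theorem cont_eval (P : Pol l) : Continuous fun z : Fib Q => eval z.1 P :=
  (MvPolynomial.continuous_eval P).comp continuous_subtype_val

theorem pencil_X_cont (P : Pencil Q) : Continuous fun z : Fib Q => P.X z.1 := by
  unfold Pencil.X
  exact (cont_eval P.h).neg.div (cont_eval (P.S 1)) (fun z => pencil_S_ne P 1 z)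

theorem pencil_Y_cont (P : Pencil Q) : Continuous fun z : Fib Q => P.Y z.1 := by
  unfold Pencil.Y
  exact (cont_eval (P.S 0)).div (cont_eval (P.S 1)) (fun z => pencil_S_ne P 1 z)

private theorem fac (P P' : Pencil Q) (h : P'.S 0 * P.S 1 ≠ P.S 0 * P'.S 1) (k : Fin 3) :
    ∃ A B N : Pol l, A * B = P'.S 0 * P.S 1 - P.S 0 * P'.S 1 ∧
      A * N = C (w ^ (k : ℕ)) * (P.h * P'.S 1) - P'.h * P.S 1 ∧
      B ∣ ((P'.h * P.S 1) ^ 2 + C (w ^ (k : ℕ)) * (P.h * P'.S 1) * (P'.h * P.S 1) +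
        (C (w ^ (k : ℕ)) * (P.h * P'.S 1)) ^ 2) * Q := by
  have hM : P'.S 0 * P.S 1 - P.S 0 * P'.S 1 ≠ 0 := sub_ne_zero.mpr h
  obtain ⟨B, N, A, hrel, hB, hN⟩ := UniqueFactorizationMonoid.exists_reduced_factors
    (P'.S 0 * P.S 1 - P.S 0 * P'.S 1) hM (C (w ^ (k : ℕ)) * (P.h * P'.S 1) - P'.h * P.S 1)
  refine ⟨A, B, N, hB, hN, ?_⟩
  have hA : A ≠ 0 := by
    rintro rfl
    rw [zero_mul] at hB
    exact hM hB.symm
  have hw : (C (w ^ (k : ℕ)) : Pol l) ^ 3 = 1 := by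
    rw [← map_pow, ← pow_mul, mul_comm (k : ℕ) 3, pow_mul, w_pow_three, one_pow, map_one]
  have h2 : P.S 2 = - P.S 0 - P.S 1 := by linear_combination P.sum
  have h2' : P'.S 2 = - P'.S 0 - P'.S 1 := by linear_combination P'.sum
  have hp := P.prod
  have hp' := P'.prod
  rw [h2] at hp
  rw [h2'] at hp'
  have key : (C (w ^ (k : ℕ)) * (P.h * P'.S 1) - P'.h * P.S 1) *
      (((P'.h * P.S 1) ^ 2 + C (w ^ (k : ℕ)) * (P.h * P'.S 1) * (P'.h * P.S 1) +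
        (C (w ^ (k : ℕ)) * (P.h * P'.S 1)) ^ 2) * Q) =
      (P'.S 0 * P.S 1 - P.S 0 * P'.S 1) * ((P'.S 0 * P.S 1 + P.S 0 * P'.S 1 + P.S 1 * P'.S 1) * (P.S 1 * P'.S 1)) := by
    generalize (C (w ^ (k : ℕ)) : Pol l) = ω at hw
    linear_combination (P.h ^ 3 * P'.S 1 ^ 3 * Q) * hw - P'.S 1 ^ 3 * hp + P.S 1 ^ 3 * hp'
  have key2 : N * (((P'.h * P.S 1) ^ 2 + C (w ^ (k : ℕ)) * (P.h * P'.S 1) * (P'.h * P.S 1) +
        (C (w ^ (k : ℕ)) * (P.h * P'.S 1)) ^ 2) * Q) =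
      B * ((P'.S 0 * P.S 1 + P.S 0 * P'.S 1 + P.S 1 * P'.S 1) * (P.S 1 * P'.S 1)) := by
    apply mul_left_cancel₀ hA
    rw [← mul_assoc, hN, ← mul_assoc A B, hB]
    exact key
  exact hrel.dvd_of_dvd_mul_left ⟨_, key2⟩

theorem exists_cdata (P P' : Pencil Q) (h : P'.S 0 * P.S 1 ≠ P.S 0 * P'.S 1) : ∃ D : CData (Fib Q),
    (D.X₁ = fun z => P.X z.1) ∧ (D.Y₁ = fun z => P.Y z.1) ∧ (D.X₂ = fun z => P'.X z.1) ∧ D.Y₂ = fun z => P'.Y z.1 := by
  choose A B N hAB hAN hdvd using fac P P' h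
  have hyy : ∀ (k : Fin 3) (z : Fib Q), P'.Y z.1 = P.Y z.1 ↔
      eval z.1 (P'.S 0) * eval z.1 (P.S 1) - eval z.1 (P.S 0) * eval z.1 (P'.S 1) = 0 := by
    intro k z
    unfold Pencil.Y
    rw [div_eq_div_iff (pencil_S_ne P' 1 z) (pencil_S_ne P 1 z), sub_eq_zero]
  have hxx : ∀ (k : Fin 3) (z : Fib Q), P'.X z.1 = w ^ (k : ℕ) * P.X z.1 ↔
      w ^ (k : ℕ) * (eval z.1 P.h * eval z.1 (P'.S 1)) - eval z.1 P'.h * eval z.1 (P.S 1) = 0 := by
    intro k z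
    unfold Pencil.X
    rw [← mul_div_assoc, div_eq_div_iff (pencil_S_ne P' 1 z) (pencil_S_ne P 1 z)]
    constructor
    · intro e
      linear_combination e
    · intro e
      linear_combination e
  have eAB : ∀ (k : Fin 3) (z : Fib Q), eval z.1 (A k) * eval z.1 (B k) =
      eval z.1 (P'.S 0) * eval z.1 (P.S 1) - eval z.1 (P.S 0) * eval z.1 (P'.S 1) := by
    intro k z
    rw [← map_mul, hAB, map_sub, map_mul, map_mul]
  have eAN : ∀ (k : Fin 3) (z : Fib Q), eval z.1 (A k) * eval z.1 (N k) =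
      w ^ (k : ℕ) * (eval z.1 P.h * eval z.1 (P'.S 1)) - eval z.1 P'.h * eval z.1 (P.S 1) := by
    intro k z
    rw [← map_mul, hAN, map_sub, map_mul, map_mul, map_mul, eval_C]
  have hBne : ∀ (k : Fin 3) (z : Fib Q),
      w ^ (k : ℕ) * (eval z.1 P.h * eval z.1 (P'.S 1)) - eval z.1 P'.h * eval z.1 (P.S 1) = 0 →
      eval z.1 (B k) ≠ 0 := by
    intro k z e hB0
    obtain ⟨R, hR⟩ := hdvd k
    have h1 := congrArg (eval z.1) hR
    rw [map_mul, map_mul, hB0, zero_mul, z.2, mul_one] at h1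
    simp only [map_add, map_mul, map_pow, eval_C] at h1
    have e2 : eval z.1 P'.h * eval z.1 (P.S 1) = w ^ (k : ℕ) * (eval z.1 P.h * eval z.1 (P'.S 1)) := by
      linear_combination -e
    rw [e2] at h1
    have h3 : 3 * (w ^ (k : ℕ) * (eval z.1 P.h * eval z.1 (P'.S 1))) ^ 2 = 0 := by
      linear_combination h1
    have hw : w ^ (k : ℕ) ≠ 0 := by
      apply pow_ne_zero
      intro h0
      have := w_pow_three
      rw [h0] at this
      norm_num at this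
    have h4 : w ^ (k : ℕ) * (eval z.1 P.h * eval z.1 (P'.S 1)) ≠ 0 :=
      mul_ne_zero hw (mul_ne_zero (eval_h_ne P z) (pencil_S_ne P' 1 z))
    exact absurd h3 (mul_ne_zero (by norm_num) (pow_ne_zero 2 h4))
  have hz : ∀ (k : Fin 3) (z : Fib Q), eval z.1 (A k) = 0 ↔
      P'.X z.1 = w ^ (k : ℕ) * P.X z.1 ∧ P'.Y z.1 = P.Y z.1 := by
    intro k z
    rw [hxx k z, hyy k z]
    constructor
    · intro e
      rw [← eAN k z, ← eAB k z, e]
      exact ⟨zero_mul _, zero_mul _⟩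
    · rintro ⟨e1, e2⟩
      have h1 := hBne k z e1
      rw [← eAB k z] at e2
      exact (mul_eq_zero.mp e2).resolve_right h1
  exact ⟨{
    X₁ := fun z => P.X z.1
    Y₁ := fun z => P.Y z.1
    X₂ := fun z => P'.X z.1
    Y₂ := fun z => P'.Y z.1
    hX₁ := pencil_X_cont P
    hY₁ := pencil_Y_cont P
    hX₂ := pencil_X_cont P'
    hY₂ := pencil_Y_cont P'
    c₁ := pencil_curve P
    c₂ := pencil_curve P'
    ne₁ := pencil_X_ne P
    p := fun k z => eval z.1 (A k)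
    p' := fun k z => eval z.1 (B k) / (eval z.1 (P.S 1) * eval z.1 (P'.S 1))
    hp := fun k => cont_eval (A k)
    hp' := fun k => (cont_eval (B k)).div ((cont_eval (P.S 1)).mul (cont_eval (P'.S 1)))
      (fun z => mul_ne_zero (pencil_S_ne P 1 z) (pencil_S_ne P' 1 z))
    mul := by
      intro k z
      have h1 := pencil_S_ne P 1 z
      have h2 := pencil_S_ne P' 1 z
      rw [← mul_div_assoc, eAB k z]
      unfold Pencil.Y
      field_simp
    zero_iff := hz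
    ne := by
      intro k z hA0
      have h1 := ((hz k z).mp hA0).1
      exact div_ne_zero (hBne k z ((hxx k z).mp h1)) (mul_ne_zero (pencil_S_ne P 1 z) (pencil_S_ne P' 1 z)) },
    rfl, rfl, rfl, rfl⟩

end MFib
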