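import Pool.Agent.Lib.MFib.Defs

/-!
# Definitions for the cochain (part 4) of MP_7a61d8_gt
-/

set_option autoImplicit false

namespace MFib

open MPd9f52e Complex

/-- two maps to the curve `Y² + Y = X³`, `X ≠ 0`, and local equations of the loci `X₂ = w^k X₁, Y₂ = Y₁` -/
structure CData (F : Type*) [TopologicalSpace F] where
  X₁ : F → ℂ
  Y₁ : F → ℂ
  X₂ : F → ℂ
  Y₂ : F → ℂ
  hX₁ : Continuous X₁
  hY₁ : Continuous Y₁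
  hX₂ : Continuous X₂
  hY₂ : Continuous Y₂
  c₁ : ∀ z, Y₁ z ^ 2 + Y₁ z = X₁ z ^ 3
  c₂ : ∀ z, Y₂ z ^ 2 + Y₂ z = X₂ z ^ 3
  ne₁ : ∀ z, X₁ z ≠ 0
  p : Fin 3 → F → ℂ
  p' : Fin 3 → F → ℂ
  hp : ∀ k, Continuous (p k)
  hp' : ∀ k, Continuous (p' k)
  mul : ∀ k z, p k z * p' k z = Y₂ z - Y₁ z
  zero_iff : ∀ k z, p k z = 0 ↔ X₂ z = w ^ (k : ℕ) * X₁ z ∧ Y₂ z = Y₁ z
  ne : ∀ k z, p k z = 0 → p' k z ≠ 0

/-- `(s₁, s₂)` lies over `z` -/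
def On {F : Type*} [TopologicalSpace F] (D : CData F) (z : F) (s₁ s₂ : ℂ) : Prop :=
  (s₁ ∉ LO.lattice ∧ xx s₁ = D.X₁ z ∧ yy s₁ = D.Y₁ z) ∧ s₂ ∉ LO.lattice ∧ xx s₂ = D.X₂ z ∧ yy s₂ = D.Y₂ z

/-- the function `u_k = σ(s₂ - w^k s₁) / p_k` -/
noncomputable def uu {F : Type*} [TopologicalSpace F] (D : CData F) (k : Fin 3) (z : F) (s₁ s₂ : ℂ) : ℂ :=
  open Classical in
  if D.p k z = 0 then D.p' k z * Om ^ 3 * sigma s₁ ^ 3 * sigma s₂ ^ 3 /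
    (sigma (s₂ - w ^ ((k : ℕ) + 1) * s₁) * sigma (s₂ - w ^ ((k : ℕ) + 2) * s₁))
  else sigma (s₂ - w ^ (k : ℕ) * s₁) / D.p k z

/-- the variation of the logarithm along a path in `ℂ ∖ {0}` -/
noncomputable def Dl (u : unitInterval → ℂ) : ℂ :=
  open Classical in
  if h : ∃ L : C(unitInterval, ℂ), ∀ t, exp (L t) = u t then h.choose 1 - h.choose 0 else 0

end MFib
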