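import Pool.Agent.Lib.MFib.CDefs

/-!
# CDl (about 220 lines): variation of the logarithm

`Complex.isCoveringMap_exp` (Mathlib/Analysis/Complex/CoveringMap.lean) and `IsCoveringMap.liftPath`, `liftHomotopy`
(Mathlib/Topology/Homotopy/Lifting.lean).
* `exists_log`: lift the path.  `exists_log2`: lift the square (first the edge, then `liftHomotopy`).
* `Dl_eq`: two logarithms differ by a continuous function with values in `2πiℤ`, constant on the connected `I`.
* `Dl_mul`: sum of the logarithms.  `Dl_exp`: if `u t = exp (f t) * v t` with `f` continuous.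
* `Dl_homotopy`: on the square take a logarithm `L`; on the edges where `H` is constant `L` is constant (values in a coset of `2πiℤ`, connected).
* `Dl_trans`: a logarithm `L` of `u`: `L 1 - L 0 = (L 1 - L (1/2)) + (L (1/2) - L 0)`, reparametrised logarithms on the halves.
-/

set_option autoImplicit false

namespace MFib

open MPd9f52e Complex unitInterval

theorem exists_log {u : I → ℂ} (hu : Continuous u) (h : ∀ t, u t ≠ 0) : ∃ L : C(I, ℂ), ∀ t, exp (L t) = u t := by
  have cov := Complex.isCoveringMap_exp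
  let γ : C(I, {z : ℂ // z ≠ 0}) := ⟨fun t => ⟨u t, h t⟩, by fun_prop⟩
  have h0 : γ 0 = (fun z : ℂ ↦ (⟨_, z.exp_ne_zero⟩ : {z : ℂ // z ≠ 0})) (log (u 0)) :=
    Subtype.ext (exp_log (h 0)).symm
  obtain ⟨L, hL, -⟩ := cov.exists_path_lifts γ (log (u 0)) h0
  exact ⟨L, fun t => congrArg Subtype.val (congrFun hL t)⟩

theorem exists_log2 {u : I × I → ℂ} (hu : Continuous u) (h : ∀ t, u t ≠ 0) : ∃ L : C(I × I, ℂ), ∀ t, exp (L t) = u t := by
  have cov := Complex.isCoveringMap_exp
  let γ : C(I × I, {z : ℂ // z ≠ 0}) := ⟨fun t => ⟨u t, h t⟩, by fun_prop⟩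
  obtain ⟨f, hf⟩ := exists_log (u := fun t => u (0, t)) (by fun_prop) (fun t => h _)
  have h0 : ∀ a, γ (0, a) = (fun z : ℂ ↦ (⟨_, z.exp_ne_zero⟩ : {z : ℂ // z ≠ 0})) (f a) :=
    fun a => Subtype.ext (hf a).symm
  refine ⟨cov.liftHomotopy γ f h0, fun t => ?_⟩
  exact congrArg Subtype.val (congrFun (cov.liftHomotopy_lifts γ f h0) t)

/-- A continuous function on a preconnected space with constant exponential is constant. -/
private theorem const_of_exp {A : Type*} [TopologicalSpace A] [PreconnectedSpace A] {g : A → ℂ} (hg : Continuous g)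
    (h : ∀ s t, exp (g s) = exp (g t)) (s t : A) : g s = g t :=
  Complex.isCoveringMap_exp.const_of_comp hg (fun a b => Subtype.ext (h a b)) s t

theorem Dl_eq {u : I → ℂ} {L : C(I, ℂ)} (h : ∀ t, exp (L t) = u t) : Dl u = L 1 - L 0 := by
  have hex : ∃ L : C(unitInterval, ℂ), ∀ t, exp (L t) = u t := ⟨L, h⟩
  have hd : Dl u = hex.choose 1 - hex.choose 0 := by
    unfold Dl
    rw [dif_pos hex]
  have hc := hex.choose_spec
  set K := hex.choose with hK
  have := const_of_exp (g := fun t => K t - L t) (by fun_prop) (fun s t => by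
    rw [exp_sub, exp_sub, hc, hc, h, h, div_self, div_self]
    · rw [← h]; exact exp_ne_zero _
    · rw [← h]; exact exp_ne_zero _) 1 0
  rw [hd]
  linear_combination this

theorem Dl_exp {u v : I → ℂ} (hv : Continuous v) (h0 : ∀ t, v t ≠ 0) {f : I → ℂ} (hf : Continuous f) {ε : ℂ} (hε : ε ≠ 0)
    (h : ∀ t, u t = ε * exp (f t) * v t) : Dl u = Dl v + (f 1 - f 0) := by
  obtain ⟨L, hL⟩ := exists_log hv h0
  rw [Dl_eq hL, Dl_eq (u := u) (L := ⟨fun t => log ε + f t + L t, by fun_prop⟩)]
  · simp only [ContinuousMap.coe_mk]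
    ring
  · intro t
    simp only [ContinuousMap.coe_mk]
    rw [exp_add, exp_add, exp_log hε, hL, h]

theorem Dl_homotopy {H : I × I → ℂ} (hH : Continuous H) (h : ∀ t, H t ≠ 0) (h0 : ∀ s, H (s, 0) = H (0, 0))
    (h1 : ∀ s, H (s, 1) = H (0, 1)) : Dl (fun t => H (0, t)) = Dl fun t => H (1, t) := by
  obtain ⟨L, hL⟩ := exists_log2 hH h
  rw [Dl_eq (u := fun t => H (0, t)) (L := ⟨fun t => L (0, t), by fun_prop⟩) (fun t => hL _),
    Dl_eq (u := fun t => H (1, t)) (L := ⟨fun t => L (1, t), by fun_prop⟩) (fun t => hL _)]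
  simp only [ContinuousMap.coe_mk]
  have e0 := const_of_exp (g := fun s => L (s, 0)) (by fun_prop) (fun s t => by rw [hL, hL, h0, h0 t]) 0 1
  have e1 := const_of_exp (g := fun s => L (s, 1)) (by fun_prop) (fun s t => by rw [hL, hL, h1, h1 t]) 0 1
  rw [e0, e1]

/-- first half -/
noncomputable def half₁ (t : I) : I := ⟨t / 2, by constructor <;> linarith [t.2.1, t.2.2]⟩

/-- second half -/
noncomputable def half₂ (t : I) : I := ⟨(1 + t) / 2, by constructor <;> linarith [t.2.1, t.2.2]⟩

theorem Dl_trans {u : I → ℂ} (hu : Continuous u) (h : ∀ t, u t ≠ 0) :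
    Dl u = Dl (fun t => u (half₁ t)) + Dl fun t => u (half₂ t) := by
  obtain ⟨L, hL⟩ := exists_log hu h
  have c1 : Continuous half₁ := by unfold half₁; fun_prop
  have c2 : Continuous half₂ := by unfold half₂; fun_prop
  rw [Dl_eq hL, Dl_eq (u := fun t => u (half₁ t)) (L := ⟨fun t => L (half₁ t), by fun_prop⟩) (fun t => hL _),
    Dl_eq (u := fun t => u (half₂ t)) (L := ⟨fun t => L (half₂ t), by fun_prop⟩) (fun t => hL _)]
  simp only [ContinuousMap.coe_mk]
  have a : half₁ 0 = 0 := Subtype.ext (by simp [half₁])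
  have b : half₁ 1 = half₂ 0 := Subtype.ext (by simp [half₁, half₂])
  have c : half₂ 1 = 1 := Subtype.ext (by simp [half₂])
  rw [a, b, c]
  ring

end MFib
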