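import Pool.Agent.Lib.MFib.CN
import Pool.Agent.Lib.MFib.CAlg

/-!
# CFin (about 100 lines): Theorem T2, the cochain

`n = ∑_k w^{-k} n_k = n_0 + w² n_1 + w n_2`: the defect is `r0 ∑_k w^{-k} (conj(a₂ h) - w^{-k} conj(a₁ h)) (a₂ g - w^k a₁ g) = -3 r0 a₁ g conj(a₂ h)` (`w^3 = 1`, `1 + w + w² = 0`, `conj w = w²`).
`c = - n/(3 r0)` (`r0 ≠ 0`).  Then `exists_cdata` for the pencils.
-/

set_option autoImplicit false

namespace MFib

open MPd9f52e Complex MvPolynomial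

theorem exists_c {F : Type*} [TopologicalSpace F] (D : CData F) (p : F) {a₁ a₂ : FundamentalGroup F p → ℂ}
    (h1 : IsPer D.X₁ D.Y₁ p a₁) (h2 : IsPer D.X₂ D.Y₂ p a₂) :
    ∃ c : FundamentalGroup F p → ℂ, ∀ g h, c (g * h) = c g + c h + a₁ g * (starRingEnd ℂ) (a₂ h) := by
  obtain ⟨n₀, h₀⟩ := exists_n D p h1 h2 0
  obtain ⟨n₁, h₁⟩ := exists_n D p h1 h2 1
  obtain ⟨n₂, h₂⟩ := exists_n D p h1 h2 2
  have hr : (r0 : ℂ) ≠ 0 := by
    have := r0_pos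
    exact_mod_cast this.ne'
  refine ⟨fun g => -(n₀ g + w ^ 2 * n₁ g + w * n₂ g) / (3 * r0), fun g h => ?_⟩
  have e3 := w_pow_three
  have e2 := w_sq
  simp only [h₀, h₁, h₂, Fin.val_zero, Fin.val_one, Fin.val_two, map_sub, map_mul, map_pow, conj_w,
    pow_zero, pow_one, one_mul]
  field_simp
  generalize a₁ g = x
  generalize a₂ g = y
  generalize (starRingEnd ℂ) (a₁ h) = u
  generalize (starRingEnd ℂ) (a₂ h) = v
  linear_combination (r0 : ℂ) * (-(v * y) + u * y - u * x) * e2 +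
    (r0 : ℂ) * (2 * (v * x) + u * y * (w + w ^ 2) - u * x * (w ^ 2 + w * (w ^ 3 + 1))) * e3

/-- Theorem T2 -/
theorem T2 {l : ℕ} {Q : Pol l} (P P' : Pencil Q) (h : P'.S 0 * P.S 1 ≠ P.S 0 * P'.S 1) (p : Fib Q)
    {a₁ a₂ : FundamentalGroup (Fib Q) p → ℂ} (h1 : IsPer (fun z : Fib Q => P.X z.1) (fun z => P.Y z.1) p a₁)
    (h2 : IsPer (fun z : Fib Q => P'.X z.1) (fun z => P'.Y z.1) p a₂) :
    ∃ c : FundamentalGroup (Fib Q) p → ℂ, ∀ g h, c (g * h) = c g + c h + a₁ g * (starRingEnd ℂ) (a₂ h) := by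
  obtain ⟨D, e1, e2, e3, e4⟩ := exists_cdata P P' h
  refine exists_c D p (a₁ := a₁) (a₂ := a₂) ?_ ?_
  · rw [e1, e2]
    exact h1
  · rw [e3, e4]
    exact h2

end MFib
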