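import Pool.Agent.Lib.MFib.UCov

/-!
# UPer (about 300 lines): lifts and periods

`F` a topological space, `X, Y : F → ℂ` continuous with `Y² + Y = X³`; `φ : F → Ea`, `z ↦ ⟨(X z, Y z), _⟩` continuous.
* `exists_lift`, `lift_homotopy`: `piE_covering.liftPath`, `.liftHomotopy` (Mathlib/Topology/Homotopy/Lifting.lean) for `φ ∘ γ`; for the square: lift the path `t ↦ (0, t)`... : `liftHomotopy` with `H : C(I × A, X)`, first
  coordinate is the lifting direction: first lift the edge `{0} × I` (a path), then the square.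
* `lift_unique`: `s' 0 - s 0 ∈ Λ` by `piE_eq_iff`; `s + ec b` and `s'` are lifts with the same start (`IsCoveringMap.eq_of_comp_eq`).
* `exists_per`.  For a loop `γ` at `p`: `s 1 - s 0` does not depend on the lift (`lift_unique`), nor on the homotopy class: for a homotopy `H` rel endpoints from `γ` to `γ'`, `lift_homotopy` gives `s` on `I × I`; on the two
  sides where `H = p` is constant the lift is constant (it takes values in the discrete fibre: `lift_unique` with the constant lift), so the differences agree.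
  `a g := s 1 - s 0` for a representative `γ` of `g` (`Quotient.lift` or choice; `FundamentalGroup.toPath`).  Surjectivity of `piE` gives a start point.
  Additivity: `FundamentalGroup.mul_def : p * q = q.trans p`; the concatenation of a lift of `γ'` starting at `s 1` (translate) with the lift of `γ`.
  Since `piE (s 1) = piE (s 0)`: `a g ∈ Λ`.
-/

set_option autoImplicit false

namespace MFib

open MPd9f52e Complex unitInterval

variable {F : Type*} [TopologicalSpace F] {X Y : F → ℂ}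

private noncomputable def uph (hX : Continuous X) (hY : Continuous Y) (hc : ∀ z, Y z ^ 2 + Y z = X z ^ 3) : C(F, Ea) :=
  ⟨fun z => ⟨(X z, Y z), hc z⟩, (hX.prodMk hY).subtype_mk _⟩

private theorem piE_eq_of {z : Ua} {q : Ea} (h1 : xx z = q.1.1) (h2 : yy z = q.1.2) : piE z = q :=
  Subtype.ext (Prod.ext h1 h2)

theorem exists_lift (hX : Continuous X) (hY : Continuous Y) (hc : ∀ z, Y z ^ 2 + Y z = X z ^ 3) (γ : C(I, F)) {s₀ : ℂ}
    (h0 : s₀ ∉ LO.lattice ∧ xx s₀ = X (γ 0) ∧ yy s₀ = Y (γ 0)) : ∃ s : C(I, ℂ), IsLift X Y γ s ∧ s 0 = s₀ := by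
  have h1 : ((uph hX hY hc).comp γ) 0 = piE ⟨s₀, h0.1⟩ :=
    (piE_eq_of (z := ⟨s₀, h0.1⟩) h0.2.1 h0.2.2).symm
  obtain ⟨Γ, hΓ, hΓ0⟩ := piE_covering.exists_path_lifts _ _ h1
  refine ⟨⟨fun t => (Γ t : ℂ), continuous_subtype_val.comp Γ.continuous⟩, fun t => ?_, ?_⟩
  · have h2 := congrFun hΓ t
    refine ⟨(Γ t).2, ?_, ?_⟩
    · exact congrArg (fun q : Ea => q.1.1) h2
    · exact congrArg (fun q : Ea => q.1.2) h2
  · exact congrArg Subtype.val hΓ0

theorem exists_start (hc : ∀ z, Y z ^ 2 + Y z = X z ^ 3) (z : F) : ∃ s₀ : ℂ, s₀ ∉ LO.lattice ∧ xx s₀ = X z ∧ yy s₀ = Y z :=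
  exists_point (hc z)

theorem lift_unique {γ : C(I, F)} {s s' : C(I, ℂ)} (h : IsLift X Y γ s) (h' : IsLift X Y γ s') :
    ∃ b : Eis, ∀ t, s' t = s t + ec b := by
  have h1 : ∀ t, piE ⟨s t, (h t).1⟩ = piE ⟨s' t, (h' t).1⟩ := fun t =>
    Subtype.ext (Prod.ext ((h t).2.1.trans (h' t).2.1.symm) ((h t).2.2.trans (h' t).2.2.symm))
  obtain ⟨b, hb⟩ := piE_eq_iff.1 (h1 0)
  refine ⟨b, fun t => ?_⟩
  have hn : ∀ t, s t + ec b ∉ LO.lattice := fun t ht =>
    (h t).1 (by simpa using sub_mem ht (ec_mem b))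
  have h2 : (fun t => (⟨s' t, (h' t).1⟩ : Ua)) = fun t => ⟨s t + ec b, hn t⟩ := by
    refine piE_covering.eq_of_comp_eq ?_ ?_ ?_ (0 : I) ?_
    · exact s'.continuous.subtype_mk _
    · exact (s.continuous.add continuous_const).subtype_mk _
    · funext t
      change piE _ = piE _
      rw [← h1 t]
      exact piE_eq_iff.2 ⟨b, rfl⟩
    · exact Subtype.ext hb
  exact congrArg Subtype.val (congrFun h2 t)

theorem lift_homotopy (hX : Continuous X) (hY : Continuous Y) (hc : ∀ z, Y z ^ 2 + Y z = X z ^ 3) (H : C(I × I, F)) {s₀ : ℂ}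
    (h0 : s₀ ∉ LO.lattice ∧ xx s₀ = X (H (0, 0)) ∧ yy s₀ = Y (H (0, 0))) :
    ∃ s : C(I × I, ℂ), (∀ t, s t ∉ LO.lattice ∧ xx (s t) = X (H t) ∧ yy (s t) = Y (H t)) ∧ s (0, 0) = s₀ := by
  have h1 : ((uph hX hY hc).comp (H.comp ⟨fun a : I => ((0 : I), a), by fun_prop⟩)) 0 = piE ⟨s₀, h0.1⟩ :=
    (piE_eq_of (z := ⟨s₀, h0.1⟩) h0.2.1 h0.2.2).symm
  obtain ⟨f, hf, hf0⟩ := piE_covering.exists_path_lifts _ _ h1
  have h2 : ∀ a, ((uph hX hY hc).comp H) (0, a) = piE (f a) := fun a => (congrFun hf a).symm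
  refine ⟨⟨fun t => (piE_covering.liftHomotopy _ f h2 t : ℂ),
    continuous_subtype_val.comp (piE_covering.liftHomotopy _ f h2).continuous⟩, fun t => ?_, ?_⟩
  · have h3 := congrFun (piE_covering.liftHomotopy_lifts _ f h2) t
    refine ⟨(piE_covering.liftHomotopy _ f h2 t).2, ?_, ?_⟩
    · exact congrArg (fun q : Ea => q.1.1) h3
    · exact congrArg (fun q : Ea => q.1.2) h3
  · have h3 := piE_covering.liftHomotopy_zero _ f h2 0
    rw [hf0] at h3
    exact congrArg Subtype.val h3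

private theorem lift_trans {p q r : F} (γ : Path p q) (γ' : Path q r) {s s' : C(I, ℂ)}
    (h : IsLift X Y γ s) (h' : IsLift X Y γ' s') (h0 : s' 0 = s 1) :
    ∃ u : C(I, ℂ), IsLift X Y (γ.trans γ') u ∧ u 0 = s 0 ∧ u 1 = s' 1 := by
  set P : Path (s 0) (s 1) := ⟨s, rfl, rfl⟩ with hP
  set P' : Path (s 1) (s' 1) := ⟨s', h0, rfl⟩ with hP'
  refine ⟨(P.trans P').toContinuousMap, fun t => ?_, (P.trans P').source, (P.trans P').target⟩
  change (P.trans P') t ∉ _ ∧ xx ((P.trans P') t) = X ((γ.trans γ') t) ∧ yy ((P.trans P') t) = Y ((γ.trans γ') t)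
  rw [Path.trans_apply, Path.trans_apply]
  split_ifs
  · exact h _
  · exact h' _

theorem exists_per (hX : Continuous X) (hY : Continuous Y) (hc : ∀ z, Y z ^ 2 + Y z = X z ^ 3) (p : F) :
    ∃ a : FundamentalGroup F p → ℂ, IsPer X Y p a ∧ (∀ g h, a (g * h) = a g + a h) ∧ ∀ g, ∃ b : Eis, a g = ec b := by
  obtain ⟨s₀, hs₀⟩ := exists_start (X := X) (Y := Y) hc p
  have he : piE ⟨s₀, hs₀.1⟩ = uph hX hY hc p := piE_eq_of (z := ⟨s₀, hs₀.1⟩) hs₀.2.1 hs₀.2.2
  set e : piE ⁻¹' {uph hX hY hc p} := ⟨⟨s₀, hs₀.1⟩, he⟩ with hedef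
  set a : FundamentalGroup F p → ℂ := fun g =>
    ((piE_covering.monodromy (Path.Homotopic.Quotient.map (FundamentalGroup.toPath g) (uph hX hY hc)) e : Ua) : ℂ) - s₀ with ha
  have hper : IsPer X Y p a := by
    intro γ s hs
    obtain ⟨u, hu, hu0⟩ := exists_lift hX hY hc (γ : C(I, F)) (s₀ := s₀) (by
      rw [ContinuousMap.coe_coe, γ.source]
      exact hs₀)
    obtain ⟨b, hb⟩ := lift_unique hu hs
    have h1 : a (FundamentalGroup.fromPath (Path.Homotopic.Quotient.mk γ)) = u 1 - u 0 := by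
      rw [hu0]
      change (_ : ℂ) - s₀ = _
      congr 1
      have h2 : ((uph hX hY hc).comp (γ : C(I, F))) 0 = piE ⟨s₀, hs₀.1⟩ := by
        rw [he, ContinuousMap.comp_apply]
        exact congrArg _ γ.source
      have h3 : (⟨fun t => (⟨u t, (hu t).1⟩ : Ua), u.continuous.subtype_mk _⟩ : C(I, Ua)) =
          piE_covering.liftPath ((uph hX hY hc).comp (γ : C(I, F))) ⟨s₀, hs₀.1⟩ h2 := by
        rw [piE_covering.eq_liftPath_iff']
        refine ⟨funext fun t => ?_, Subtype.ext hu0⟩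
        exact piE_eq_of (z := ⟨u t, (hu t).1⟩) (hu t).2.1 (hu t).2.2
      have h4 := congrArg (fun f : C(I, Ua) => ((f 1 : Ua) : ℂ)) h3
      exact h4.symm
    rw [h1, hb, hb]
    ring
  have hrep : ∀ g : FundamentalGroup F p, ∃ γ : Path p p, g = FundamentalGroup.fromPath (Path.Homotopic.Quotient.mk γ) := by
    intro g
    obtain ⟨γ, hγ⟩ := Quotient.exists_rep (FundamentalGroup.toPath g)
    exact ⟨γ, hγ.symm⟩
  refine ⟨a, hper, fun g h => ?_, fun g => ?_⟩
  · obtain ⟨γ, rfl⟩ := hrep g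
    obtain ⟨γ', rfl⟩ := hrep h
    obtain ⟨s', hs', hs0'⟩ := exists_lift hX hY hc (γ' : C(I, F)) (s₀ := s₀) (by
      rw [ContinuousMap.coe_coe, γ'.source]
      exact hs₀)
    obtain ⟨s, hs, hs0⟩ := exists_lift hX hY hc (γ : C(I, F)) (s₀ := s' 1) (by
      have h1 := hs' 1
      rw [ContinuousMap.coe_coe, γ'.target] at h1
      rw [ContinuousMap.coe_coe, γ.source]
      exact h1)
    obtain ⟨u, hu, hu0, hu1⟩ := lift_trans γ' γ hs' hs hs0
    have h1 := hper _ _ hu
    rw [hper _ _ hs, hper _ _ hs']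
    have h2 : FundamentalGroup.fromPath (Path.Homotopic.Quotient.mk γ) *
        FundamentalGroup.fromPath (Path.Homotopic.Quotient.mk γ') =
        FundamentalGroup.fromPath (Path.Homotopic.Quotient.mk (γ'.trans γ)) := rfl
    rw [h2, h1, hu0, hu1, hs0]
    ring
  · obtain ⟨γ, rfl⟩ := hrep g
    obtain ⟨s, hs, hs0⟩ := exists_lift hX hY hc (γ : C(I, F)) (s₀ := s₀) (by
      rw [ContinuousMap.coe_coe, γ.source]
      exact hs₀)
    rw [hper _ _ hs]
    have h0 := hs 0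
    have h1 := hs 1
    rw [ContinuousMap.coe_coe, γ.source] at h0
    rw [ContinuousMap.coe_coe, γ.target] at h1
    have h2 : piE ⟨s 0, h0.1⟩ = piE ⟨s 1, h1.1⟩ :=
      Subtype.ext (Prod.ext (h0.2.1.trans h1.2.1.symm) (h0.2.2.trans h1.2.2.symm))
    obtain ⟨b, hb⟩ := piE_eq_iff.1 h2
    refine ⟨b, ?_⟩
    change s 1 = s 0 + ec b at hb
    rw [hb]
    ring

end MFib
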