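import Pool.Agent.Lib.MFib.CU
import Pool.Agent.Lib.MFib.CDl
import Pool.Agent.Lib.MFib.UPer

/-!
# CN (about 350 lines): the functions `n_k` on the fundamental group

Fix `p`, starts `s₁⁰, s₂⁰` over `p` (`exists_start` for `(X₁,Y₁)`, `(X₂,Y₂)`).  For a loop `γ` at `p` let `s₁, s₂` be the lifts with these starts (`exists_lift`, unique by `lift_unique`), and
`n(γ) = Dl (fun t => uu D k (γ t) (s₁ t) (s₂ t))` (continuous, nonvanishing: `uu_cont`, `uu_ne`).
(1) Homotopy invariance: for a homotopy `H` rel endpoints (`Path.Homotopic`: `Nonempty (Path.Homotopy γ γ')`, a map `I × I → F`) `lift_homotopy` gives `s₁, s₂ : I × I → ℂ` with the given starts at `(0,0)`; on the sides `t = 0` and `t = 1`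
    `H` is constant `= p`, the lifts are constant there (`lift_unique` with constant lifts: they differ by a constant lattice vector from the constant lift).  So `s_i (0,·)`, `s_i (1,·)` are the lifts of `γ`, `γ'` with the given start, and
    `Dl_homotopy` applies to `uu D k (H t) (s₁ t) (s₂ t)`.
(2) `n(γ.trans γ') = n(γ) + n(γ') + r0 * conj(l(γ)) * l(γ')`, `l(γ) = a₂(γ) - w^k a₁(γ)`, `a_i(γ) = s_i(1) - s_i(0)` (`IsPer`).  The lift of `γ.trans γ'` on the first half is the lift `s_i` of `γ`; on the second half it is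
    `s'_i + a_i(γ)`, `s'_i` the lift of `γ'` with start `s_i⁰` (`a_i(γ) ∈ Λ`, `= ec b_i`).  `Dl_trans`; the second half by `uu_add` (with `a = b_1`, `b = b_2`) and `Dl_exp`:
    `Dl(second) = n(γ') + r0 * conj(ec b₂ - w^k ec b₁) * ((s'₂ - w^k s'₁)(1) - (s'₂ - w^k s'₁)(0)) = n(γ') + r0 conj(l(γ)) l(γ')`.
(3) Descend to `FundamentalGroup F p` (quotient of loops by homotopy); `FundamentalGroup.mul_def : g * h = h.trans g`: `n(g * h) = n h + n g + r0 conj(l h) l g`.
-/

set_option autoImplicit false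

namespace MFib

open MPd9f52e Complex

variable {F : Type*} [TopologicalSpace F]

/-- uniqueness of the lift with a given start -/
private theorem lift_eq {X Y : F → ℂ} {γ : C(unitInterval, F)} {s s' : C(unitInterval, ℂ)} (h : IsLift X Y γ s)
    (h' : IsLift X Y γ s') (h0 : s 0 = s' 0) : s = s' := by
  obtain ⟨b, hb⟩ := lift_unique h h'
  have e : ec b = 0 := by
    have := hb 0
    rw [← h0] at this
    linear_combination -this
  ext t
  rw [hb t, e, add_zero]

/-- a chosen system of lifts of loops -/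
private theorem exists_lifts {X Y : F → ℂ} (hX : Continuous X) (hY : Continuous Y) (hc : ∀ z, Y z ^ 2 + Y z = X z ^ 3)
    (p : F) : ∃ (s₀ : ℂ) (s : Path p p → C(unitInterval, ℂ)), ∀ γ : Path p p, IsLift X Y γ (s γ) ∧ s γ 0 = s₀ := by
  obtain ⟨s₀, h0⟩ := exists_start hc p
  have : ∀ γ : Path p p, ∃ s : C(unitInterval, ℂ), IsLift X Y γ s ∧ s 0 = s₀ := by
    intro γ
    refine exists_lift hX hY hc (γ : C(unitInterval, F)) ?_
    have e : (γ : C(unitInterval, F)) 0 = p := γ.source
    rw [e]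
    exact h0
  choose s hs using this
  exact ⟨s₀, s, hs⟩

/-- the lift of a homotopy of loops -/
private theorem lift_hom {X Y : F → ℂ} (hX : Continuous X) (hY : Continuous Y) (hc : ∀ z, Y z ^ 2 + Y z = X z ^ 3)
    {p : F} {s₀ : ℂ} {s : Path p p → C(unitInterval, ℂ)} (hs : ∀ γ : Path p p, IsLift X Y γ (s γ) ∧ s γ 0 = s₀)
    {γ γ' : Path p p} (H : Path.Homotopy γ γ') :
    ∃ S : C(unitInterval × unitInterval, ℂ), (∀ t, S t ∉ LO.lattice ∧ xx (S t) = X (H t) ∧ yy (S t) = Y (H t)) ∧
      (∀ t, S (0, t) = s γ t) ∧ (∀ t, S (1, t) = s γ' t) ∧ (∀ t, S (t, 0) = S (0, 0)) ∧ ∀ t, S (t, 1) = S (0, 1) := by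
  have hst : s₀ ∉ LO.lattice ∧ xx s₀ = X p ∧ yy s₀ = Y p := by
    have := (hs γ).1 0
    rw [(hs γ).2] at this
    have e : (γ : C(unitInterval, F)) 0 = p := γ.source
    rw [e] at this
    exact this
  obtain ⟨S, hS, hS0⟩ := lift_homotopy hX hY hc (H.toContinuousMap) (s₀ := s₀) (by
    have e : H.toContinuousMap (0, 0) = p := H.source 0
    rw [e]
    exact hst)
  have hS' : ∀ t, S t ∉ LO.lattice ∧ xx (S t) = X (H t) ∧ yy (S t) = Y (H t) := hS
  -- constancy along the sides
  have side : ∀ e : unitInterval, (∀ t, H (t, e) = p) → ∀ t, S (t, e) = S (0, e) := by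
    intro e he
    let σ : C(unitInterval, ℂ) := ⟨fun t => S (t, e), S.continuous.comp (by fun_prop)⟩
    let σ' : C(unitInterval, ℂ) := ContinuousMap.const _ (S (0, e))
    have h1 : IsLift X Y (ContinuousMap.const unitInterval p) σ := by
      intro t
      have := hS' (t, e)
      rw [he t] at this
      exact this
    have h2 : IsLift X Y (ContinuousMap.const unitInterval p) σ' := by
      intro t
      have := hS' (0, e)
      rw [he 0] at this
      exact this
    have h3 := lift_eq h1 h2 rfl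
    intro t
    exact DFunLike.congr_fun h3 t
  have s0 := side 0 fun t => H.source t
  have s1 := side 1 fun t => H.target t
  refine ⟨S, hS', ?_, ?_, s0, s1⟩
  · let σ : C(unitInterval, ℂ) := ⟨fun t => S (0, t), S.continuous.comp (by fun_prop)⟩
    have h1 : IsLift X Y (γ : C(unitInterval, F)) σ := by
      intro t
      have := hS' (0, t)
      rw [H.apply_zero t] at this
      exact this
    have h3 := lift_eq h1 (hs γ).1 (by rw [(hs γ).2]; exact hS0)
    intro t
    exact DFunLike.congr_fun h3 t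
  · let σ : C(unitInterval, ℂ) := ⟨fun t => S (1, t), S.continuous.comp (by fun_prop)⟩
    have h1 : IsLift X Y (γ' : C(unitInterval, F)) σ := by
      intro t
      have := hS' (1, t)
      rw [H.apply_one t] at this
      exact this
    have h3 := lift_eq h1 (hs γ').1 (by rw [(hs γ').2]; exact (s0 1).trans hS0)
    intro t
    exact DFunLike.congr_fun h3 t

private theorem half₁_cont : Continuous half₁ := by
  unfold half₁
  fun_prop

private theorem half₂_cont : Continuous half₂ := by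
  unfold half₂
  fun_prop

private theorem half₁_zero : half₁ 0 = 0 := by
  apply Subtype.ext
  simp [half₁]

private theorem half₁_one_eq : half₁ 1 = half₂ 0 := by
  apply Subtype.ext
  simp [half₁, half₂]

private theorem trans_half₁ {p : F} (γ γ' : Path p p) (t : unitInterval) : (γ.trans γ') (half₁ t) = γ t := by
  rw [Path.trans_apply, dif_pos (by simp only [half₁]; linarith [t.2.2])]
  congr 1
  apply Subtype.ext
  simp only [half₁]
  ring

private theorem trans_half₂ {p : F} (γ γ' : Path p p) (t : unitInterval) : (γ.trans γ') (half₂ t) = γ' t := by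
  rcases eq_or_ne t 0 with rfl | ht
  · rw [← half₁_one_eq, trans_half₁, γ.target, γ'.source]
  · have ht' : 0 < (t : ℝ) := lt_of_le_of_ne t.2.1 (fun h => ht (Subtype.ext h.symm))
    rw [Path.trans_apply, dif_neg (by simp only [half₂]; linarith)]
    congr 1
    apply Subtype.ext
    simp only [half₂]
    ring

/-- the lift of a concatenation -/
private theorem lift_tr {X Y : F → ℂ} {p : F} {s₀ : ℂ} {s : Path p p → C(unitInterval, ℂ)}
    (hs : ∀ γ : Path p p, IsLift X Y γ (s γ) ∧ s γ 0 = s₀) (γ γ' : Path p p) :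
    (∀ t, s (γ.trans γ') (half₁ t) = s γ t) ∧ ∃ b : Eis, ec b = s γ 1 - s γ 0 ∧
      ∀ t, s (γ.trans γ') (half₂ t) = s γ' t + ec b := by
  have a1 : ∀ t, s (γ.trans γ') (half₁ t) = s γ t := by
    let σ : C(unitInterval, ℂ) := ⟨fun t => s (γ.trans γ') (half₁ t), (s (γ.trans γ')).continuous.comp half₁_cont⟩
    have h1 : IsLift X Y (γ : C(unitInterval, F)) σ := by
      intro t
      have := (hs (γ.trans γ')).1 (half₁ t)
      have e : ((γ.trans γ' : Path p p) : C(unitInterval, F)) (half₁ t) = γ t := trans_half₁ γ γ' t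
      rw [e] at this
      exact this
    have h3 := lift_eq h1 (hs γ).1 (by
      rw [(hs γ).2]
      change s (γ.trans γ') (half₁ 0) = s₀
      rw [half₁_zero, (hs _).2])
    intro t
    exact DFunLike.congr_fun h3 t
  refine ⟨a1, ?_⟩
  let σ : C(unitInterval, ℂ) := ⟨fun t => s (γ.trans γ') (half₂ t), (s (γ.trans γ')).continuous.comp half₂_cont⟩
  have h1 : IsLift X Y (γ' : C(unitInterval, F)) σ := by
    intro t
    have := (hs (γ.trans γ')).1 (half₂ t)
    have e : ((γ.trans γ' : Path p p) : C(unitInterval, F)) (half₂ t) = γ' t := trans_half₂ γ γ' t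
    rw [e] at this
    exact this
  obtain ⟨b, hb⟩ := lift_unique (hs γ').1 h1
  refine ⟨b, ?_, hb⟩
  have h0 : s (γ.trans γ') (half₂ 0) = s γ' 0 + ec b := hb 0
  rw [← half₁_one_eq, a1, (hs γ').2] at h0
  rw [(hs γ).2, h0]
  ring

theorem exists_n (D : CData F) (p : F) {a₁ a₂ : FundamentalGroup F p → ℂ} (h1 : IsPer D.X₁ D.Y₁ p a₁)
    (h2 : IsPer D.X₂ D.Y₂ p a₂) (k : Fin 3) : ∃ n : FundamentalGroup F p → ℂ, ∀ g h, n (g * h) = n g + n h +
      r0 * (starRingEnd ℂ) (a₂ h - w ^ (k : ℕ) * a₁ h) * (a₂ g - w ^ (k : ℕ) * a₁ g) := by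
  obtain ⟨x₀, x, hx⟩ := exists_lifts D.hX₁ D.hY₁ D.c₁ p
  obtain ⟨y₀, y, hy⟩ := exists_lifts D.hX₂ D.hY₂ D.c₂ p
  -- the function on loops
  let N : Path p p → ℂ := fun γ => Dl fun t => uu D k (γ t) (x γ t) (y γ t)
  have on : ∀ (γ : Path p p) (t : unitInterval), On D (γ t) (x γ t) (y γ t) := fun γ t =>
    ⟨(hx γ).1 t, (hy γ).1 t⟩
  have cont : ∀ γ : Path p p, Continuous fun t => uu D k (γ t) (x γ t) (y γ t) := fun γ =>
    uu_cont D k γ.continuous (x γ).continuous (y γ).continuous (on γ)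
  have ne : ∀ (γ : Path p p) (t : unitInterval), uu D k (γ t) (x γ t) (y γ t) ≠ 0 := fun γ t => uu_ne D (on γ t)
  -- homotopy invariance
  have hom : ∀ γ γ' : Path p p, γ.Homotopic γ' → N γ = N γ' := by
    rintro γ γ' ⟨H⟩
    obtain ⟨S, hS, S0, S1, Sa, Sb⟩ := lift_hom D.hX₁ D.hY₁ D.c₁ hx H
    obtain ⟨T, hT, T0, T1, Ta, Tb⟩ := lift_hom D.hX₂ D.hY₂ D.c₂ hy H
    have onH : ∀ t, On D (H t) (S t) (T t) := fun t => ⟨hS t, hT t⟩
    have e := Dl_homotopy (H := fun t => uu D k (H t) (S t) (T t))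
      (uu_cont D k H.continuous S.continuous T.continuous onH) (fun t => uu_ne D (onH t))
      (fun t => by
        have : H (t, 0) = H (0, 0) := (H.source t).trans (H.source 0).symm
        rw [this, Sa t, Ta t])
      (fun t => by
        have : H (t, 1) = H (0, 1) := (H.target t).trans (H.target 0).symm
        rw [this, Sb t, Tb t])
    have e0 : (fun t => uu D k (H (0, t)) (S (0, t)) (T (0, t))) = fun t => uu D k (γ t) (x γ t) (y γ t) := by
      funext t
      have : H (0, t) = γ t := H.apply_zero t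
      rw [this, S0 t, T0 t]
    have e1 : (fun t => uu D k (H (1, t)) (S (1, t)) (T (1, t))) = fun t => uu D k (γ' t) (x γ' t) (y γ' t) := by
      funext t
      have : H (1, t) = γ' t := H.apply_one t
      rw [this, S1 t, T1 t]
    have e' : Dl (fun t => uu D k (H (0, t)) (S (0, t)) (T (0, t))) =
      Dl fun t => uu D k (H (1, t)) (S (1, t)) (T (1, t)) := e
    rw [e0, e1] at e'
    exact e'
  -- concatenation
  have tr : ∀ γ γ' : Path p p, N (γ.trans γ') = N γ + N γ' +
      r0 * (starRingEnd ℂ) ((y γ 1 - y γ 0) - w ^ (k : ℕ) * (x γ 1 - x γ 0)) *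
        ((y γ' 1 - y γ' 0) - w ^ (k : ℕ) * (x γ' 1 - x γ' 0)) := by
    intro γ γ'
    obtain ⟨xa, a, ha, xb⟩ := lift_tr hx γ γ'
    obtain ⟨ya, b, hb, yb⟩ := lift_tr hy γ γ'
    have e := Dl_trans (cont (γ.trans γ')) (ne (γ.trans γ'))
    have e0 : (fun t => uu D k ((γ.trans γ') (half₁ t)) (x (γ.trans γ') (half₁ t)) (y (γ.trans γ') (half₁ t))) =
        fun t => uu D k (γ t) (x γ t) (y γ t) := by
      funext t
      rw [trans_half₁, xa t, ya t]
    have e1 : (fun t => uu D k ((γ.trans γ') (half₂ t)) (x (γ.trans γ') (half₂ t)) (y (γ.trans γ') (half₂ t))) =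
        fun t => uu D k (γ' t) (x γ' t + ec a) (y γ' t + ec b) := by
      funext t
      rw [trans_half₂, xb t, yb t]
    rw [e0, e1] at e
    obtain ⟨ε, hε, hadd⟩ := uu_add D k a b
    have e2 := Dl_exp (u := fun t => uu D k (γ' t) (x γ' t + ec a) (y γ' t + ec b)) (cont γ') (ne γ')
      (f := fun t => r0 * ((starRingEnd ℂ) (ec b - w ^ (k : ℕ) * ec a) * (y γ' t - w ^ (k : ℕ) * x γ' t)))
      (by
        have c1 := (x γ').continuous
        have c2 := (y γ').continuous
        fun_prop) hε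
      (fun t => hadd (γ' t) (x γ' t) (y γ' t) (on γ' t))
    rw [e2] at e
    change N (γ.trans γ') = N γ + (N γ' + _) at e
    rw [e, ha, hb]
    ring
  -- the function on the group
  have surj : ∀ g : FundamentalGroup F p, ∃ γ : Path p p,
      FundamentalGroup.fromPath (Path.Homotopic.Quotient.mk γ) = g := fun g =>
    Path.Homotopic.Quotient.mk_surjective (FundamentalGroup.toPath g)
  choose ρ hρ using surj
  refine ⟨fun g => N (ρ g), fun g h => ?_⟩
  have hgh : (ρ (g * h)).Homotopic ((ρ h).trans (ρ g)) := by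
    rw [← Path.Homotopic.Quotient.eq, Path.Homotopic.Quotient.mk_trans]
    have e1 : Path.Homotopic.Quotient.mk (ρ (g * h)) = g * h := hρ (g * h)
    have e2 : Path.Homotopic.Quotient.mk (ρ g) = g := hρ g
    have e3 : Path.Homotopic.Quotient.mk (ρ h) = h := hρ h
    rw [e1, e2, e3]
    rfl
  have A1 : ∀ g, a₁ g = x (ρ g) 1 - x (ρ g) 0 := fun g => by
    have := h1 (ρ g) (x (ρ g)) (hx (ρ g)).1
    rwa [hρ g] at this
  have A2 : ∀ g, a₂ g = y (ρ g) 1 - y (ρ g) 0 := fun g => by
    have := h2 (ρ g) (y (ρ g)) (hy (ρ g)).1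
    rwa [hρ g] at this
  change N (ρ (g * h)) = N (ρ g) + N (ρ h) + _
  rw [hom _ _ hgh, tr, A1, A1, A2, A2]
  ring

end MFib
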