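import Pool.Agent.Lib.MFib.Defs
import Pool.Agent.Lib.MP_d9f52e_nt.WRel
import Pool.Agent.Lib.MP_d9f52e_nt.WSurj
import Pool.Agent.Lib.MP_d9f52e_nt.WTor

/-!
# UCov (about 280 lines): `(xx, yy) : ℂ ∖ Λ → {Y² + Y = X³}` is a covering map, the quotient by `Λ = ec(Eis)`

Library: `MPd9f52e.curve`, `xx_add`, `yy_add`, `xy_inj`, `exists_point`, `mem_LO : z ∈ LO.lattice ↔ ∃ b, ec b = z`-like, `xx`, `yy` are
`LO.weierstrassP`, `LO.derivWeierstrassP` up to constants (continuous, differentiable off the lattice: `PeriodPair.differentiableOn_weierstrassP` etc.).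
* `piE_eq_iff`: `xy_inj`, `xx_add`, `yy_add`.
* `piE` is an open map.  Let `U` be open in `Ua`, `z ∈ U`; suppose `piE z` is not in the interior of `piE '' U`: there is a sequence `P_n → piE z` in `Ea`, `P_n ∉ piE '' U` (`Ea` is metrizable).
  `P_n = piE z_n` (surjective) with `z_n` in the compact parallelogram `{s + t w : 0 ≤ s,t ≤ 1}` (translate by `Λ`).  Subsequence `z_n → z_∞` in `ℂ`.  `z_∞ ∉ Λ`: otherwise
  `|xx z_n| → ∞` (pole of `℘` at lattice points: `Pool.Agent.Lib.MP5e.wp_pole LO`, see Lib/MP_d9f52e_nt/WG3.lean), but `xx z_n → xx z`.  By continuity `piE z_∞ = piE z`, so `z_∞ = z + ec b`,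
  `z_n - ec b → z`, so `z_n - ec b ∈ U` for large `n` and `P_n = piE (z_n - ec b) ∈ piE '' U`: contradiction.
* `piE` is a quotient map (continuous, open, surjective).  The additive group `Eis` (or `LO.lattice`) acts on `Ua` by translations, continuously; `disjoint`: lattice points are discrete: ball of radius `1/4`-ish
  around `e` (nonzero lattice vectors have norm `≥ 1`).  `IsAddQuotientCoveringMap` (Mathlib/Topology/Covering/Quotient.lean), then `.isCoveringMap`.
-/

set_option autoImplicit false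

namespace MFib

open MPd9f52e Complex

/-- the plane minus the lattice -/
abbrev Ua : Type := {z : ℂ // z ∉ LO.lattice}

/-- the affine curve `Y² + Y = X³` -/
abbrev Ea : Type := {p : ℂ × ℂ // p.2 ^ 2 + p.2 = p.1 ^ 3}

/-- the uniformisation -/
noncomputable def piE (z : Ua) : Ea := ⟨(xx z, yy z), curve z.2⟩

theorem xx_continuous : Continuous fun z : Ua => xx z := by
  have h : ContinuousOn LO.weierstrassP ((LO.lattice : Set ℂ)ᶜ) :=
    LO.differentiableOn_weierstrassP.continuousOn
  have h2 : Continuous fun z : Ua => LO.weierstrassP z :=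
    h.comp_continuous continuous_subtype_val fun z => z.2
  exact h2.div_const _

theorem yy_continuous : Continuous fun z : Ua => yy z := by
  have h : ContinuousOn LO.derivWeierstrassP ((LO.lattice : Set ℂ)ᶜ) :=
    LO.differentiableOn_derivWeierstrassP.continuousOn
  have h2 : Continuous fun z : Ua => LO.derivWeierstrassP z :=
    h.comp_continuous continuous_subtype_val fun z => z.2
  exact ((h2.div_const _).sub continuous_const).div_const _

theorem piE_eq_iff {z z' : Ua} : piE z = piE z' ↔ ∃ b : Eis, (z' : ℂ) = z + ec b := by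
  constructor
  · intro h
    have h1 : xx z = xx z' := congrArg (fun p : Ea => p.1.1) h
    have h2 : yy z = yy z' := congrArg (fun p : Ea => p.1.2) h
    have h3 := xy_inj z.2 z'.2 h1 h2
    obtain ⟨b, hb⟩ := (mem_LO _).1 h3
    refine ⟨-b, ?_⟩
    rw [map_neg, hb]
    ring
  · rintro ⟨b, hb⟩
    apply Subtype.ext
    change (xx z, yy z) = (xx z', yy z')
    rw [hb, xx_add, yy_add]

theorem piE_surjective : Function.Surjective piE := by
  rintro ⟨⟨X, Y⟩, h⟩
  obtain ⟨z, hz, hx, hy⟩ := exists_point (X := X) (Y := Y) h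
  refine ⟨⟨z, hz⟩, ?_⟩
  apply Subtype.ext
  change (xx z, yy z) = (X, Y)
  rw [hx, hy]

private theorem ucov_near (z : ℂ) : ∃ b : Eis, ‖z + ec b‖ ≤ 2 := by
  have hs : 0 < Real.sqrt 3 := Real.sqrt_pos.mpr (by norm_num)
  obtain ⟨t, ht⟩ : ∃ t : ℝ, t = 2 * z.im / Real.sqrt 3 := ⟨_, rfl⟩
  obtain ⟨s, hs'⟩ : ∃ s : ℝ, s = z.re + t / 2 := ⟨_, rfl⟩
  have hz : z = (s : ℂ) + (t : ℂ) * w := by
    apply Complex.ext
    · simp [w, hs']
      ring
    · simp [w, ht]
      field_simp
  refine ⟨⟨-⌊s⌋, -⌊t⌋⟩, ?_⟩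
  have h1 : z + ec ⟨-⌊s⌋, -⌊t⌋⟩ = ((Int.fract s : ℝ) : ℂ) + ((Int.fract t : ℝ) : ℂ) * w := by
    rw [ec_eq, hz, Int.fract, Int.fract]
    push_cast
    ring
  rw [h1]
  refine (norm_add_le _ _).trans ?_
  rw [norm_mul, norm_w, mul_one, Complex.norm_real, Complex.norm_real, Real.norm_eq_abs, Real.norm_eq_abs,
    abs_of_nonneg (Int.fract_nonneg s), abs_of_nonneg (Int.fract_nonneg t)]
  linarith [Int.fract_lt_one s, Int.fract_lt_one t]

private theorem ucov_cont : Continuous piE :=
  Continuous.subtype_mk (xx_continuous.prodMk yy_continuous) _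

private theorem ucov_add_mem {z : ℂ} (hz : z ∉ LO.lattice) (b : Eis) : z + ec b ∉ LO.lattice := fun h =>
  hz (by simpa using sub_mem h (ec_mem b))

private theorem ucov_piE_add (z : Ua) (b : Eis) : piE ⟨z + ec b, ucov_add_mem z.2 b⟩ = piE z :=
  (piE_eq_iff.2 ⟨b, rfl⟩).symm

private theorem ucov_closed {S : Set Ea} (hS : IsClosed (piE ⁻¹' S)) : IsClosed S := by
  rw [isClosed_iff_clusterPt]
  intro P hP
  rw [← mem_closure_iff_clusterPt, mem_closure_iff_seq_limit] at hP
  obtain ⟨p, hp, hlim⟩ := hP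
  have hz : ∀ n, ∃ z : Ua, piE z = p n ∧ ‖(z : ℂ)‖ ≤ 2 := by
    intro n
    obtain ⟨z, hz⟩ := piE_surjective (p n)
    obtain ⟨b, hb⟩ := ucov_near z
    exact ⟨⟨z + ec b, ucov_add_mem z.2 b⟩, by rw [ucov_piE_add, hz], hb⟩
  choose z hz hz2 using hz
  obtain ⟨u, hu, φ, hφ, hl⟩ := (isCompact_closedBall (0 : ℂ) 2).tendsto_subseq
    (x := fun n => (z n : ℂ)) (fun n => by simpa using hz2 n)
  have hlim2 : Filter.Tendsto (fun n => p (φ n)) Filter.atTop (nhds P) := hlim.comp hφ.tendsto_atTop
  have hX : Filter.Tendsto (fun n => xx (z (φ n))) Filter.atTop (nhds P.1.1) := by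
    have h1 : Filter.Tendsto (fun n => (p (φ n)).1.1) Filter.atTop (nhds P.1.1) :=
      ((continuous_fst.comp continuous_subtype_val).tendsto P).comp hlim2
    refine h1.congr fun n => ?_
    rw [← hz]
    rfl
  have hu' : u ∉ LO.lattice := by
    intro hmem
    have h1 := Pool.Agent.Lib.MP5e.wp_pole LO hmem
    have h2 : Filter.Tendsto (fun n => (z (φ n) : ℂ)) Filter.atTop (nhdsWithin u {u}ᶜ) := by
      rw [tendsto_nhdsWithin_iff]
      refine ⟨hl, Filter.Eventually.of_forall fun n => ?_⟩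
      intro h
      exact (z (φ n)).2 (by rw [Set.mem_singleton_iff.1 h]; exact hmem)
    have h3 := h1.comp h2
    have h4 : Filter.Tendsto (fun n => ‖LO.weierstrassP (z (φ n))‖) Filter.atTop
        (nhds ‖Om ^ 2 * P.1.1‖) := by
      have h5 : Filter.Tendsto (fun n => ‖Om ^ 2 * xx (z (φ n))‖) Filter.atTop
          (nhds ‖Om ^ 2 * P.1.1‖) := (hX.const_mul _).norm
      refine h5.congr fun n => ?_
      unfold xx
      rw [mul_div_cancel₀ _ (pow_ne_zero 2 Om_ne_zero)]
    exact not_tendsto_nhds_of_tendsto_atTop h3 _ h4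
  have hl2 : Filter.Tendsto (fun n => z (φ n)) Filter.atTop (nhds (⟨u, hu'⟩ : Ua)) :=
    tendsto_subtype_rng.2 hl
  have h6 : (⟨u, hu'⟩ : Ua) ∈ piE ⁻¹' S :=
    hS.mem_of_tendsto hl2 (Filter.Eventually.of_forall fun n => by
      change piE _ ∈ S
      rw [hz]
      exact hp _)
  have h7 : Filter.Tendsto (fun n => piE (z (φ n))) Filter.atTop (nhds (piE ⟨u, hu'⟩)) :=
    (ucov_cont.tendsto _).comp hl2
  have h8 : piE ⟨u, hu'⟩ = P := tendsto_nhds_unique h7 (hlim2.congr fun n => (hz _).symm)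
  rw [← h8]
  exact h6

private theorem ucov_quot : Topology.IsQuotientMap piE :=
  Topology.isQuotientMap_iff_isClosed.2 ⟨piE_surjective, fun _ =>
    ⟨fun h => h.preimage ucov_cont, ucov_closed⟩⟩

@[reducible] private noncomputable def ucovAct : AddAction Eis Ua where
  vadd b z := ⟨z + ec b, ucov_add_mem z.2 b⟩
  zero_vadd z := by
    apply Subtype.ext
    change (z : ℂ) + ec 0 = z
    rw [map_zero, add_zero]
  add_vadd b c z := by
    apply Subtype.ext
    change (z : ℂ) + ec (b + c) = (z + ec c) + ec b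
    rw [map_add]
    ring

theorem piE_covering : IsCoveringMap piE := by
  let _ := ucovAct
  have hv : ∀ (b : Eis) (z : Ua), ((b +ᵥ z : Ua) : ℂ) = z + ec b := fun _ _ => rfl
  have hq : IsAddQuotientCoveringMap piE Eis :=
    { toIsQuotientMap := ucov_quot
      toContinuousConstVAdd := ⟨fun b => by
        refine Continuous.subtype_mk (f := fun z : Ua => (z : ℂ) + ec b) ?_ _
        exact continuous_subtype_val.add continuous_const⟩
      apply_eq_iff_mem_orbit := by
        intro e₁ e₂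
        rw [eq_comm, piE_eq_iff]
        constructor
        · rintro ⟨b, hb⟩
          exact ⟨b, Subtype.ext (by rw [hb]; rfl)⟩
        · rintro ⟨b, hb⟩
          exact ⟨b, by rw [← hb]; rfl⟩
      disjoint := by
        intro e
        refine ⟨{z : Ua | ‖(z : ℂ) - e‖ < 1 / 2}, ?_, ?_⟩
        · refine IsOpen.mem_nhds ?_ ?_
          · exact isOpen_lt ((continuous_subtype_val.sub continuous_const).norm) continuous_const
          · change ‖(e : ℂ) - e‖ < 1 / 2
            rw [sub_self, norm_zero]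
            norm_num
        · rintro g ⟨_, ⟨u, hu, rfl⟩, hgu⟩
          by_contra hg
          have h1 := one_le_norm_ec hg
          have h2 : ‖(u : ℂ) - e‖ < 1 / 2 := hu
          have h3 : ‖((u : ℂ) + ec g) - e‖ < 1 / 2 := hgu
          have h4 : ec g = ((u : ℂ) + ec g - e) - (u - e) := by ring
          have h5 : ‖ec g‖ ≤ ‖((u : ℂ) + ec g) - e‖ + ‖(u : ℂ) - e‖ := by
            conv_lhs => rw [h4]
            exact norm_sub_le _ _
          linarith }
  exact hq.isCoveringMap

end MFib
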