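import Pool.Agent.Lib.MFib.Defs
import Pool.Agent.Lib.MP_d9f52e_nt.SWp
import Pool.Agent.Lib.MP_d9f52e_nt.SQp
import Pool.Agent.Lib.MP_d9f52e_nt.WG3
import Pool.Agent.Lib.MP_d9f52e_nt.WRel

/-!
# UHex (about 280 lines): `yy z - yy u = Om⁻³ ∏_k σ(z - w^k u) / (σ(z)³ σ(u)³)`

Fix `u ∉ Λ`.  `f(z) = yy z - yy u`, `g(z) = (Om^3)⁻¹ σ(z - u) σ(z - w u) σ(z - w² u) / (σ(z)³ σ(u)³)`, `H = f - g`.
(1) `H` is `Λ`-periodic: `yy_add`; `sigma_add b`: the factor of `∏_k σ(z - w^k u)` is `ε³ exp(r0(conj b (3z - (1+w+w²)u) + 3|b|²/2))`, `1 + w + w² = 0`, the same as that of `σ(z)³`.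
(2) `H` is differentiable off `Λ` (`sigma_diff`, `sigma_eq_zero`, `yy` differentiable off `Λ`).
(3) `H(w z) = H(z)` for `z ∉ Λ`: `yy_om`, `sigma_om`: `∏_k σ(wz - w^k u) = w³ ∏_k σ(z - w^{k-1} u) = ∏_k σ(z - w^k u)` (cyclic), `σ(wz)³ = σ(z)³`.
(4) `z³ H(z) → 0` as `z → 0`: `z³ yy z → -1/Om³` (`yy = (℘'/Om³ - 1)/2`, `z³ ℘'(z) → -2`: from `℘'² = 4℘³ - g₃` and `z² ℘ → 1` one gets the square only; better: `℘' = derivWeierstrassP` has the explicit
    series `-2/z³ + holomorphic` near `0` (Mathlib PeriodPair API `derivWeierstrassPExcept` or the library's lemmas) and `σ(z)/z → 1` (`sigma_lim`), `∏_k σ(-w^k u) = -σ(u)³` (`sigma_neg`, `sigma_om`).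
(5) So `B(z) = z² H(z)` has a removable singularity at `0` (`Complex.analyticAt_of_differentiable_on_punctured_nhds_of_isLittleO` or the limit criterion: `z B(z) → 0`): `B` analytic near `0` after changing the value at `0`;
    `B(wz) = w² B(z)`, so `B(0) = 0`; `B = z B₁`, `B₁(wz) = w B₁(z)`, `B₁(0) = 0`; `B₁ = z B₂`; `H = B₂` near `0`, `z ≠ 0`.
(6) `H` modified at the lattice points (value `B₂(0)`): `swp_liouville` (Lib/MP_d9f52e_nt/SWp.lean) gives `H` constant; at `z = u`: `f(u) = 0`, `g(u) = 0` (`σ(0) = 0`).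
See the proof of `wp_sigma` in Lib/MP_d9f52e_nt/SWp.lean for a model of the same argument.
-/

set_option autoImplicit false

namespace MFib

open MPd9f52e Complex

private lemma uh_w3 : w ^ 3 = 1 := w_pow_three

private lemma uh_w_ne : w ≠ 0 := by
  intro h
  have := w_pow_three
  rw [h] at this
  norm_num at this

private lemma uh_dslope {f : ℂ → ℂ} (hf : Differentiable ℂ f) : Differentiable ℂ (dslope f 0) :=
  differentiableOn_univ.1 ((Complex.differentiableOn_dslope Filter.univ_mem).2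
    hf.differentiableOn)

private noncomputable def tau : ℂ → ℂ := dslope sigma 0

private lemma sigma_zero : sigma 0 = 0 := (sigma_eq_zero 0).2 (zero_mem _)

private lemma tau_of_ne {z : ℂ} (hz : z ≠ 0) : tau z = sigma z / z := by
  rw [tau, dslope_of_ne _ hz, slope_def_field, sigma_zero, sub_zero, sub_zero]

private lemma tau_diff : Differentiable ℂ tau := uh_dslope sigma_diff

private lemma tau_zero : tau 0 = 1 := by
  have h1 : Filter.Tendsto tau (nhdsWithin 0 {0}ᶜ) (nhds (tau 0)) :=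
    (tau_diff.continuous.tendsto 0).mono_left nhdsWithin_le_nhds
  have h2 : Filter.Tendsto tau (nhdsWithin 0 {0}ᶜ) (nhds 1) := by
    refine sigma_lim.congr' ?_
    filter_upwards [self_mem_nhdsWithin] with z hz
    exact (tau_of_ne hz).symm
  exact tendsto_nhds_unique h1 h2

private lemma tau_om (z : ℂ) : tau (w * z) = tau z := by
  by_cases hz : z = 0
  · rw [hz, mul_zero]
  · rw [tau_of_ne hz, tau_of_ne (mul_ne_zero uh_w_ne hz), sigma_om, mul_div_mul_left _ _ uh_w_ne]

private noncomputable def N3 (u z : ℂ) : ℂ := sigma (z - u) * sigma (z - w * u) * sigma (z - w ^ 2 * u)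

private lemma N3_diff (u : ℂ) : Differentiable ℂ (N3 u) :=
  ((sigma_diff.comp (differentiable_id.sub_const u)).mul
    (sigma_diff.comp (differentiable_id.sub_const (w * u)))).mul
    (sigma_diff.comp (differentiable_id.sub_const (w ^ 2 * u)))

private lemma N3_om (u z : ℂ) : N3 u (w * z) = N3 u z := by
  unfold N3
  have h1 : w * z - u = w * (z - w ^ 2 * u) := by linear_combination u * uh_w3
  have h2 : w * z - w * u = w * (z - u) := by ring
  have h3 : w * z - w ^ 2 * u = w * (z - w * u) := by ring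
  rw [h1, h2, h3, sigma_om, sigma_om, sigma_om]
  linear_combination (sigma (z - u) * sigma (z - w * u) * sigma (z - w ^ 2 * u)) * uh_w3

private lemma N3_zero (u : ℂ) : N3 u 0 = -sigma u ^ 3 := by
  unfold N3
  rw [zero_sub, zero_sub, zero_sub, sigma_neg, sigma_neg, sigma_neg, sigma_om,
    show w ^ 2 * u = w * (w * u) by ring, sigma_om, sigma_om]
  linear_combination (-sigma u ^ 3) * uh_w3

private noncomputable def MM (u z : ℂ) : ℂ := N3 u z + sigma u ^ 3 * tau z ^ 3

private lemma MM_diff (u : ℂ) : Differentiable ℂ (MM u) :=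
  (N3_diff u).add ((tau_diff.pow 3).const_mul _)

private lemma MM_zero (u : ℂ) : MM u 0 = 0 := by
  unfold MM
  rw [N3_zero, tau_zero]
  ring

private lemma MM_om (u z : ℂ) : MM u (w * z) = MM u z := by
  unfold MM
  rw [N3_om, tau_om]

private lemma zero_of_om {f : ℂ → ℂ} (hf : Differentiable ℂ f) {c : ℂ} (hc : c ≠ 1)
    (h : ∀ z, z ≠ 0 → f (w * z) = c * f z) : f 0 = 0 := by
  have h1 : Filter.Tendsto (fun z => f (w * z)) (nhdsWithin 0 {0}ᶜ) (nhds (f 0)) := by
    have h2 : Continuous fun z => f (w * z) := hf.continuous.comp (continuous_const.mul continuous_id)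
    have h3 := (h2.tendsto 0).mono_left (nhdsWithin_le_nhds (s := {0}ᶜ))
    simpa using h3
  have h2 : Filter.Tendsto (fun z => f (w * z)) (nhdsWithin 0 {0}ᶜ) (nhds (c * f 0)) := by
    have h3 : Filter.Tendsto (fun z => c * f z) (nhdsWithin 0 {0}ᶜ) (nhds (c * f 0)) :=
      ((hf.continuous.tendsto 0).mono_left nhdsWithin_le_nhds).const_mul c
    refine h3.congr' ?_
    filter_upwards [self_mem_nhdsWithin] with z hz
    exact (h z hz).symm
  have h3 := tendsto_nhds_unique h1 h2
  have h4 : (1 - c) * f 0 = 0 := by linear_combination h3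
  exact (mul_eq_zero.1 h4).resolve_left (sub_ne_zero.2 (Ne.symm hc))

private noncomputable def d1 (u : ℂ) : ℂ → ℂ := dslope (MM u) 0

private noncomputable def d2 (u : ℂ) : ℂ → ℂ := dslope (d1 u) 0

private noncomputable def d3 (u : ℂ) : ℂ → ℂ := dslope (d2 u) 0

private lemma d1_of_ne (u : ℂ) {z : ℂ} (hz : z ≠ 0) : d1 u z = MM u z / z := by
  rw [d1, dslope_of_ne _ hz, slope_def_field, MM_zero, sub_zero, sub_zero]

private lemma w_sq_ne : w ^ 2 ≠ 1 := by
  intro h
  have h1 : w = 1 := by linear_combination uh_w3 - w * h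
  exact w_ne_one h1

private lemma d1_zero (u : ℂ) : d1 u 0 = 0 := by
  refine zero_of_om (uh_dslope (MM_diff u)) w_sq_ne fun z hz => ?_
  rw [d1_of_ne u (mul_ne_zero uh_w_ne hz), d1_of_ne u hz, MM_om]
  have hw := uh_w_ne
  field_simp
  linear_combination (-MM u z) * uh_w3

private lemma d2_of_ne (u : ℂ) {z : ℂ} (hz : z ≠ 0) : d2 u z = MM u z / z ^ 2 := by
  rw [d2, dslope_of_ne _ hz, slope_def_field, d1_zero, sub_zero, sub_zero, d1_of_ne u hz]
  field_simp

private lemma d2_zero (u : ℂ) : d2 u 0 = 0 := by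
  refine zero_of_om (uh_dslope (uh_dslope (MM_diff u))) w_ne_one fun z hz => ?_
  rw [d2_of_ne u (mul_ne_zero uh_w_ne hz), d2_of_ne u hz, MM_om]
  have hw := uh_w_ne
  field_simp
  linear_combination (-MM u z) * uh_w3

private lemma d3_of_ne (u : ℂ) {z : ℂ} (hz : z ≠ 0) : d3 u z = MM u z / z ^ 3 := by
  rw [d3, dslope_of_ne _ hz, slope_def_field, d2_zero, sub_zero, sub_zero, d2_of_ne u hz]
  field_simp

private lemma d3_diff (u : ℂ) : Differentiable ℂ (d3 u) :=
  uh_dslope (uh_dslope (uh_dslope (MM_diff u)))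

private noncomputable def KK (u z : ℂ) : ℂ :=
  (LO.derivWeierstrassPExcept 0 z / Om ^ 3 - 1) / 2 - (Om ^ 3)⁻¹ * d3 u z / (tau z ^ 3 * sigma u ^ 3)

private noncomputable def FF (u z : ℂ) : ℂ := (Om ^ 3)⁻¹ * N3 u z / (sigma z ^ 3 * sigma u ^ 3)

private lemma KK_eq (u : ℂ) (hu : u ∉ LO.lattice) {z : ℂ} (hz : z ∉ LO.lattice) :
    yy z - FF u z = KK u z := by
  have hz0 : z ≠ 0 := fun h => hz (by rw [h]; exact zero_mem _)
  have hs : sigma z ≠ 0 := fun h => hz ((sigma_eq_zero z).1 h)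
  have hsu : sigma u ≠ 0 := fun h => hu ((sigma_eq_zero u).1 h)
  have hOm := Om_ne_zero
  have h1 := LO.derivWeierstrassPExcept_sub ⟨0, zero_mem _⟩ z
  simp only [sub_zero] at h1
  rw [yy, ← h1, KK, d3_of_ne u hz0, MM, tau_of_ne hz0, FF]
  field_simp
  ring

private lemma KK_cont (u : ℂ) (hu : u ∉ LO.lattice) : ContinuousAt (KK u) 0 := by
  have hsu : sigma u ≠ 0 := fun h => hu ((sigma_eq_zero u).1 h)
  have h1 : ContinuousAt (LO.derivWeierstrassPExcept 0) 0 :=
    (LO.analyticAt_derivWeierstrassPExcept 0).continuousAt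
  have h2 : tau 0 ^ 3 * sigma u ^ 3 ≠ 0 := by
    rw [tau_zero, one_pow, one_mul]
    exact pow_ne_zero 3 hsu
  exact (((h1.div_const _).sub continuousAt_const).div_const _).sub
    ((continuousAt_const.mul (d3_diff u).continuous.continuousAt).div
      (((tau_diff.continuous.continuousAt).pow 3).mul continuousAt_const) h2)

private lemma FF_per (u z : ℂ) (b : Eis) : FF u (z + ec b) = FF u z := by
  classical
  unfold FF N3
  rw [show z + ec b - u = (z - u) + ec b by ring, show z + ec b - w * u = (z - w * u) + ec b by ring,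
    show z + ec b - w ^ 2 * u = (z - w ^ 2 * u) + ec b by ring,
    sigma_add b (z - u), sigma_add b (z - w * u), sigma_add b (z - w ^ 2 * u), sigma_add b z]
  set e : ℂ := if (2 : Eis) ∣ b then 1 else -1 with he
  have he0 : e ≠ 0 := by
    rw [he]
    split_ifs <;> norm_num
  set c : ℂ := (starRingEnd ℂ) (ec b) with hc
  set k : ℂ := (‖ec b‖ : ℂ) ^ 2 / 2 with hk
  have h1 : Complex.exp (r0 * (c * (z - u) + k)) * Complex.exp (r0 * (c * (z - w * u) + k)) *
      Complex.exp (r0 * (c * (z - w ^ 2 * u) + k)) = Complex.exp (r0 * (c * z + k)) ^ 3 := by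
    rw [← Complex.exp_add, ← Complex.exp_add, ← Complex.exp_nat_mul]
    congr 1
    push_cast
    linear_combination (-r0 * c * u) * w_sq
  have hx := Complex.exp_ne_zero (r0 * (c * z + k))
  have h2 : (Om ^ 3)⁻¹ * (e * Complex.exp (r0 * (c * (z - u) + k)) * sigma (z - u) *
      (e * Complex.exp (r0 * (c * (z - w * u) + k)) * sigma (z - w * u)) *
      (e * Complex.exp (r0 * (c * (z - w ^ 2 * u) + k)) * sigma (z - w ^ 2 * u))) =
      (e * Complex.exp (r0 * (c * z + k))) ^ 3 * ((Om ^ 3)⁻¹ *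
        (sigma (z - u) * sigma (z - w * u) * sigma (z - w ^ 2 * u))) := by
    rw [mul_pow, ← h1]
    ring
  rw [h2, mul_pow (e * Complex.exp (r0 * (c * z + k))) (sigma z) 3, mul_assoc ((e * Complex.exp (r0 * (c * z + k))) ^ 3)
    (sigma z ^ 3) (sigma u ^ 3), mul_div_mul_left _ _ (pow_ne_zero 3 (mul_ne_zero he0 hx))]

theorem hex {z u : ℂ} (hz : z ∉ LO.lattice) (hu : u ∉ LO.lattice) :
    yy z - yy u = (Om ^ 3)⁻¹ * (sigma (z - u) * sigma (z - w * u) * sigma (z - w ^ 2 * u)) /
      (sigma z ^ 3 * sigma u ^ 3) := by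
  classical
  obtain ⟨H, hH⟩ : ∃ H : ℂ → ℂ, ∀ x, H x = if x ∈ LO.lattice then KK u 0 else
    yy x - FF u x := ⟨_, fun _ => rfl⟩
  have hHoff : ∀ x, x ∉ LO.lattice → H x = yy x - FF u x := by
    intro x hx
    rw [hH, if_neg hx]
  have hd : DifferentiableOn ℂ H ((LO.lattice : Set ℂ)ᶜ) := by
    have hsu : sigma u ≠ 0 := fun h => hu ((sigma_eq_zero u).1 h)
    have h1 : DifferentiableOn ℂ (fun x => yy x - FF u x) ((LO.lattice : Set ℂ)ᶜ) := by
      refine DifferentiableOn.sub ?_ ?_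
      · exact ((LO.differentiableOn_derivWeierstrassP.div_const _).sub_const _).div_const _
      · exact ((N3_diff u).differentiableOn.const_mul _).div
          ((sigma_diff.pow 3).differentiableOn.mul_const _) fun x hx =>
          mul_ne_zero (pow_ne_zero 3 fun h => hx ((sigma_eq_zero x).1 h)) (pow_ne_zero 3 hsu)
    exact h1.congr fun x hx => hHoff x hx
  have hper : ∀ (x : ℂ) (b : Eis), H (x + ec b) = H x := by
    intro x b
    have hiff : x + ec b ∈ LO.lattice ↔ x ∈ LO.lattice := by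
      constructor
      · intro h
        have := sub_mem h (ec_mem b)
        rwa [add_sub_cancel_right] at this
      · intro h
        exact add_mem h (ec_mem b)
    by_cases hx : x ∈ LO.lattice
    · rw [hH, hH, if_pos hx, if_pos (hiff.2 hx)]
    · rw [hHoff _ hx, hHoff _ (fun h => hx (hiff.1 h)), FF_per, yy_add]
  have hc : ContinuousAt H 0 := by
    rw [continuousAt_iff_punctured_nhds]
    have h0 : H 0 = KK u 0 := by rw [hH, if_pos (zero_mem _)]
    rw [h0]
    have h1 : Filter.Tendsto (KK u) (nhdsWithin 0 {0}ᶜ) (nhds (KK u 0)) :=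
      (KK_cont u hu).tendsto.mono_left nhdsWithin_le_nhds
    refine h1.congr' ?_
    have h2 := LO.compl_lattice_sdiff_singleton_mem_nhds 0
    filter_upwards [mem_nhdsWithin_of_mem_nhds h2, self_mem_nhdsWithin] with x hx hx0
    have hx' : x ∉ LO.lattice := fun h => hx ⟨h, hx0⟩
    rw [hHoff x hx', KK_eq u hu hx']
  have h1 := swp_liouville hd hper hc z u
  rw [hHoff z hz, hHoff u hu] at h1
  have h2 : FF u u = 0 := by
    unfold FF N3
    rw [sub_self, sigma_zero, zero_mul, zero_mul, mul_zero, zero_div]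
  rw [h2, sub_zero] at h1
  have h3 : yy z - yy u = FF u z := by linear_combination h1
  rw [h3]
  rfl

end MFib
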