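import Pool.Agent.Lib.MFib.CDefs
import Pool.Agent.Lib.MFib.UHex
import Pool.Agent.Lib.MFib.UCov

/-!
# CU (about 300 lines): the functions `u_k` are continuous, nonvanishing and quasi-periodic

Let `On D z s₁ s₂` hold.
(0) `σ(s₂ - w^j s₁) = 0` iff `s₂ - w^j s₁ ∈ Λ` iff (`X₂ z = w^j X₁ z` and `Y₂ z = Y₁ z`): `sigma_eq_zero`, `xx_om`, `yy_om` (iterated), `xy_inj`, `xx_add`, `yy_add`.  So for `j = k`: iff `p_k z = 0`.
    If it vanishes for two different `j, j' ∈ {0,1,2}` (exponents mod 3, `w^3 = 1`) then `w^j X₁ = w^j' X₁`, `X₁ ≠ 0`: contradiction.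
(1) `hex`: `Y₂ - Y₁ = (Om^3)⁻¹ ∏_j σ(s₂ - w^j s₁)/(σ(s₂)³ σ(s₁)³)`; the product over `j = k, k+1, k+2` is the same product.  With `p_k p'_k = Y₂ - Y₁`:
    if `σ(s₂ - w^{k+1}s₁) σ(s₂ - w^{k+2}s₁) ≠ 0` then `uu = p'_k Om³ σ(s₁)³ σ(s₂)³/(σ(s₂ - w^{k+1}s₁) σ(s₂ - w^{k+2}s₁))` (the second formula) ALWAYS (for `p_k ≠ 0` divide `hex` by `p_k`).
(2) `uu_ne`: `p_k ≠ 0`: `σ(s₂ - w^k s₁) ≠ 0` by (0).  `p_k = 0`: `p'_k ≠ 0`, the two other sigmas are `≠ 0` by (0), `σ(s_i) ≠ 0`.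
(3) `uu_cont`: near `t₀` with `p_k ≠ 0`: first formula, continuous.  Near `t₀` with `p_k = 0`: the two sigmas are `≠ 0` at `t₀`, so near `t₀`; second formula (by (1)), continuous.
(4) `uu_add`: `sigma_add` for `c = b - om^k * a` (`ec c = ec b - w^k ec a`): `σ(s₂ + ec b - w^k (s₁ + ec a)) = ε exp(r0(conj(ec c)(s₂ - w^k s₁) + |ec c|²/2)) σ(s₂ - w^k s₁)`.  If `p_k ≠ 0` this is it.
    If `p_k = 0`: second formula: exponents: put `A = ec a`, `B = ec b`, `A_j = B - w^j A`, `x_j = s₂ - w^j s₁`.  The factor is `exp(r0 E)` up to a constant, with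
    `E = 3 conj(A) s₁ + 3 conj(B) s₂ - conj(A_{k+1}) x_{k+1} - conj(A_{k+2}) x_{k+2}` and `∑_j conj(A_j) x_j = 3 (conj(B) s₂ + conj(A) s₁)` (expand, `conj(w^j) w^j = 1`, `∑ w^j = 0`), so `E = conj(A_k) x_k`: the same form.
    The constants: `ε` must be one constant for all `z, s₁, s₂`: both formulas have constants that depend only on `a, b, k`; they agree because `|A_0|² + |A_1|² + |A_2|² = 3|A|² + 3|B|²` and the signs: `sg(c) = 1` if `2 ∣ c` else `-1`;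
    `sg(a)^3 sg(b)^3 = ∏_j sg(b - om^j a)`: check the cases mod 2 (`Eis/2` is the field of 4 elements: if `2 ∣ a`: `sg(b)^3`; if `2 ∤ a`: if `2 ∣ b`: `-1 = (-1)^3`; both odd: exactly one `j` with `2 ∣ b - om^j a`, so
    `1 = (-1)^2`).  ALTERNATIVE avoiding this check: define `ε` through the identity: if `p_k = 0` at `z` use (1) instead: both sides of the claim are given by the second formula AND the claim at `p_k ≠ 0`..., the direct check is fine.
-/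

set_option autoImplicit false

namespace MFib

open MPd9f52e Complex

variable {F : Type*} [TopologicalSpace F] (D : CData F)

private theorem cu_w3 (j : ℕ) : w ^ (j + 3) = w ^ j := by
  rw [pow_add, w_pow_three, mul_one]

private theorem cu_w3j (j : ℕ) : w ^ j * w ^ (2 * j) = 1 := by
  rw [← pow_add, show j + 2 * j = 3 * j by ring, pow_mul, w_pow_three, one_pow]

private theorem cu_wne (j : ℕ) : w ^ j ≠ 0 := fun h => by
  have := cu_w3j j
  rw [h, zero_mul] at this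
  exact zero_ne_one this

private theorem cu_conj_w (j : ℕ) : (starRingEnd ℂ) (w ^ j) * w ^ j = 1 := by
  rw [map_pow, conj_w, ← pow_mul, mul_comm, mul_comm 2 j, mul_comm j 2]
  exact cu_w3j j

private theorem cu_prod3 (f : ℕ → ℂ) (hf : ∀ j, f (j + 3) = f j) {k : ℕ} (hk : k < 3) :
    f k * f (k + 1) * f (k + 2) = f 0 * f 1 * f 2 := by
  interval_cases k
  · rfl
  · have h := hf 0
    simp only [zero_add] at h
    simp only [Nat.reduceAdd]
    rw [h]; ring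
  · have h := hf 0
    have h1 := hf 1
    simp only [zero_add, Nat.reduceAdd] at h h1
    simp only [Nat.reduceAdd]
    rw [h, h1]; ring

private theorem cu_xx_om (j : ℕ) (z : ℂ) : xx (w ^ j * z) = w ^ j * xx z := by
  induction j with
  | zero => simp
  | succ j ih => rw [pow_succ', mul_assoc, xx_om, ih]; ring

private theorem cu_yy_om (j : ℕ) (z : ℂ) : yy (w ^ j * z) = yy z := by
  induction j with
  | zero => simp
  | succ j ih => rw [pow_succ', mul_assoc, yy_om, ih]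

private theorem cu_mem {j : ℕ} {s : ℂ} (h : s ∉ LO.lattice) : w ^ j * s ∉ LO.lattice := by
  intro h1
  obtain ⟨b, hb⟩ := (mem_LO _).1 h1
  refine h ((mem_LO _).2 ⟨om ^ (2 * j) * b, ?_⟩)
  rw [map_mul, map_pow, ec_om, hb]
  linear_combination s * cu_w3j j

private theorem cu_zero {z : F} {s₁ s₂ : ℂ} (h : On D z s₁ s₂) (j : ℕ) :
    sigma (s₂ - w ^ j * s₁) = 0 ↔ D.X₂ z = w ^ j * D.X₁ z ∧ D.Y₂ z = D.Y₁ z := by
  obtain ⟨⟨h1, hx1, hy1⟩, h2, hx2, hy2⟩ := h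
  rw [sigma_eq_zero, ← hx1, ← hx2, ← hy1, ← hy2, ← cu_xx_om]
  constructor
  · intro hm
    obtain ⟨b, hb⟩ := (mem_LO _).1 hm
    have e : s₂ = w ^ j * s₁ + ec b := by rw [hb]; ring
    rw [e, xx_add, yy_add, cu_yy_om]
    exact ⟨rfl, rfl⟩
  · rintro ⟨e1, e2⟩
    exact xy_inj h2 (cu_mem h1) e1 (by rw [cu_yy_om]; exact e2)

private theorem cu_other {z : F} {s₁ s₂ : ℂ} (h : On D z s₁ s₂) {k : ℕ}
    (hk : D.X₂ z = w ^ k * D.X₁ z) {i : ℕ} (hi : i = 1 ∨ i = 2) :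
    sigma (s₂ - w ^ (k + i) * s₁) ≠ 0 := by
  intro h0
  have h1 := ((cu_zero D h (k + i)).1 h0).1
  rw [hk] at h1
  have h2 : w ^ k = w ^ (k + i) := mul_right_cancel₀ (D.ne₁ z) h1
  have h3 : w ^ i = 1 := by
    have h4 : w ^ k * w ^ i = w ^ k * 1 := by rw [← pow_add, ← h2, mul_one]
    exact mul_left_cancel₀ (cu_wne k) h4
  rcases hi with rfl | rfl
  · rw [pow_one] at h3
    exact w_ne_one h3
  · have h4 := w_pow_three
    rw [pow_succ, h3, one_mul] at h4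
    exact w_ne_one h4

private theorem cu_sigma_ne {s : ℂ} (h : s ∉ LO.lattice) : sigma s ≠ 0 := fun h0 =>
  h ((sigma_eq_zero s).1 h0)

private theorem cu_hex {z : F} {s₁ s₂ : ℂ} (h : On D z s₁ s₂) (k : Fin 3) :
    D.p k z * D.p' k z * (Om ^ 3 * (sigma s₂ ^ 3 * sigma s₁ ^ 3)) =
      sigma (s₂ - w ^ (k : ℕ) * s₁) * sigma (s₂ - w ^ ((k : ℕ) + 1) * s₁) *
        sigma (s₂ - w ^ ((k : ℕ) + 2) * s₁) := by
  have h1 := hex h.2.1 h.1.1
  have hO := Om_ne_zero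
  have hs1 := cu_sigma_ne h.1.1
  have hs2 := cu_sigma_ne h.2.1
  rw [h.2.2.2, h.1.2.2] at h1
  rw [D.mul, h1, cu_prod3 (fun j => sigma (s₂ - w ^ j * s₁)) (fun j => by
    simp only [cu_w3]) k.2]
  simp only [pow_zero, pow_one, one_mul]
  field_simp

private theorem cu_two {z : F} {s₁ s₂ : ℂ} (h : On D z s₁ s₂) (k : Fin 3)
    (h1 : sigma (s₂ - w ^ ((k : ℕ) + 1) * s₁) ≠ 0) (h2 : sigma (s₂ - w ^ ((k : ℕ) + 2) * s₁) ≠ 0) :
    uu D k z s₁ s₂ = D.p' k z * Om ^ 3 * sigma s₁ ^ 3 * sigma s₂ ^ 3 /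
      (sigma (s₂ - w ^ ((k : ℕ) + 1) * s₁) * sigma (s₂ - w ^ ((k : ℕ) + 2) * s₁)) := by
  unfold uu
  split_ifs with hp
  · rfl
  · have h3 := cu_hex D h k
    rw [div_eq_div_iff hp (mul_ne_zero h1 h2)]
    linear_combination -h3

theorem uu_ne {k : Fin 3} {z : F} {s₁ s₂ : ℂ} (h : On D z s₁ s₂) : uu D k z s₁ s₂ ≠ 0 := by
  by_cases hp : D.p k z = 0
  · have hX := ((D.zero_iff k z).1 hp).1
    have h1 := cu_other D h hX (i := 1) (Or.inl rfl)
    have h2 := cu_other D h hX (i := 2) (Or.inr rfl)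
    rw [cu_two D h k h1 h2]
    exact div_ne_zero (mul_ne_zero (mul_ne_zero (mul_ne_zero (D.ne k z hp)
      (pow_ne_zero _ Om_ne_zero)) (pow_ne_zero _ (cu_sigma_ne h.1.1)))
      (pow_ne_zero _ (cu_sigma_ne h.2.1))) (mul_ne_zero h1 h2)
  · unfold uu
    rw [if_neg hp]
    refine div_ne_zero (fun h0 => hp ?_) hp
    exact (D.zero_iff k z).2 ((cu_zero D h k).1 h0)

theorem uu_cont {T : Type*} [TopologicalSpace T] (k : Fin 3) {z : T → F} {s₁ s₂ : T → ℂ} (hz : Continuous z)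
    (h1 : Continuous s₁) (h2 : Continuous s₂) (h : ∀ t, On D (z t) (s₁ t) (s₂ t)) :
    Continuous fun t => uu D k (z t) (s₁ t) (s₂ t) := by
  have hA : ∀ j : ℕ, Continuous fun t => sigma (s₂ t - w ^ j * s₁ t) := fun j =>
    sigma_diff.continuous.comp (h2.sub (continuous_const.mul h1))
  have hp : Continuous fun t => D.p k (z t) := (D.hp k).comp hz
  have hp' : Continuous fun t => D.p' k (z t) := (D.hp' k).comp hz
  have hs1 : Continuous fun t => sigma (s₁ t) := sigma_diff.continuous.comp h1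
  have hs2 : Continuous fun t => sigma (s₂ t) := sigma_diff.continuous.comp h2
  rw [continuous_iff_continuousAt]
  intro t₀
  by_cases h0 : D.p k (z t₀) = 0
  · have hX := ((D.zero_iff k _).1 h0).1
    have e1 := cu_other D (h t₀) hX (i := 1) (Or.inl rfl)
    have e2 := cu_other D (h t₀) hX (i := 2) (Or.inr rfl)
    have hev1 := (hA ((k : ℕ) + 1)).continuousAt.eventually_ne e1
    have hev2 := (hA ((k : ℕ) + 2)).continuousAt.eventually_ne e2
    have hc : ContinuousAt (fun t => D.p' k (z t) * Om ^ 3 * sigma (s₁ t) ^ 3 * sigma (s₂ t) ^ 3 /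
        (sigma (s₂ t - w ^ ((k : ℕ) + 1) * s₁ t) * sigma (s₂ t - w ^ ((k : ℕ) + 2) * s₁ t))) t₀ :=
      ((((hp'.mul continuous_const).mul (hs1.pow 3)).mul (hs2.pow 3)).continuousAt).div
        ((hA _).mul (hA _)).continuousAt (mul_ne_zero e1 e2)
    refine hc.congr ?_
    filter_upwards [hev1, hev2] with t ht1 ht2
    exact (cu_two D (h t) k ht1 ht2).symm
  · have hev := hp.continuousAt.eventually_ne h0
    have hc : ContinuousAt (fun t => sigma (s₂ t - w ^ (k : ℕ) * s₁ t) / D.p k (z t)) t₀ :=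
      (hA k).continuousAt.div hp.continuousAt h0
    refine hc.congr ?_
    filter_upwards [hev] with t ht
    unfold uu
    rw [if_neg ht]

open Classical in
private noncomputable def cuSg (b : Eis) : ℂ := if (2 : Eis) ∣ b then 1 else -1

private theorem cuSg_ne (b : Eis) : cuSg b ≠ 0 := by
  unfold cuSg
  split_ifs <;> norm_num

private theorem cu_two_dvd (x : Eis) : (2 : Eis) ∣ x ↔ (2 : ℤ) ∣ x.re ∧ (2 : ℤ) ∣ x.im := by
  constructor
  · rintro ⟨y, rfl⟩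
    have h : (2 : Eis) * y = y + y := two_mul y
    rw [h]
    constructor
    · rw [QuadraticAlgebra.re_add]; exact ⟨y.re, by ring⟩
    · rw [QuadraticAlgebra.im_add]; exact ⟨y.im, by ring⟩
  · rintro ⟨⟨a, ha⟩, ⟨b, hb⟩⟩
    refine ⟨⟨a, b⟩, ?_⟩
    rw [two_mul]
    apply QuadraticAlgebra.ext
    · rw [QuadraticAlgebra.re_add, ha]; ring
    · rw [QuadraticAlgebra.im_add, hb]; ring

private theorem cu_c0 (a b : Eis) : b - om ^ 0 * a = (⟨b.re - a.re, b.im - a.im⟩ : Eis) := by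
  apply QuadraticAlgebra.ext <;> simp

private theorem cu_c1 (a b : Eis) :
    b - om ^ 1 * a = (⟨b.re + a.im, b.im - (a.re - a.im)⟩ : Eis) := by
  apply QuadraticAlgebra.ext <;> simp [om] <;> ring

private theorem cu_c2 (a b : Eis) :
    b - om ^ 2 * a = (⟨b.re + (a.re - a.im), b.im + a.re⟩ : Eis) := by
  rw [om_sq]
  apply QuadraticAlgebra.ext
  · simp [om, QuadraticAlgebra.re_one, QuadraticAlgebra.im_one]; ring
  · simp [om, QuadraticAlgebra.re_one, QuadraticAlgebra.im_one]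

private theorem cu_sg (a b : Eis) : cuSg a ^ 3 * cuSg b ^ 3 =
    cuSg (b - om ^ 0 * a) * cuSg (b - om ^ 1 * a) * cuSg (b - om ^ 2 * a) := by
  unfold cuSg
  rw [cu_c0, cu_c1, cu_c2]
  simp only [cu_two_dvd]
  split_ifs <;> first | (norm_num; done) | (exfalso; omega)

private theorem cu_sgk (a b : Eis) {k : ℕ} (hk : k < 3) : cuSg a ^ 3 * cuSg b ^ 3 =
    cuSg (b - om ^ k * a) * cuSg (b - om ^ (k + 1) * a) * cuSg (b - om ^ (k + 2) * a) := by
  rw [cu_prod3 (fun j => cuSg (b - om ^ j * a)) (fun j => by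
    simp only [pow_add om j 3, om_pow_three, mul_one]) hk]
  exact cu_sg a b

/-- the factor -/
private noncomputable def cuK (b : Eis) (z : ℂ) : ℂ :=
  cuSg b * exp (r0 * ((starRingEnd ℂ) (ec b) * z + (starRingEnd ℂ) (ec b) * ec b / 2))

private theorem cuK_ne (b : Eis) (z : ℂ) : cuK b z ≠ 0 := mul_ne_zero (cuSg_ne b) (exp_ne_zero _)

private theorem cu_sigma_add (b : Eis) (z : ℂ) : sigma (z + ec b) = cuK b z * sigma z := by
  rw [sigma_add, cuK, cuSg]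
  have h : (starRingEnd ℂ) (ec b) * ec b = (‖ec b‖ : ℂ) ^ 2 := by
    rw [Complex.conj_mul']
  rw [h]

private theorem cu_ec (a b : Eis) (j : ℕ) : ec (b - om ^ j * a) = ec b - w ^ j * ec a := by
  rw [map_sub, map_mul, map_pow, ec_om]

private theorem cu_shift (a b : Eis) (j : ℕ) (s₁ s₂ : ℂ) :
    sigma (s₂ + ec b - w ^ j * (s₁ + ec a)) =
      cuK (b - om ^ j * a) (s₂ - w ^ j * s₁) * sigma (s₂ - w ^ j * s₁) := by
  rw [← cu_sigma_add, cu_ec]
  congr 1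
  ring

private theorem cu_sum (A B s₁ s₂ : ℂ) (k : ℕ) :
    (starRingEnd ℂ) (B - w ^ k * A) * (s₂ - w ^ k * s₁) +
      (starRingEnd ℂ) (B - w ^ (k + 1) * A) * (s₂ - w ^ (k + 1) * s₁) +
      (starRingEnd ℂ) (B - w ^ (k + 2) * A) * (s₂ - w ^ (k + 2) * s₁) =
    3 * ((starRingEnd ℂ) B * s₂) + 3 * ((starRingEnd ℂ) A * s₁) := by
  have h1 := cu_conj_w k
  have h2 := w_sq
  have h3 := w_pow_three
  simp only [map_sub, map_mul, pow_add, pow_one]
  have h4 : (starRingEnd ℂ) (w ^ 2) = w := by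
    rw [map_pow, conj_w, ← pow_mul]
    calc w ^ (2 * 2) = w ^ 3 * w := by ring
      _ = w := by rw [h3, one_mul]
  rw [h4, conj_w, h2]
  generalize (starRingEnd ℂ) (w ^ k) = v at h1 ⊢
  generalize w ^ k = u at h1 ⊢
  generalize (starRingEnd ℂ) A = A'
  generalize (starRingEnd ℂ) B = B'
  linear_combination (3 * A' * s₁ ) * h1 + (-2 * v * A' * u * s₁) * (h2 )

private theorem cu_K3 (a b : Eis) (s₁ s₂ : ℂ) {k : ℕ} (hk : k < 3) :
    cuK a s₁ ^ 3 * cuK b s₂ ^ 3 = cuK (b - om ^ k * a) (s₂ - w ^ k * s₁) *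
      cuK (b - om ^ (k + 1) * a) (s₂ - w ^ (k + 1) * s₁) *
      cuK (b - om ^ (k + 2) * a) (s₂ - w ^ (k + 2) * s₁) := by
  have h1 := cu_sgk a b hk
  have h2 := cu_sum (ec a) (ec b) s₁ s₂ k
  have h3 := cu_sum (ec a) (ec b) (ec a) (ec b) k
  simp only [cuK, mul_pow, ← exp_nat_mul, cu_ec]
  have h4 : ∀ x y z u v t s : ℂ, x ^ 3 * exp y * (z ^ 3 * exp u) = x ^ 3 * z ^ 3 * exp (y + u) :=
    fun x y z u v t s => by rw [exp_add]; ring
  have h5 : ∀ x y z u v t : ℂ, x * exp y * (z * exp u) * (v * exp t) =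
      x * z * v * exp (y + u + t) := fun x y z u v t => by rw [exp_add, exp_add]; ring
  rw [h4 _ _ _ _ 0 0 0, h5, h1]
  congr 2
  push_cast
  linear_combination (-(r0 : ℂ)) * h2 - (r0 : ℂ) / 2 * h3

private theorem cu_on {z : F} {s₁ s₂ : ℂ} (h : On D z s₁ s₂) (a b : Eis) :
    On D z (s₁ + ec a) (s₂ + ec b) := by
  have hm : ∀ {s : ℂ} (c : Eis), s ∉ LO.lattice → s + ec c ∉ LO.lattice := by
    intro s c hs h1
    obtain ⟨e, he⟩ := (mem_LO _).1 h1
    exact hs ((mem_LO _).2 ⟨e - c, by rw [map_sub, he]; ring⟩)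
  refine ⟨⟨hm a h.1.1, ?_, ?_⟩, hm b h.2.1, ?_, ?_⟩
  · rw [xx_add]; exact h.1.2.1
  · rw [yy_add]; exact h.1.2.2
  · rw [xx_add]; exact h.2.2.1
  · rw [yy_add]; exact h.2.2.2

theorem uu_add (k : Fin 3) (a b : Eis) : ∃ ε : ℂ, ε ≠ 0 ∧ ∀ (z : F) (s₁ s₂ : ℂ), On D z s₁ s₂ →
    uu D k z (s₁ + ec a) (s₂ + ec b) =
      ε * exp (r0 * ((starRingEnd ℂ) (ec b - w ^ (k : ℕ) * ec a) * (s₂ - w ^ (k : ℕ) * s₁))) * uu D k z s₁ s₂ := by
  refine ⟨cuSg (b - om ^ (k : ℕ) * a) * exp (r0 * ((starRingEnd ℂ) (ec b - w ^ (k : ℕ) * ec a) *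
    (ec b - w ^ (k : ℕ) * ec a) / 2)), mul_ne_zero (cuSg_ne _) (exp_ne_zero _), fun z s₁ s₂ h => ?_⟩
  have hK : cuSg (b - om ^ (k : ℕ) * a) * exp (r0 * ((starRingEnd ℂ) (ec b - w ^ (k : ℕ) * ec a) *
      (ec b - w ^ (k : ℕ) * ec a) / 2)) *
      exp (r0 * ((starRingEnd ℂ) (ec b - w ^ (k : ℕ) * ec a) * (s₂ - w ^ (k : ℕ) * s₁))) =
      cuK (b - om ^ (k : ℕ) * a) (s₂ - w ^ (k : ℕ) * s₁) := by
    rw [cuK, cu_ec, mul_assoc, ← exp_add]
    congr 2
    ring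
  rw [hK]
  have h' := cu_on D h a b
  by_cases hp : D.p k z = 0
  · have hX := ((D.zero_iff k z).1 hp).1
    have e1 := cu_other D h hX (i := 1) (Or.inl rfl)
    have e2 := cu_other D h hX (i := 2) (Or.inr rfl)
    have e1' := cu_other D h' hX (i := 1) (Or.inl rfl)
    have e2' := cu_other D h' hX (i := 2) (Or.inr rfl)
    rw [cu_two D h k e1 e2, cu_two D h' k e1' e2']
    rw [cu_shift] at e1' e2' ⊢
    rw [cu_shift, cu_sigma_add, cu_sigma_add, mul_pow, mul_pow]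
    have h3 := cu_K3 a b s₁ s₂ k.2
    rw [mul_div_assoc', div_eq_div_iff (mul_ne_zero e1' e2') (mul_ne_zero e1 e2)]
    linear_combination (D.p' k z * Om ^ 3 * sigma s₁ ^ 3 * sigma s₂ ^ 3 *
      (sigma (s₂ - w ^ ((k : ℕ) + 1) * s₁) * sigma (s₂ - w ^ ((k : ℕ) + 2) * s₁))) * h3
  · unfold uu
    rw [if_neg hp, if_neg hp, cu_shift]
    ring

end MFib
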