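import Mathlib
import Pool.Agent.Lib.MP_d9f52e_nt.Defs

/-!
# Definitions for MP_7a61d8_gt (Milnor fibres of arrangements with two multinets)

Paper: `/team-store/MP_7a61d8_paper.md`.
-/

set_option autoImplicit false

namespace MFib

open MvPolynomial

/-! ## Multinets -/

open Classical in
/-- A multinet with three classes on the arrangement of the hyperplanes `ker (α i)` (linear forms `α i` on `ℂ^l`):
the classes `c`, the multiplicities `m`, their sum `d` over a class, the set `X` of codimension 2 flats, the four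
conditions of the problem, and the normalisation `gcd m = 1`. -/
structure Multinet {ι : Type} [Fintype ι] {l : ℕ} (α : ι → Module.Dual ℂ (Fin l → ℂ)) where
  /-- the class of a hyperplane -/
  c : ι → Fin 3
  /-- the multiplicity of a hyperplane -/
  m : ι → ℕ
  /-- the sum of the multiplicities over a class -/
  d : ℕ
  /-- the base locus, a set of flats of codimension 2 -/
  X : Set (Submodule ℂ (Fin l → ℂ))
  m_pos : ∀ i, 0 < m i
  flat : ∀ Y ∈ X, ∃ i j, LinearMap.ker (α i) ≠ LinearMap.ker (α j) ∧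
    Y = LinearMap.ker (α i) ⊓ LinearMap.ker (α j)
  sum_class : ∀ a : Fin 3, ∑ i with c i = a, m i = d
  cross : ∀ i j, c i ≠ c j → LinearMap.ker (α i) ⊓ LinearMap.ker (α j) ∈ X
  sum_flat : ∀ Y ∈ X, ∀ a b : Fin 3, ∑ i with c i = a ∧ Y ≤ LinearMap.ker (α i), m i =
    ∑ i with c i = b ∧ Y ≤ LinearMap.ker (α i), m i
  conn : ∀ i j, c i = c j →
    Relation.ReflTransGen (fun k l => c k = c l ∧ LinearMap.ker (α k) ⊓ LinearMap.ker (α l) ∉ X) i j
  gcd_eq : Finset.univ.gcd m = 1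

/-- two multinets agree as unordered partitions with multiplicities -/
def Same {ι : Type} [Fintype ι] {l : ℕ} {α : ι → Module.Dual ℂ (Fin l → ℂ)} (N N' : Multinet α) : Prop :=
  (∀ i, N.m i = N'.m i) ∧ ∀ i j, N.c i = N.c j ↔ N'.c i = N'.c j

/-! ## Polynomials -/

/-- polynomials on `ℂ^l` -/
abbrev Pol (l : ℕ) := MvPolynomial (Fin l) ℂ

/-- the polynomial of a linear form -/
noncomputable def lin {l : ℕ} (α : Module.Dual ℂ (Fin l → ℂ)) : Pol l := ∑ j, C (α (Pi.single j 1)) * X j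

/-- the directional derivative -/
noncomputable def dd {l : ℕ} (v : Fin l → ℂ) (P : Pol l) : Pol l := ∑ j, C (v j) * pderiv j P

/-- the defining polynomial of the arrangement -/
noncomputable def QQ {ι : Type} [Fintype ι] {l : ℕ} (α : ι → Module.Dual ℂ (Fin l → ℂ)) : Pol l := ∏ i, lin (α i)

/-- the products `∏_{c i = a} α_i ^ m_i` -/
noncomputable def qq {ι : Type} [Fintype ι] {l : ℕ} {α : ι → Module.Dual ℂ (Fin l → ℂ)} (N : Multinet α) (a : Fin 3) :
    Pol l := ∏ i with N.c i = a, lin (α i) ^ N.m i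

/-- the Milnor fibre `Q = 1` -/
abbrev Fib {l : ℕ} (Q : Pol l) : Type := {z : Fin l → ℂ // eval z Q = 1}

/-- the pencil data: `S₀ + S₁ + S₂ = 0`, `S₀ S₁ S₂ = h³ Q`, `h ≠ 0` where `Q ≠ 0` -/
structure Pencil {l : ℕ} (Q : Pol l) where
  S : Fin 3 → Pol l
  h : Pol l
  d : ℕ
  e : ℕ
  d_pos : 0 < d
  S_hom : ∀ a, (S a).IsHomogeneous d
  h_hom : h.IsHomogeneous e
  sum : S 0 + S 1 + S 2 = 0
  prod : S 0 * S 1 * S 2 = h ^ 3 * Q
  h_ne : ∀ z, eval z Q ≠ 0 → eval z h ≠ 0

/-- the function `Y = S₀ / S₁` -/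
noncomputable def Pencil.Y {l : ℕ} {Q : Pol l} (P : Pencil Q) (z : Fin l → ℂ) : ℂ := eval z (P.S 0) / eval z (P.S 1)

/-- the function `X = - h / S₁` -/
noncomputable def Pencil.X {l : ℕ} {Q : Pol l} (P : Pencil Q) (z : Fin l → ℂ) : ℂ := -eval z P.h / eval z (P.S 1)

/-- the `j`-th coefficient of `S₁ dS₀ - S₀ dS₁` -/
noncomputable def Pencil.W {l : ℕ} {Q : Pol l} (P : Pencil Q) (j : Fin l) : Pol l :=
  P.S 1 * pderiv j (P.S 0) - P.S 0 * pderiv j (P.S 1)

/-- the pencils are independent: `d(S₀/S₁) ∧ d(S₀'/S₁') ≠ 0` -/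
def Indep {l : ℕ} {Q : Pol l} (P P' : Pencil Q) : Prop := ∃ i j, P.W i * P'.W j - P.W j * P'.W i ≠ 0

/-! ## The uniformisation of the curve `Y² + Y = X³` -/

/-- `s` lifts the path `γ` along `(xx, yy)` -/
def IsLift {F : Type*} [TopologicalSpace F] (X Y : F → ℂ) (γ : C(unitInterval, F)) (s : C(unitInterval, ℂ)) : Prop :=
  ∀ t, s t ∉ MPd9f52e.LO.lattice ∧ MPd9f52e.xx (s t) = X (γ t) ∧ MPd9f52e.yy (s t) = Y (γ t)

/-- `a` is the period function of `(X, Y)` on the fundamental group -/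
def IsPer {F : Type*} [TopologicalSpace F] (X Y : F → ℂ) (p : F) (a : FundamentalGroup F p → ℂ) : Prop :=
  ∀ (γ : Path p p) (s : C(unitInterval, ℂ)), IsLift X Y γ s →
    a (FundamentalGroup.fromPath (Path.Homotopic.Quotient.mk γ)) = s 1 - s 0

end MFib
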