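import Pool.Agent.Lib.MFib.RInd
import Pool.Agent.Lib.MFib.CFin
import Pool.Agent.Lib.MFib.T.Top
import Pool.Agent.Lib.MFib.T.Conn
import Pool.Agent.Lib.MFib.F.Key
import Pool.Agent.Lib.MFib.F.Congr

/-!
# Final assembly of MP_7a61d8_gt
-/

set_option autoImplicit false

namespace MFib

open MvPolynomial

theorem QQ_hom {ι : Type} [Fintype ι] {l : ℕ} (α : ι → Module.Dual ℂ (Fin l → ℂ)) :
    (QQ α).IsHomogeneous (Fintype.card ι) := by
  have h := IsHomogeneous.prod (Finset.univ : Finset ι) (fun i => lin (α i)) (fun _ => 1) fun i _ => lin_hom (α i)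
  simpa [QQ] using h

theorem QQ_ne_zero {ι : Type} [Fintype ι] {l : ℕ} {α : ι → Module.Dual ℂ (Fin l → ℂ)} (hα : ∀ i, α i ≠ 0) : QQ α ≠ 0 :=
  Finset.prod_ne_zero_iff.2 fun i _ => lin_ne_zero (hα i)

theorem main {ι : Type} [Fintype ι] {l : ℕ} {α : ι → Module.Dual ℂ (Fin l → ℂ)} (hα : ∀ i, α i ≠ 0)
    (hd : ∀ i j, i ≠ j → LinearMap.ker (α i) ≠ LinearMap.ker (α j)) (N N' : Multinet α) (h : ¬ Same N N')
    (h1 : ∀ i, N.m i % 3 = 1) (h2 : ∀ i, N'.m i % 3 = 1) (p : Fib (QQ α)) :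
    ¬ OneFormal (FundamentalGroup (Fib (QQ α)) p) := by
  intro hF
  have : Nonempty ι := ⟨(class_nonempty N 0).choose⟩
  have := pathConnected_fib α hα hd
  obtain ⟨P, P', hPP⟩ := exists_pencils hα hd N N' h h1 h2
  obtain ⟨z₁, hz⟩ := exists_top (QQ_hom α) Fintype.card_pos (QQ_ne_zero hα) P P' hPP
  obtain ⟨a₁, hp1, ha1, -⟩ := exists_per (pencil_X_cont P) (pencil_Y_cont P) (pencil_curve P) z₁
  obtain ⟨a₂, hp2, ha2, -⟩ := exists_per (pencil_X_cont P') (pencil_Y_cont P') (pencil_curve P') z₁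
  obtain ⟨K, hK, g, hg, haK, hag, k, hk, hak⟩ := hz a₁ a₂ ha1 ha2 hp1 hp2
  obtain ⟨c, hc⟩ := T2 P P' (indep_ne (QQ_ne_zero hα) hPP) z₁ hp1 hp2
  have hG : OneFormal (FundamentalGroup (Fib (QQ α)) z₁) :=
    hF.congr (FundamentalGroup.fundamentalGroupMulEquivOfPathConnected p z₁)
  have h3 := hG.key (b := fun x => (starRingEnd ℂ) (a₂ x)) ha1 (fun x y => by rw [ha2, map_add]) hc K hK g hg haK hag k hk
  exact hak ((map_eq_zero _).1 h3)

theorem main' {ι : Type} [Fintype ι] {l : ℕ} {α : ι → Module.Dual ℂ (Fin l → ℂ)} (hα : ∀ i, α i ≠ 0)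
    (hd : ∀ i j, i ≠ j → LinearMap.ker (α i) ≠ LinearMap.ker (α j)) (N N' : Multinet α) (h : ¬ Same N N')
    (h1 : ∀ i, N.m i % 3 = 1) (h2 : ∀ i, N'.m i % 3 = 1) (f : (Fin l → ℂ) → ℂ) (hf : f = fun z => ∏ i, α i z) :
    PathConnectedSpace {z : Fin l → ℂ // f z = 1} ∧
      ∀ p : {z : Fin l → ℂ // f z = 1}, ¬ OneFormal (FundamentalGroup {z : Fin l → ℂ // f z = 1} p) := by
  have hf' : f = fun z => eval z (QQ α) := by
    rw [hf]
    exact funext fun z => (eval_QQ α z).symm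
  subst hf'
  have : Nonempty ι := ⟨(class_nonempty N 0).choose⟩
  exact ⟨pathConnected_fib α hα hd, fun p => main hα hd N N' h h1 h2 p⟩

end MFib
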