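import Mathlib

/-!
# MP_7a61d8_gt: 1-formality of a group (definition)

Let `G` be a finitely generated group, `I` the augmentation ideal of `ℚ[G]`. The Malcev Lie algebra `m(G)` is the Lie algebra of primitive
elements of the complete Hopf algebra `lim ℚ[G] / I ^ (k + 1)`. The group `G` is 1-formal if `m(G)` is isomorphic to the degree completion of a
quadratic Lie algebra `L = Lie(X_1, …, X_n) / (R)`, `R` a space of relations `∑ i < j, r i j [X_i, X_j]`; passing to (completed) enveloping
algebras: if the complete Hopf algebra `lim ℚ[G] / I ^ (k + 1)` is isomorphic to `lim A_k`, where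
`A_k = U(L) / (degree > k) = ℚ⟨X_1, …, X_n⟩ / (∑ i j, r i j X_i X_j for r ∈ R, words of length k + 1)`
(`r` is written as an antisymmetric matrix). Such an isomorphism is the same as a compatible system of isomorphisms `ℚ[G] / I ^ (k + 1) ≅ A_k`
for which the images of the elements of `G` are group-like, i.e. exponentials of Lie elements: this is the definition `OneFormal` below.
For a space `X`, connected and with finitely generated fundamental group, 1-formal means `OneFormal (FundamentalGroup X x)`.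
-/

set_option autoImplicit false

universe u

namespace MFib

noncomputable section

/-- relations: the quadratic relations `∑ r i j X_i X_j` for `r ∈ R`, and all words of length `k + 1` -/
inductive QRel (n : ℕ) (R : Set (Matrix (Fin n) (Fin n) ℚ)) (k : ℕ) :
    FreeAlgebra ℚ (Fin n) → FreeAlgebra ℚ (Fin n) → Prop
  | quad {r : Matrix (Fin n) (Fin n) ℚ} : r ∈ R →
      QRel n R k (∑ i, ∑ j, r i j • (FreeAlgebra.ι ℚ i * FreeAlgebra.ι ℚ j)) 0
  | word (w : Fin (k + 1) → Fin n) : QRel n R k (List.ofFn fun i => FreeAlgebra.ι ℚ (w i)).prod 0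

/-- the quadratic algebra `ℚ⟨X_1, …, X_n⟩ / (∑ r i j X_i X_j, r ∈ R)` truncated in degrees `> k` -/
abbrev QAlg (n : ℕ) (R : Set (Matrix (Fin n) (Fin n) ℚ)) (k : ℕ) : Type := RingQuot (QRel n R k)

/-- the generator `X_i` -/
def gen (n : ℕ) (R : Set (Matrix (Fin n) (Fin n) ℚ)) (k : ℕ) (i : Fin n) : QAlg n R k :=
  RingQuot.mkAlgHom ℚ (QRel n R k) (FreeAlgebra.ι ℚ i)

/-- the augmentation of the group algebra -/
def augG (G : Type u) [Group G] : MonoidAlgebra ℚ G →ₐ[ℚ] ℚ := MonoidAlgebra.lift ℚ ℚ G 1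

/-- the augmentation ideal -/
def augIdeal (G : Type u) [Group G] : Submodule ℚ (MonoidAlgebra ℚ G) :=
  LinearMap.ker (augG G).toLinearMap

/-- Lie elements: the smallest subspace which contains the generators and is closed under commutators -/
inductive IsLieEl {n : ℕ} {R : Set (Matrix (Fin n) (Fin n) ℚ)} {k : ℕ} : QAlg n R k → Prop
  | gen (i : Fin n) : IsLieEl (gen n R k i)
  | zero : IsLieEl 0
  | add {x y : QAlg n R k} : IsLieEl x → IsLieEl y → IsLieEl (x + y)
  | smul (c : ℚ) {x : QAlg n R k} : IsLieEl x → IsLieEl (c • x)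
  | bracket {x y : QAlg n R k} : IsLieEl x → IsLieEl y → IsLieEl (x * y - y * x)

/-- `x` is the (truncated) exponential of a Lie element -/
def IsGrouplike {n : ℕ} {R : Set (Matrix (Fin n) (Fin n) ℚ)} {k : ℕ} (x : QAlg n R k) : Prop :=
  ∃ z : QAlg n R k, IsLieEl z ∧ x = ∑ i ∈ Finset.range (k + 1), ((i.factorial : ℚ)⁻¹) • z ^ i

/-- a group is 1-formal -/
def OneFormal (G : Type u) [Group G] : Prop :=
  ∃ (n : ℕ) (R : Set (Matrix (Fin n) (Fin n) ℚ)) (ρ : ∀ k, G →* QAlg n R k),
    (∀ r ∈ R, r.transpose = -r) ∧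
    (∀ k g, IsGrouplike (ρ k g)) ∧
    (∀ k, Function.Surjective (MonoidAlgebra.lift ℚ (QAlg n R k) G (ρ k))) ∧
    (∀ k x, MonoidAlgebra.lift ℚ (QAlg n R k) G (ρ k) x = 0 ↔ x ∈ augIdeal G ^ (k + 1)) ∧
    ∀ k, ∃ π : QAlg n R (k + 1) →ₐ[ℚ] QAlg n R k,
      (∀ i, π (gen n R (k + 1) i) = gen n R k i) ∧ ∀ g, π (ρ (k + 1) g) = ρ k g

end

end MFib
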