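import Pool.Agent.Lib.MFib.PGood

/-!
# PQ (about 250 lines): the products `q_a = ∏_{c i = a} α_i ^ m_i` of a multinet

Everything follows from unique factorisation: the `lin (α i)` are primes (`lin_prime`), `lin (α i) ∣ lin (α j)` only for `i = j`
(`ker_eq_of_dvd`, kernels pairwise distinct).
* `mn_d_pos`: `ι` is nonempty (`gcd` of the empty family is `0 ≠ 1`), so some class has positive sum, `d > 0`.
* `qq_hom`: `IsHomogeneous.prod`, `IsHomogeneous.pow`, `sum_class`.
* `class_nonempty`: `sum_class` and `d > 0`.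
* `qq_relprime`: a prime dividing both divides `lin (α i)`, `lin (α j)` with `c i = a ≠ b = c j`, hence is associated to both.
  (`WfDvdMonoid.isRelPrime_of_no_irreducible_factors` or similar.)
* `mult_qq`: write `q_a = lin (α i) ^ m_i * rest`, `lin (α i)` does not divide the rest.
* `eval_dd_qq`: logarithmic derivative: induction over the Finset with `dd_mul`, `dd_pow`, `dd_lin`, `eval_lin`.
* `qq_prod`: `q_0 q_1 q_2 = ∏ i, lin (α i) ^ m_i` (`Finset.prod_fiberwise` and `Fin.prod_univ_three`).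
-/

set_option autoImplicit false

namespace MFib

open MvPolynomial

variable {l : ℕ} {ι : Type} [Fintype ι] {α : ι → Module.Dual ℂ (Fin l → ℂ)}

theorem mn_d_pos (N : Multinet α) : 0 < N.d := by
  by_contra h
  have h0 : N.d = 0 := by omega
  have hempty : IsEmpty ι := ⟨fun i => by
    have h1 := N.sum_class (N.c i)
    rw [h0] at h1
    have h2 := (Finset.sum_eq_zero_iff.1 h1) i (by simp)
    exact absurd h2 (N.m_pos i).ne'⟩
  have h2 := N.gcd_eq
  rw [Finset.univ_eq_empty, Finset.gcd_empty] at h2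
  exact zero_ne_one h2

theorem class_nonempty (N : Multinet α) (a : Fin 3) : ∃ i, N.c i = a := by
  by_contra h
  push Not at h
  have h1 := N.sum_class a
  rw [Finset.filter_false_of_mem (fun i _ => h i), Finset.sum_empty] at h1
  exact absurd h1.symm (mn_d_pos N).ne'

theorem qq_hom (N : Multinet α) (a : Fin 3) : (qq N a).IsHomogeneous N.d := by
  have h1 : (qq N a).IsHomogeneous (∑ i with N.c i = a, 1 * N.m i) :=
    IsHomogeneous.prod _ _ _ fun i _ => (lin_hom (α i)).pow (N.m i)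
  simp only [one_mul] at h1
  rw [N.sum_class a] at h1
  exact h1

theorem qq_ne_zero (hα : ∀ i, α i ≠ 0) (N : Multinet α) (a : Fin 3) : qq N a ≠ 0 :=
  Finset.prod_ne_zero_iff.2 fun i _ => pow_ne_zero _ (lin_ne_zero (hα i))

theorem eval_qq (N : Multinet α) (a : Fin 3) (z : Fin l → ℂ) :
    eval z (qq N a) = ∏ i with N.c i = a, α i z ^ N.m i := by
  unfold qq
  rw [map_prod]
  exact Finset.prod_congr rfl fun i _ => by rw [map_pow, eval_lin]

theorem eval_qq_ne (N : Multinet α) (a : Fin 3) {z : Fin l → ℂ} (hz : ∀ i, N.c i = a → α i z ≠ 0) :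
    eval z (qq N a) ≠ 0 := by
  rw [eval_qq]
  exact Finset.prod_ne_zero_iff.2 fun i hi => pow_ne_zero _ (hz i (Finset.mem_filter.1 hi).2)

theorem lin_dvd_qq (hα : ∀ i, α i ≠ 0) (hd : ∀ i j, i ≠ j → LinearMap.ker (α i) ≠ LinearMap.ker (α j)) (N : Multinet α)
    (a : Fin 3) (i : ι) : lin (α i) ∣ qq N a ↔ N.c i = a := by
  constructor
  · intro h
    obtain ⟨j, hj, h1⟩ := (lin_prime (hα i)).exists_mem_finset_dvd h
    have h2 := (lin_prime (hα i)).dvd_of_dvd_pow h1
    have h3 := ker_eq_of_dvd (hα i) (hα j) h2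
    have h4 : i = j := by
      by_contra hij
      exact hd i j hij h3
    rw [h4]
    exact (Finset.mem_filter.1 hj).2
  · intro h
    refine (dvd_pow_self _ (N.m_pos i).ne').trans ?_
    exact Finset.dvd_prod_of_mem (fun i => lin (α i) ^ N.m i) (Finset.mem_filter.2 ⟨Finset.mem_univ i, h⟩)

theorem irr_dvd_qq (hα : ∀ i, α i ≠ 0) (N : Multinet α) (a : Fin 3) {p : Pol l} (hp : Irreducible p) (h : p ∣ qq N a) :
    ∃ i, N.c i = a ∧ Associated p (lin (α i)) := by
  obtain ⟨j, hj, h1⟩ := hp.prime.exists_mem_finset_dvd h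
  have h2 := hp.prime.dvd_of_dvd_pow h1
  exact ⟨j, (Finset.mem_filter.1 hj).2, hp.associated_of_dvd (lin_prime (hα j)).irreducible h2⟩

theorem mult_qq (hα : ∀ i, α i ≠ 0) (hd : ∀ i j, i ≠ j → LinearMap.ker (α i) ≠ LinearMap.ker (α j)) (N : Multinet α)
    (i : ι) : ∃ R, qq N (N.c i) = lin (α i) ^ N.m i * R ∧ ¬ lin (α i) ∣ R := by
  classical
  refine ⟨∏ j ∈ (Finset.univ.filter fun j => N.c j = N.c i).erase i, lin (α j) ^ N.m j, ?_, ?_⟩
  · exact (Finset.mul_prod_erase (Finset.univ.filter fun j => N.c j = N.c i) (fun j => lin (α j) ^ N.m j)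
      (a := i) (Finset.mem_filter.2 ⟨Finset.mem_univ i, rfl⟩)).symm
  · intro h
    obtain ⟨j, hj, h1⟩ := (lin_prime (hα i)).exists_mem_finset_dvd h
    have h2 := (lin_prime (hα i)).dvd_of_dvd_pow h1
    exact hd i j (Finset.ne_of_mem_erase hj).symm (ker_eq_of_dvd (hα i) (hα j) h2)

theorem qq_relprime (hα : ∀ i, α i ≠ 0) (hd : ∀ i j, i ≠ j → LinearMap.ker (α i) ≠ LinearMap.ker (α j)) (N : Multinet α)
    {a b : Fin 3} (h : a ≠ b) : IsRelPrime (qq N a) (qq N b) := by
  refine WfDvdMonoid.isRelPrime_of_no_irreducible_factors (fun h0 => qq_ne_zero hα N a h0.1) ?_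
  intro p hp hpa hpb
  obtain ⟨i, hi, h1⟩ := irr_dvd_qq hα N a hp hpa
  obtain ⟨j, hj, h2⟩ := irr_dvd_qq hα N b hp hpb
  have h3 : lin (α i) ∣ lin (α j) := (h1.symm.trans h2).dvd
  have h4 : i = j := by
    by_contra hij
    exact hd i j hij (ker_eq_of_dvd (hα i) (hα j) h3)
  rw [h4] at hi
  exact h (hi.symm.trans hj)

theorem qq_prod (N : Multinet α) : qq N 0 * qq N 1 * qq N 2 = ∏ i, lin (α i) ^ N.m i := by
  have h1 := Finset.prod_fiberwise (Finset.univ : Finset ι) N.c (fun i => lin (α i) ^ N.m i)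
  rw [← h1, Fin.prod_univ_three]
  rfl

private theorem pq_dd_prod (N : Multinet α) (v : Fin l → ℂ) {z : Fin l → ℂ} (hz : ∀ i, α i z ≠ 0) (s : Finset ι) :
    eval z (dd v (∏ i ∈ s, lin (α i) ^ N.m i)) = eval z (∏ i ∈ s, lin (α i) ^ N.m i) *
      ∑ i ∈ s, (N.m i : ℂ) * (α i v / α i z) := by
  classical
  induction s using Finset.induction_on with
  | empty =>
    have h1 : (1 : Pol l) = C 1 := (map_one C).symm
    rw [Finset.prod_empty, Finset.sum_empty, mul_zero, h1, dd_C, map_zero]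
  | insert i s hi ih =>
    rw [Finset.prod_insert hi, Finset.sum_insert hi, dd_mul, map_add, map_mul, map_mul, ih, dd_pow, dd_lin, map_mul,
      map_mul, map_mul, map_pow, map_pow, eval_C, eval_C, eval_lin]
    have hm : α i z ^ N.m i = α i z ^ (N.m i - 1) * α i z := by
      rw [← pow_succ, Nat.sub_add_cancel (N.m_pos i)]
    have hzi := hz i
    rw [hm]
    field_simp

theorem eval_dd_qq (N : Multinet α) (a : Fin 3) {z : Fin l → ℂ} (hz : ∀ i, α i z ≠ 0) (v : Fin l → ℂ) :
    eval z (dd v (qq N a)) = eval z (qq N a) * la N a z v := by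
  have h1 := pq_dd_prod N v hz (Finset.univ.filter fun i => N.c i = a)
  rw [Finset.sum_filter] at h1
  exact h1

end MFib
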