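import Pool.Agent.Lib.MFib.PLurB
import Pool.Agent.Lib.MFib.PQ

/-!
# PCls (about 280 lines): connectivity: `q_a = κ (x g₀ + y g₁)^n`

Apply `lemL` to `q = qq N` (`qq_hom`, `qq_ne_zero`, `qq_relprime`, `jac_zero`): `q_a = C κ_a ∏_j (u_aj g₀ + v_aj g₁)`, `κ_a ≠ 0` (as `q_a ≠ 0`).
(1) For `i` with `c i = a`: `lin (α i) ∣ q_a` (`lin_dvd_qq`), prime, so it divides some factor: `t(i) = (u_aj, v_aj) ≠ 0` with `lin (α i) ∣ t(i)·(g₀,g₁)`.
(2) Uniqueness: if `lin (α i)` divides `s·(g₀,g₁)` and `t·(g₀,g₁)` with `s, t` not proportional (`s₁t₂ ≠ s₂t₁`), it divides `g₀` and `g₁`: contradiction.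
(3) Edge: `c i = c j = a`, `X = ker α_i ⊓ ker α_j ∉ N.X`, `i ≠ j` (if the kernels agree then `i = j`).  `good_point`: `w ∈ X`, `α_k w ≠ 0` unless `X ≤ ker α_k`.  If `X ≤ ker α_k` then `c k = a`:
   otherwise (`c k ≠ c i`, so `ker α_k ≠ ker α_i`) `ker α_i ⊓ ker α_k = X` by `flat_eq`, and `cross` gives `X ∈ N.X`.  So `q_b(w) ≠ 0` for every `b ≠ a` (`eval_qq_ne`), so
   `(g₀(w), g₁(w)) ≠ 0` (each `q_b(w)` is a product of `n ≥ 1` linear forms in it).  And `t(i)·g(w) = 0 = t(j)·g(w)` (`lin (α i)` vanishes at `w`).  So `t(i), t(j)` are both orthogonal to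
   `g(w) ≠ 0` in `ℂ²`: proportional.
(4) By `conn` (ReflTransGen induction, proportionality of nonzero vectors of `ℂ²` is transitive) all `t(i)`, `c i = a`, are proportional to `t_a := t(i_a)`, `i_a` from `class_nonempty`.
(5) A factor `F_j = u_aj g₀ + v_aj g₁` of `q_a` is nonzero, homogeneous of degree `e > 0`: not a unit; it has an irreducible factor, which divides `q_a`, so it is associated to some
   `lin (α i)`, `c i = a` (`irr_dvd_qq`), which divides `F_j`; by (2) `(u_aj, v_aj)` is proportional to `t(i)`, so to `t_a = (x, y)`: `F_j = C ρ_j (x g₀ + y g₁)`.  Product.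
-/

set_option autoImplicit false

namespace MFib

open MvPolynomial

variable {l : ℕ} {ι : Type} [Fintype ι] {α : ι → Module.Dual ℂ (Fin l → ℂ)}

private theorem not_unit_hom {g : Pol l} {e : ℕ} (he : 0 < e) (hg : g.IsHomogeneous e) (h0 : g ≠ 0) :
    ¬ IsUnit g := by
  intro hu
  have h1 := hg.totalDegree h0
  rw [MvPolynomial.isUnit_iff_totalDegree_of_isReduced] at hu
  omega

private theorem par_trans {s1 s2 k1 k2 t1 t2 : ℂ} (hk : k1 ≠ 0 ∨ k2 ≠ 0) (h1 : s1 * k2 = s2 * k1) (h2 : k1 * t2 = k2 * t1) :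
    s1 * t2 = s2 * t1 := by
  rcases hk with hk | hk
  · apply mul_left_cancel₀ hk
    linear_combination s1 * h2 + t1 * h1
  · apply mul_left_cancel₀ hk
    linear_combination t2 * h1 + s2 * h2

private theorem uniq {g₀ g₁ p : Pol l} (hp : Prime p) (hg : IsRelPrime g₀ g₁) {s1 s2 t1 t2 : ℂ}
    (hs : p ∣ C s1 * g₀ + C s2 * g₁) (ht : p ∣ C t1 * g₀ + C t2 * g₁) : s1 * t2 = s2 * t1 := by
  by_contra hne
  have hD : s1 * t2 - s2 * t1 ≠ 0 := sub_ne_zero.mpr hne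
  have hu : IsUnit (C (s1 * t2 - s2 * t1) : Pol l) := (IsUnit.mk0 _ hD).map C
  have h0 : p ∣ C (s1 * t2 - s2 * t1) * g₀ := by
    have h : C (s1 * t2 - s2 * t1) * g₀ = C t2 * (C s1 * g₀ + C s2 * g₁) - C s2 * (C t1 * g₀ + C t2 * g₁) := by
      simp only [map_sub, map_mul]
      ring
    rw [h]
    exact dvd_sub (Dvd.dvd.mul_left hs _) (Dvd.dvd.mul_left ht _)
  have h1 : p ∣ C (s1 * t2 - s2 * t1) * g₁ := by
    have h : C (s1 * t2 - s2 * t1) * g₁ = C s1 * (C t1 * g₀ + C t2 * g₁) - C t1 * (C s1 * g₀ + C s2 * g₁) := by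
      simp only [map_sub, map_mul]
      ring
    rw [h]
    exact dvd_sub (Dvd.dvd.mul_left ht _) (Dvd.dvd.mul_left hs _)
  exact hp.not_isUnit (hg ((hu.dvd_mul_left).mp h0) ((hu.dvd_mul_left).mp h1))

private theorem edge (hα : ∀ i, α i ≠ 0) (hd : ∀ i j, i ≠ j → LinearMap.ker (α i) ≠ LinearMap.ker (α j)) (N : Multinet α)
    {n : ℕ} {g₀ g₁ : Pol l} {κ : Fin 3 → ℂ} {u v : Fin 3 → Fin n → ℂ} (hn : 0 < n) (hg : IsRelPrime g₀ g₁)
    (hq : ∀ a, qq N a = C (κ a) * ∏ j, (C (u a j) * g₀ + C (v a j) * g₁)) {i j : ι} (hc : N.c i = N.c j)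
    (hX : LinearMap.ker (α i) ⊓ LinearMap.ker (α j) ∉ N.X) {s1 s2 t1 t2 : ℂ}
    (hs : lin (α i) ∣ C s1 * g₀ + C s2 * g₁) (ht : lin (α j) ∣ C t1 * g₀ + C t2 * g₁) : s1 * t2 = s2 * t1 := by
  by_cases hij : i = j
  · subst hij
    exact uniq (lin_prime (hα i)) hg hs ht
  obtain ⟨w, hwi, hwj, hwk⟩ := good_point α i j
  obtain ⟨b, hb⟩ : ∃ b : Fin 3, b ≠ N.c i := exists_ne _
  have hbq : eval w (qq N b) ≠ 0 := by
    apply eval_qq_ne
    intro k hk
    apply hwk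
    intro hle
    have hik : N.c i ≠ N.c k := by
      rw [hk]
      exact hb.symm
    have hik' : i ≠ k := by
      rintro rfl
      exact hik rfl
    have h1 := flat_eq (hα i) (hα j) (hα k) (hd i j hij) (hd i k hik') hle
    exact hX (h1 ▸ N.cross i k hik)
  have hG : eval w g₀ ≠ 0 ∨ eval w g₁ ≠ 0 := by
    by_contra hcon
    push Not at hcon
    apply hbq
    rw [hq b, map_mul, map_prod, Finset.prod_eq_zero (Finset.mem_univ (⟨0, hn⟩ : Fin n)), mul_zero]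
    rw [map_add, map_mul, map_mul, hcon.1, hcon.2, mul_zero, mul_zero, add_zero]
  have hsw : s1 * eval w g₀ + s2 * eval w g₁ = 0 := by
    obtain ⟨P, hP⟩ := hs
    have h := congrArg (eval w) hP
    rw [map_mul, eval_lin, hwi, zero_mul, map_add, map_mul, map_mul, eval_C, eval_C] at h
    exact h
  have htw : t1 * eval w g₀ + t2 * eval w g₁ = 0 := by
    obtain ⟨P, hP⟩ := ht
    have h := congrArg (eval w) hP
    rw [map_mul, eval_lin, hwj, zero_mul, map_add, map_mul, map_mul, eval_C, eval_C] at h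
    exact h
  rcases hG with hG | hG
  · apply mul_right_cancel₀ hG
    linear_combination t2 * hsw - s2 * htw
  · apply mul_right_cancel₀ hG
    linear_combination s1 * htw - t1 * hsw

private theorem chain (hα : ∀ i, α i ≠ 0) (hd : ∀ i j, i ≠ j → LinearMap.ker (α i) ≠ LinearMap.ker (α j)) (N : Multinet α)
    {n : ℕ} {g₀ g₁ : Pol l} {κ : Fin 3 → ℂ} {u v : Fin 3 → Fin n → ℂ} (hn : 0 < n) (hg : IsRelPrime g₀ g₁)
    (huv : ∀ a j, u a j ≠ 0 ∨ v a j ≠ 0)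
    (hq : ∀ a, qq N a = C (κ a) * ∏ j, (C (u a j) * g₀ + C (v a j) * g₁))
    (hex : ∀ i, ∃ j, lin (α i) ∣ C (u (N.c i) j) * g₀ + C (v (N.c i) j) * g₁) {i k : ι}
    (hR : Relation.ReflTransGen
      (fun k l => N.c k = N.c l ∧ LinearMap.ker (α k) ⊓ LinearMap.ker (α l) ∉ N.X) i k) :
    ∀ {s1 s2 t1 t2 : ℂ}, lin (α i) ∣ C s1 * g₀ + C s2 * g₁ → lin (α k) ∣ C t1 * g₀ + C t2 * g₁ →
      s1 * t2 = s2 * t1 := by
  induction hR with
  | refl =>
    intro s1 s2 t1 t2 hs ht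
    exact uniq (lin_prime (hα i)) hg hs ht
  | tail _ hbc ih =>
    intro s1 s2 t1 t2 hs ht
    rename_i b c _
    obtain ⟨j, hj⟩ := hex b
    exact par_trans (huv (N.c b) j) (ih hs hj) (edge hα hd N hn hg hq hbc.1 hbc.2 hj ht)

theorem class_pow (hα : ∀ i, α i ≠ 0) (hd : ∀ i j, i ≠ j → LinearMap.ker (α i) ≠ LinearMap.ker (α j)) (N : Multinet α)
    {n e : ℕ} {g₀ g₁ : Pol l} {κ : Fin 3 → ℂ} {u v : Fin 3 → Fin n → ℂ} (hn : 0 < n) (he : 0 < e)
    (h0 : g₀.IsHomogeneous e) (h1 : g₁.IsHomogeneous e) (hg : IsRelPrime g₀ g₁) (huv : ∀ a j, u a j ≠ 0 ∨ v a j ≠ 0)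
    (hq : ∀ a, qq N a = C (κ a) * ∏ j, (C (u a j) * g₀ + C (v a j) * g₁)) (a : Fin 3) :
    ∃ ρ x y : ℂ, ρ ≠ 0 ∧ (x ≠ 0 ∨ y ≠ 0) ∧ qq N a = C ρ * (C x * g₀ + C y * g₁) ^ n := by
  have hκ : κ a ≠ 0 := by
    intro h
    apply qq_ne_zero hα N a
    rw [hq a, h, map_zero, zero_mul]
  have hu : ∀ b, κ b ≠ 0 → IsUnit (C (κ b) : Pol l) := fun b h => (IsUnit.mk0 _ h).map C
  have hκ' : ∀ b, κ b ≠ 0 := by
    intro b h
    apply qq_ne_zero hα N b
    rw [hq b, h, map_zero, zero_mul]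
  have hex : ∀ i, ∃ j, lin (α i) ∣ C (u (N.c i) j) * g₀ + C (v (N.c i) j) * g₁ := by
    intro i
    have h1 := (lin_dvd_qq hα hd N (N.c i) i).mpr rfl
    rw [hq (N.c i), (hu _ (hκ' _)).dvd_mul_left] at h1
    obtain ⟨j, -, hj⟩ := (lin_prime (hα i)).exists_mem_finset_dvd h1
    exact ⟨j, hj⟩
  obtain ⟨i, hi⟩ := class_nonempty N a
  obtain ⟨j₀, hj₀⟩ := hex i
  have hfac : ∀ j, C (u a j) * g₀ + C (v a j) * g₁ ≠ 0 := by
    intro j hj
    apply qq_ne_zero hα N a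
    rw [hq a, Finset.prod_eq_zero (Finset.mem_univ j) hj, mul_zero]
  have hhom : ∀ j, (C (u a j) * g₀ + C (v a j) * g₁).IsHomogeneous e := by
    intro j
    have h2 : ∀ (x : ℂ) (g : Pol l), g.IsHomogeneous e → (C x * g).IsHomogeneous e := by
      intro x g hgh
      have h3 := (isHomogeneous_C (Fin l) x).mul hgh
      rwa [zero_add] at h3
    exact (h2 _ _ h0).add (h2 _ _ h1)
  have hxy := huv (N.c i) j₀
  have hpar : ∀ j, u (N.c i) j₀ * v a j = v (N.c i) j₀ * u a j := by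
    intro j
    have hnu : ¬ IsUnit (C (u a j) * g₀ + C (v a j) * g₁) := not_unit_hom he (hhom j) (hfac j)
    obtain ⟨p, hp, hpd⟩ := WfDvdMonoid.exists_irreducible_factor hnu (hfac j)
    have hpq : p ∣ qq N a := by
      have h5 : (C (u a j) * g₀ + C (v a j) * g₁) ∣ ∏ j, (C (u a j) * g₀ + C (v a j) * g₁) :=
        Finset.dvd_prod_of_mem (fun j => C (u a j) * g₀ + C (v a j) * g₁) (Finset.mem_univ j)
      rw [hq a]
      exact dvd_mul_of_dvd_right (hpd.trans h5) _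
    obtain ⟨k, hk, hass⟩ := irr_dvd_qq hα N a hp hpq
    have hkd : lin (α k) ∣ C (u a j) * g₀ + C (v a j) * g₁ := hass.symm.dvd.trans hpd
    exact chain hα hd N hn hg huv hq hex (N.conn i k (by rw [hi, hk])) hj₀ hkd
  have hρ : ∀ j, ∃ ρ : ℂ, C (u a j) * g₀ + C (v a j) * g₁ =
      C ρ * (C (u (N.c i) j₀) * g₀ + C (v (N.c i) j₀) * g₁) := by
    intro j
    have hp := hpar j
    rcases hxy with hx | hy
    · refine ⟨u a j / u (N.c i) j₀, ?_⟩
      have e1 : u a j = u a j / u (N.c i) j₀ * u (N.c i) j₀ := by field_simp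
      have e2 : v a j = u a j / u (N.c i) j₀ * v (N.c i) j₀ := by
        field_simp
        linear_combination hp
      rw [mul_add, ← mul_assoc, ← mul_assoc, ← C_mul, ← C_mul, ← e1, ← e2]
    · refine ⟨v a j / v (N.c i) j₀, ?_⟩
      have e1 : v a j = v a j / v (N.c i) j₀ * v (N.c i) j₀ := by field_simp
      have e2 : u a j = v a j / v (N.c i) j₀ * u (N.c i) j₀ := by
        field_simp
        linear_combination -hp
      rw [mul_add, ← mul_assoc, ← mul_assoc, ← C_mul, ← C_mul, ← e1, ← e2]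
  choose ρ hρ' using hρ
  refine ⟨κ a * ∏ j, ρ j, u (N.c i) j₀, v (N.c i) j₀, ?_, hxy, ?_⟩
  · refine mul_ne_zero hκ (Finset.prod_ne_zero_iff.mpr fun j _ h => ?_)
    apply hfac j
    rw [hρ' j, h, map_zero, zero_mul]
  · rw [hq a, Finset.prod_congr rfl (fun j _ => hρ' j), Finset.prod_mul_distrib, Finset.prod_const, Finset.card_univ,
      Fintype.card_fin, map_mul, map_prod, mul_assoc]

end MFib
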