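import Pool.Agent.Lib.MFib.Defs

/-!
# More definitions for part 1 (pencils) of MP_7a61d8_gt
-/

set_option autoImplicit false

namespace MFib

open MvPolynomial

/-- the determinant of `(q, d_v q, d_w q)` -/
noncomputable def jac {l : ℕ} (q : Fin 3 → Pol l) (v w : Fin l → ℂ) : Pol l :=
  q 0 * (dd v (q 1) * dd w (q 2) - dd w (q 1) * dd v (q 2)) +
    q 1 * (dd v (q 2) * dd w (q 0) - dd w (q 2) * dd v (q 0)) +
    q 2 * (dd v (q 0) * dd w (q 1) - dd w (q 0) * dd v (q 1))

/-- the logarithmic derivative of `q_a` at `z` in the direction `v` -/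
noncomputable def la {ι : Type} [Fintype ι] {l : ℕ} {α : ι → Module.Dual ℂ (Fin l → ℂ)} (N : Multinet α) (a : Fin 3)
    (z v : Fin l → ℂ) : ℂ := ∑ i, if N.c i = a then (N.m i : ℂ) * (α i v / α i z) else 0

/-- restriction of polynomials to the line `a + t b` -/
noncomputable def line {l : ℕ} (a b : Fin l → ℂ) : Pol l →ₐ[ℂ] Polynomial ℂ :=
  MvPolynomial.aeval (fun j => Polynomial.C (a j) + Polynomial.C (b j) * Polynomial.X)

/-- `C₀ = q₀ q₁' - q₁ q₀'` on the line -/
noncomputable def wr {l : ℕ} (a b : Fin l → ℂ) (q₀ q₁ : Pol l) : Polynomial ℂ :=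
  line a b q₀ * Polynomial.derivative (line a b q₁) - line a b q₁ * Polynomial.derivative (line a b q₀)

/-- a polynomial of degree at most `n` made homogeneous of degree `n`, evaluated at `(x, y)` -/
noncomputable def hz {l : ℕ} (n : ℕ) (R : Polynomial ℂ) (x y : Pol l) : Pol l :=
  ∑ k ∈ Finset.range (n + 1), C (R.coeff k) * x ^ k * y ^ (n - k)

/-- the rational function `q / q'` on the line -/
noncomputable def fb {l : ℕ} (a b : Fin l → ℂ) (q q' : Pol l) : RatFunc ℂ :=
  algebraMap (Polynomial ℂ) (RatFunc ℂ) (line a b q) / algebraMap (Polynomial ℂ) (RatFunc ℂ) (line a b q')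

/-- the rational function `q / q'` -/
noncomputable def fr {l : ℕ} (q q' : Pol l) : FractionRing (Pol l) :=
  algebraMap (Pol l) (FractionRing (Pol l)) q / algebraMap (Pol l) (FractionRing (Pol l)) q'

end MFib
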