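import Pool.Agent.Lib.MFib.PLin

/-!
# PGood (about 150 lines): generic points of flats

* `exists_generic`, `exists_on_hyper`, `good_point`: a vector space over the infinite field `ℂ` is not a finite union of
  proper subspaces (Mathlib `Subspace.biUnion_ne_univ_of_top_notMem` in GroupTheory/CosetCover.lean, applied to the submodules
  `ker (α k)` comap'ed to the subspace `X = ker (α i) ⊓ ker (α j)`, resp. `ker (α i)`), or: by induction over the finite set of `k`,
  `w + t u`, `t` outside a finite set.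
  In `exists_on_hyper` note: `ker (α i) ≤ ker (α k)` implies equality of the kernels (both hyperplanes).
* `flat_eq`: two distinct hyperplanes through `X`: dimension: `ker α ⊓ ker γ` and `ker α ⊓ ker β` both have codimension 2 and
  `ker α ⊓ ker β ≤ ker α ⊓ ker γ`.  By hand: choose `u` with `α u = 0`, `β u = 1` (kernels distinct), `u'` with `α u' = 0`, `γ u' = 1`.
  For `v` in `ker α`: `v - β v • u` lies in `ker α ⊓ ker β ≤ ker γ`, so `γ v = β v * γ u`; `γ u ≠ 0` (else `γ = 0` on `ker α`), so `γ v = 0`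
  implies `β v = 0`.
-/

set_option autoImplicit false

namespace MFib

open MvPolynomial

variable {l : ℕ} {ι : Type} [Fintype ι]

private theorem avoid {κ : Type} [Finite κ] (W : Submodule ℂ (Fin l → ℂ)) (α : κ → Module.Dual ℂ (Fin l → ℂ))
    (h : ∀ k, ¬ W ≤ LinearMap.ker (α k)) : ∃ w ∈ W, ∀ k, α k w ≠ 0 := by
  by_contra hcon
  push Not at hcon
  have hc : ⋃ k, (((LinearMap.ker (α k)).comap W.subtype : Subspace ℂ W) : Set W) = Set.univ := by
    ext ⟨w, hw⟩
    simp only [Set.mem_iUnion, SetLike.mem_coe, Submodule.mem_comap, Submodule.subtype_apply, LinearMap.mem_ker,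
      Set.mem_univ, iff_true]
    exact hcon w hw
  obtain ⟨k, hk⟩ := Subspace.exists_eq_top_of_iUnion_eq_univ hc
  apply h k
  intro w hw
  have : (⟨w, hw⟩ : W) ∈ (LinearMap.ker (α k)).comap W.subtype := by rw [hk]; trivial
  simpa using this

private theorem exists_ne_zero {β : Module.Dual ℂ (Fin l → ℂ)} (hβ : β ≠ 0) : ∃ v, β v ≠ 0 := by
  by_contra hcon
  push Not at hcon
  exact hβ (LinearMap.ext hcon)

theorem ker_eq_of_le {β γ : Module.Dual ℂ (Fin l → ℂ)} (hβ : β ≠ 0) (hγ : γ ≠ 0) (h : LinearMap.ker β ≤ LinearMap.ker γ) :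
    LinearMap.ker β = LinearMap.ker γ := by
  obtain ⟨u, hu⟩ := exists_ne_zero hβ
  have key : ∀ v, γ v = β v / β u * γ u := by
    intro v
    have h1 : v - (β v / β u) • u ∈ LinearMap.ker β := by
      simp only [LinearMap.mem_ker, map_sub, map_smul, smul_eq_mul]
      field_simp
      ring
    have h2 := h h1
    simp only [LinearMap.mem_ker, map_sub, map_smul, smul_eq_mul] at h2
    linear_combination h2
  have hγu : γ u ≠ 0 := by
    intro h0
    apply hγ
    refine LinearMap.ext fun v => ?_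
    rw [key v, h0, mul_zero, LinearMap.zero_apply]
  apply le_antisymm h
  intro v hv
  rw [LinearMap.mem_ker] at hv ⊢
  rw [key v] at hv
  rcases mul_eq_zero.1 hv with h3 | h3
  · rcases div_eq_zero_iff.1 h3 with h4 | h4
    · exact h4
    · exact absurd h4 hu
  · exact absurd h3 hγu

theorem flat_eq {β γ δ : Module.Dual ℂ (Fin l → ℂ)} (hβ : β ≠ 0) (hγ : γ ≠ 0) (hδ : δ ≠ 0)
    (h1 : LinearMap.ker β ≠ LinearMap.ker γ) (h2 : LinearMap.ker β ≠ LinearMap.ker δ)
    (h : LinearMap.ker β ⊓ LinearMap.ker γ ≤ LinearMap.ker δ) :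
    LinearMap.ker β ⊓ LinearMap.ker δ = LinearMap.ker β ⊓ LinearMap.ker γ := by
  -- a vector of ker β outside ker γ
  obtain ⟨u, hu, hγu⟩ : ∃ u ∈ LinearMap.ker β, γ u ≠ 0 := by
    by_contra hcon
    push Not at hcon
    exact h1 (ker_eq_of_le hβ hγ (fun v hv => LinearMap.mem_ker.2 (hcon v hv)))
  obtain ⟨u', hu', hδu'⟩ : ∃ u ∈ LinearMap.ker β, δ u ≠ 0 := by
    by_contra hcon
    push Not at hcon
    exact h2 (ker_eq_of_le hβ hδ (fun v hv => LinearMap.mem_ker.2 (hcon v hv)))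
  have key : ∀ v ∈ LinearMap.ker β, δ v = γ v / γ u * δ u := by
    intro v hv
    have h3 : v - (γ v / γ u) • u ∈ LinearMap.ker β ⊓ LinearMap.ker γ := by
      refine ⟨?_, ?_⟩
      · exact Submodule.sub_mem _ hv (Submodule.smul_mem _ _ hu)
      · simp only [SetLike.mem_coe, LinearMap.mem_ker, map_sub, map_smul, smul_eq_mul]
        field_simp
        ring
    have h4 := h h3
    simp only [LinearMap.mem_ker, map_sub, map_smul, smul_eq_mul] at h4
    linear_combination h4
  have hδu : δ u ≠ 0 := by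
    intro h0
    exact hδu' (by rw [key u' hu', h0, mul_zero])
  apply le_antisymm
  · rintro v ⟨hv, hv'⟩
    refine ⟨hv, ?_⟩
    simp only [SetLike.mem_coe, LinearMap.mem_ker] at hv' ⊢
    rw [key v hv] at hv'
    rcases mul_eq_zero.1 hv' with h3 | h3
    · rcases div_eq_zero_iff.1 h3 with h4 | h4
      · exact h4
      · exact absurd h4 hγu
    · exact absurd h3 hδu
  · exact le_inf inf_le_left h

theorem exists_generic {α : ι → Module.Dual ℂ (Fin l → ℂ)} (hα : ∀ i, α i ≠ 0) : ∃ z, ∀ i, α i z ≠ 0 := by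
  obtain ⟨w, -, hw⟩ := avoid (⊤ : Submodule ℂ (Fin l → ℂ)) α (fun k hk => by
    obtain ⟨v, hv⟩ := exists_ne_zero (hα k)
    exact hv (LinearMap.mem_ker.1 (hk trivial)))
  exact ⟨w, hw⟩

theorem exists_on_hyper {α : ι → Module.Dual ℂ (Fin l → ℂ)} (hα : ∀ i, α i ≠ 0) (i : ι) :
    ∃ w, α i w = 0 ∧ ∀ k, LinearMap.ker (α k) ≠ LinearMap.ker (α i) → α k w ≠ 0 := by
  obtain ⟨w, hw, hw'⟩ := avoid (κ := {k : ι // LinearMap.ker (α k) ≠ LinearMap.ker (α i)}) (LinearMap.ker (α i))
    (fun k => α k.1) (fun k hk => k.2 (ker_eq_of_le (hα i) (hα k.1) hk).symm)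
  exact ⟨w, hw, fun k hk => hw' ⟨k, hk⟩⟩

theorem good_point (α : ι → Module.Dual ℂ (Fin l → ℂ)) (i j : ι) :
    ∃ w, α i w = 0 ∧ α j w = 0 ∧
      ∀ k, ¬ LinearMap.ker (α i) ⊓ LinearMap.ker (α j) ≤ LinearMap.ker (α k) → α k w ≠ 0 := by
  obtain ⟨w, ⟨hi, hj⟩, hw'⟩ := avoid
    (κ := {k : ι // ¬ LinearMap.ker (α i) ⊓ LinearMap.ker (α j) ≤ LinearMap.ker (α k)})
    (LinearMap.ker (α i) ⊓ LinearMap.ker (α j)) (fun k => α k.1) (fun k => k.2)
  exact ⟨w, hi, hj, fun k hk => hw' ⟨k, hk⟩⟩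

end MFib
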