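import Pool.Agent.Lib.MFib.PDefs

/-!
# PLin (about 150 lines): basic lemmas on `lin`, `dd`, homogeneous polynomials

* `eval_lin`: `α z = ∑ j, z j * α (Pi.single j 1)` (`LinearMap.pi_apply_eq_sum_univ` or `map_sum`).
* `lin_hom`: sum of `C * X`.
* `lin_ne_zero`: evaluate.  `lin_prime`: `MvPolynomial.irreducible_of_totalDegree_eq_one`
  (Mathlib/RingTheory/MvPolynomial/IrreducibleQuadratic.lean), totalDegree = 1 from `lin_hom.totalDegree`; irreducible → prime (UFD).
* `ker_eq_of_dvd`: `lin β = lin α * P`, evaluation: `ker α ≤ ker β`; both kernels are hyperplanes (for `α, β ≠ 0`): equality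
  (`β = c α` from `ker α ≤ ker β`, c ≠ 0: `LinearMap.ker_le_ker_iff_range...`, or `Module.Dual` lemma `mem_span_singleton`; or by hand:
  choose `u` with `α u = 1`, `β v = β (v - α v • u) + α v * β u = α v * β u`).
* `dd` is a derivation: `pderiv` is.  `eval_euler`: Mathlib `IsHomogeneous.sum_X_mul_pderiv`, then evaluate (`eval z (dd z P) =
  ∑ z j * eval z (pderiv j P)`).
* `eval_smul_hom`: `MvPolynomial.IsHomogeneous.eval₂`/`eval_smul`-like lemma in Mathlib or via monomials.
* `eq_zero_of_generic`: `P * ∏ lin (α i)` vanishes everywhere, `MvPolynomial.funext`, integral domain.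
-/

set_option autoImplicit false

namespace MFib

open MvPolynomial

variable {l : ℕ}

theorem eval_lin (α : Module.Dual ℂ (Fin l → ℂ)) (z : Fin l → ℂ) : eval z (lin α) = α z := by
  have h1 : α z = ∑ j, z j * α (Pi.single j 1) := by
    conv_lhs => rw [← Finset.univ_sum_single z]
    rw [map_sum]
    refine Finset.sum_congr rfl fun j _ => ?_
    have h2 : (Pi.single j (z j) : Fin l → ℂ) = z j • Pi.single j 1 := by
      rw [← Pi.single_smul, smul_eq_mul, mul_one]
    rw [h2, map_smul, smul_eq_mul]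
  rw [h1, lin, map_sum]
  refine Finset.sum_congr rfl fun j _ => ?_
  rw [map_mul, eval_C, eval_X, mul_comm]

theorem lin_hom (α : Module.Dual ℂ (Fin l → ℂ)) : (lin α).IsHomogeneous 1 := by
  unfold lin
  exact IsHomogeneous.sum _ _ _ fun j _ => isHomogeneous_C_mul_X _ _

theorem lin_ne_zero {α : Module.Dual ℂ (Fin l → ℂ)} (h : α ≠ 0) : lin α ≠ 0 := by
  intro h0
  apply h
  refine LinearMap.ext fun z => ?_
  rw [← eval_lin, h0, map_zero, LinearMap.zero_apply]

theorem lin_prime {α : Module.Dual ℂ (Fin l → ℂ)} (h : α ≠ 0) : Prime (lin α) := by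
  have h0 := lin_ne_zero h
  rw [← UniqueFactorizationMonoid.irreducible_iff_prime]
  refine irreducible_of_totalDegree_eq_one ((lin_hom α).totalDegree h0) ?_
  intro x hx
  obtain ⟨m, hm⟩ := MvPolynomial.ne_zero_iff.mp h0
  rw [isUnit_iff_ne_zero]
  rintro rfl
  exact hm (zero_dvd_iff.mp (hx m))

theorem ker_eq_of_dvd {α β : Module.Dual ℂ (Fin l → ℂ)} (hα : α ≠ 0) (hβ : β ≠ 0) (h : lin α ∣ lin β) :
    LinearMap.ker α = LinearMap.ker β := by
  obtain ⟨P, hP⟩ := h
  have hev : ∀ z, β z = α z * eval z P := fun z => by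
    rw [← eval_lin, hP, map_mul, eval_lin]
  obtain ⟨u, hu⟩ : ∃ u, α u ≠ 0 := by
    by_contra hcon
    push Not at hcon
    exact hα (LinearMap.ext hcon)
  have hle : ∀ v, α v = 0 → β v = 0 := fun v hv => by rw [hev, hv, zero_mul]
  have hform : ∀ v, α u * β v = α v * β u := fun v => by
    have h1 : α (α u • v - α v • u) = 0 := by
      rw [map_sub, map_smul, map_smul, smul_eq_mul, smul_eq_mul]
      ring
    have h2 := hle _ h1
    rw [map_sub, map_smul, map_smul, smul_eq_mul, smul_eq_mul, sub_eq_zero] at h2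
    exact h2
  have hu' : β u ≠ 0 := by
    intro h0
    apply hβ
    refine LinearMap.ext fun v => ?_
    have h1 := hform v
    rw [h0, mul_zero] at h1
    exact (mul_eq_zero.mp h1).resolve_left hu
  ext v
  rw [LinearMap.mem_ker, LinearMap.mem_ker]
  constructor
  · exact hle v
  · intro h0
    have h1 := hform v
    rw [h0, mul_zero] at h1
    exact (mul_eq_zero.mp h1.symm).resolve_right hu'

theorem dd_lin (v : Fin l → ℂ) (α : Module.Dual ℂ (Fin l → ℂ)) : dd v (lin α) = C (α v) := by
  have h1 : ∀ j, pderiv j (lin α) = C (α (Pi.single j 1)) := by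
    intro j
    unfold lin
    rw [map_sum, Finset.sum_eq_single j]
    · rw [pderiv_C_mul, pderiv_X_self]
      simp
    · intro k _ hk
      rw [pderiv_C_mul, pderiv_X_of_ne hk]
      simp
    · intro hj
      exact absurd (Finset.mem_univ j) hj
  have h2 : α v = ∑ j, v j * α (Pi.single j 1) := by
    rw [← eval_lin, lin, map_sum]
    refine Finset.sum_congr rfl fun j _ => ?_
    rw [map_mul, eval_C, eval_X, mul_comm]
  unfold dd
  rw [h2, map_sum]
  refine Finset.sum_congr rfl fun j _ => ?_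
  rw [h1, C_mul]

theorem dd_add (v : Fin l → ℂ) (P R : Pol l) : dd v (P + R) = dd v P + dd v R := by
  unfold dd
  rw [← Finset.sum_add_distrib]
  refine Finset.sum_congr rfl fun j _ => ?_
  rw [map_add, mul_add]

theorem dd_mul (v : Fin l → ℂ) (P R : Pol l) : dd v (P * R) = dd v P * R + P * dd v R := by
  unfold dd
  rw [Finset.sum_mul, Finset.mul_sum, ← Finset.sum_add_distrib]
  refine Finset.sum_congr rfl fun j _ => ?_
  rw [pderiv_mul]
  ring

theorem dd_C (v : Fin l → ℂ) (x : ℂ) : dd v (C x : Pol l) = 0 := by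
  unfold dd
  refine Finset.sum_eq_zero fun j _ => ?_
  rw [pderiv_C, mul_zero]

theorem dd_pow (v : Fin l → ℂ) (P : Pol l) (n : ℕ) : dd v (P ^ n) = C (n : ℂ) * P ^ (n - 1) * dd v P := by
  induction n with
  | zero =>
    have h1 : dd v (P ^ 0) = 0 := by
      rw [pow_zero, ← C_1]
      exact dd_C v 1
    rw [h1]
    simp
  | succ n ih =>
    rw [pow_succ, dd_mul, ih]
    rcases n with _ | n
    · simp
    · simp only [Nat.add_sub_cancel]
      push_cast
      rw [C_add]
      simp only [map_add, C_1, map_natCast]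
      ring

theorem eval_dd (v z : Fin l → ℂ) (P : Pol l) : eval z (dd v P) = ∑ j, v j * eval z (pderiv j P) := by
  unfold dd
  rw [map_sum]
  refine Finset.sum_congr rfl fun j _ => ?_
  rw [map_mul, eval_C]

theorem eval_euler {P : Pol l} {d : ℕ} (h : P.IsHomogeneous d) (z : Fin l → ℂ) :
    eval z (dd z P) = d * eval z P := by
  have h1 := congrArg (eval z) h.sum_X_mul_pderiv
  rw [map_sum, nsmul_eq_mul, map_mul, map_natCast] at h1
  rw [eval_dd, ← h1]
  refine Finset.sum_congr rfl fun j _ => ?_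
  rw [map_mul, eval_X]

theorem eval_smul_hom {P : Pol l} {d : ℕ} (h : P.IsHomogeneous d) (t : ℂ) (z : Fin l → ℂ) :
    eval (t • z) P = t ^ d * eval z P := by
  rw [eval_eq', eval_eq', Finset.mul_sum]
  refine Finset.sum_congr rfl fun m hm => ?_
  have h1 : ∑ i, m i = d := by
    have h2 := h.degree_eq_sum_deg_support hm
    rw [h2]
    exact (Finset.sum_subset (Finset.subset_univ _) fun i _ hi =>
      Finsupp.notMem_support_iff.mp hi).symm
  have h3 : ∏ i, (t • z) i ^ m i = t ^ d * ∏ i, z i ^ m i := by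
    rw [← h1, ← Finset.prod_pow_eq_pow_sum, ← Finset.prod_mul_distrib]
    refine Finset.prod_congr rfl fun i _ => ?_
    rw [Pi.smul_apply, smul_eq_mul, mul_pow]
  rw [h3]
  ring

theorem eq_zero_of_generic {ι : Type} [Fintype ι] {α : ι → Module.Dual ℂ (Fin l → ℂ)} (hα : ∀ i, α i ≠ 0) {P : Pol l}
    (h : ∀ z, (∀ i, α i z ≠ 0) → eval z P = 0) : P = 0 := by
  have h1 : P * ∏ i, lin (α i) = 0 := by
    apply MvPolynomial.funext
    intro z
    rw [map_mul, map_prod, map_zero]
    by_cases hz : ∀ i, α i z ≠ 0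
    · rw [h z hz, zero_mul]
    · push Not at hz
      obtain ⟨i, hi⟩ := hz
      rw [Finset.prod_eq_zero (Finset.mem_univ i) (by rw [eval_lin, hi]), mul_zero]
  rcases mul_eq_zero.mp h1 with h2 | h2
  · exact h2
  · obtain ⟨i, -, hi⟩ := Finset.prod_eq_zero_iff.mp h2
    exact absurd hi (lin_ne_zero (hα i))

end MFib
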