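import Pool.Agent.Lib.MFib.PTheta

/-!
# PLurA (about 300 lines): Lüroth: `q_0 : q_1 : q_2 = R_0(g) : R_1(g) : R_2(g)`, `g = g₀/g₁`

`q_0` is not a constant multiple of `q_1` (relatively prime, of positive degree: else `q_0 ∣ q_1`-like, `q_1` would be a unit, but `q_1` is homogeneous
of degree `d > 0` and nonzero), so `exists_line`, `exists_theta` apply: `E = ℂ(fb, hb)` (`fb = f|line`, `hb = h|line`), `Θ : E → K`, `fb ↦ f = q_0/q_1`,
`hb ↦ h = q_2/q_1`.
(1) `E ≠ ⊥`: else `fb = C c`, `line q_0 = c line q_1`, `wr = 0`.  Mathlib `Luroth.eq_adjoin_generator : E = ℂ⟮generator E⟯`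
   (FieldTheory/RatFunc/Luroth.lean).  `γ = generator E`.
(2) `fb, hb ∈ ℂ⟮γ⟯`: `IntermediateField.mem_adjoin_simple_iff`: `fb = r(γ)/s(γ)`, `hb = r'(γ)/s'(γ)`.  `R_0 = r s'`, `R_1 = s s'`, `R_2 = r' s`: `R_1(γ) ≠ 0`,
   `fb = R_0(γ)/R_1(γ)`, `hb = R_2(γ)/R_1(γ)`; divide the three by their gcd (`ℂ[X]` is a PID: take such a triple with `R_1` of minimal degree): no common
   root.
(3) `g = Θ γ ∈ K`: `f = R_0(g)/R_1(g)`, `h = R_2(g)/R_1(g)`, `R_1(g) = Θ(R_1(γ)) ≠ 0` (`Θ` injective).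
(4) Scaling: `σ : K ≃ₐ K` induced by `z_j ↦ 2 z_j` on `Pol l`; `σ f = f`, `σ h = h` (`q_a(2z) = 2^d q_a(z)`), so `σ ∘ Θ = Θ` (two algebra maps on
   `adjoin` equal on generators) and `σ g = g`.  `g = g₀/g₁` with `g₀, g₁` relatively prime (`IsFractionRing.num/den` or `exists_reduced_fraction`).
   `σ(g₀) g₁ = g₀ σ(g₁)`: `g₀ ∣ σ(g₀)`, `g₁ ∣ σ(g₁)`; `σ` preserves the total degree, so `σ g₀ = C c g₀`, `σ g₁ = C c' g₁`, `c = c'` (if `g₀ ≠ 0`).
   Coefficientwise: `2^{|m|} coeff_m = c coeff_m`: all monomials of `g₀` (and of `g₁`) have the same degree `e`, `2^e = c`.  `g₀ ≠ 0` and `e ≥ 1` because otherwise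
   `g` is a constant and then `f` is a constant: `q_0 = c q_1`.
(5) `n = max (natDegree R_a)`: `hz n R_a g₀ g₁ = g₁^n * R_a(g₀/g₁)` in `K`; so `q_a * hz n R_b g₀ g₁ = q_b * hz n R_a g₀ g₁` for all `a, b` (from
   `q_a/q_1 = R_a(g)/R_1(g)`).  `n ≥ 1`: else `f` is a constant.
-/

set_option autoImplicit false

namespace MFib

open MvPolynomial

variable {l : ℕ}

/-- scaling of the variables by `2` -/
private noncomputable def sc (l : ℕ) : Pol l →ₐ[ℂ] Pol l := aeval fun j => C (2 : ℂ) * X j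

private theorem wt (m : Fin l →₀ ℕ) : Finsupp.weight (1 : Fin l → ℕ) m = m.degree := by
  rw [Finsupp.degree_eq_weight_one]
  rfl

private theorem coeff_sc (P : Pol l) (m : Fin l →₀ ℕ) :
    (sc l P).coeff m = 2 ^ m.degree * P.coeff m := by
  classical
  induction P using MvPolynomial.induction_on' with
  | monomial u a =>
    have h1 : sc l (monomial u a) = monomial u (2 ^ u.degree * a) := by
      unfold sc
      rw [aeval_monomial]
      have h2 : (u.prod fun i k => (C (2 : ℂ) * X i : Pol l) ^ k) =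
          C (2 ^ u.degree) * u.prod fun i k => (X i : Pol l) ^ k := by
        simp only [mul_pow]
        rw [Finsupp.prod_mul]
        congr 1
        rw [Finsupp.prod, Finset.prod_pow_eq_pow_sum, ← C_pow]
        rfl
      rw [h2, algebraMap_eq, monomial_eq, C_mul]
      ring
    rw [h1, coeff_monomial, coeff_monomial]
    split_ifs with h3
    · rw [h3]
    · rw [mul_zero]
  | add p q hp hq => rw [map_add, coeff_add, coeff_add, hp, hq, mul_add]

private theorem sc_hom {P : Pol l} {d : ℕ} (h : P.IsHomogeneous d) : sc l P = C (2 ^ d) * P := by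
  ext m
  rw [coeff_sc, coeff_C_mul]
  by_cases hm : P.coeff m = 0
  · rw [hm, mul_zero, mul_zero]
  · have h1 := h hm
    rw [wt] at h1
    rw [h1]

private theorem two_pow_inj {a b : ℕ} (h : (2 : ℂ) ^ a = 2 ^ b) : a = b := by
  have h1 : (2 : ℕ) ^ a = 2 ^ b := by exact_mod_cast h
  exact Nat.pow_right_injective le_rfl h1

private theorem hom_of_sc {P : Pol l} (h0 : P ≠ 0) {c : ℂ} (h : sc l P = C c * P) :
    ∃ e, P.IsHomogeneous e ∧ c = 2 ^ e := by
  obtain ⟨m₀, hm₀⟩ := MvPolynomial.ne_zero_iff.1 h0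
  have hc : ∀ m, P.coeff m ≠ 0 → (2 : ℂ) ^ m.degree = c := by
    intro m hm
    have h1 := congrArg (coeff m) h
    rw [coeff_sc, coeff_C_mul] at h1
    exact mul_right_cancel₀ hm h1
  refine ⟨m₀.degree, ?_, (hc m₀ hm₀).symm⟩
  intro m hm
  rw [wt]
  exact two_pow_inj ((hc m hm).trans (hc m₀ hm₀).symm)

private theorem sc_inj : Function.Injective (sc l) := by
  intro P R h
  ext m
  have h1 := congrArg (coeff m) h
  rw [coeff_sc, coeff_sc] at h1
  exact mul_left_cancel₀ (pow_ne_zero _ two_ne_zero) h1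

private theorem sc_deg (P : Pol l) : (sc l P).totalDegree = P.totalDegree := by
  have h : (sc l P).support = P.support := by
    ext m
    rw [mem_support_iff, mem_support_iff, coeff_sc]
    simp
  unfold MvPolynomial.totalDegree
  rw [h]

private theorem hom_of_dvd {P : Pol l} (h0 : P ≠ 0) (h : P ∣ sc l P) :
    ∃ e, P.IsHomogeneous e ∧ sc l P = C (2 ^ e) * P := by
  obtain ⟨w, hw⟩ := h
  have hs0 : sc l P ≠ 0 := fun h => h0 (sc_inj (by rw [h, map_zero]))
  have hw0 : w ≠ 0 := by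
    rintro rfl
    rw [mul_zero] at hw
    exact hs0 hw
  have hdeg := totalDegree_mul_of_isDomain h0 hw0
  rw [← hw, sc_deg] at hdeg
  have hw1 : w.totalDegree = 0 := by omega
  rw [totalDegree_eq_zero_iff_eq_C] at hw1
  rw [hw1, mul_comm] at hw
  obtain ⟨e, h1, h2⟩ := hom_of_sc h0 hw
  exact ⟨e, h1, by rw [hw, h2]⟩

/-- Lüroth's theorem, for an embedding `Θ` of a subfield of `ℂ(t)` -/
private theorem lur_core {K : Type} [Field K] [Algebra ℂ K] (E : IntermediateField ℂ (RatFunc ℂ))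
    (Θ : E →ₐ[ℂ] K) (x y : E) (hx : ∀ c : ℂ, Θ x ≠ algebraMap ℂ K c) (hy : Θ y ≠ 0) :
    ∃ (γ : E) (R : Fin 3 → Polynomial ℂ), (∀ c : ℂ, Θ γ ≠ algebraMap ℂ K c) ∧ (∀ a, R a ≠ 0) ∧
      (∀ a, Polynomial.aeval (Θ γ) (R a) ≠ 0) ∧ (∀ z : ℂ, ∃ a, (R a).eval z ≠ 0) ∧
      Θ x * Polynomial.aeval (Θ γ) (R 1) = Polynomial.aeval (Θ γ) (R 0) ∧
      Θ y * Polynomial.aeval (Θ γ) (R 1) = Polynomial.aeval (Θ γ) (R 2) := by
  classical
  have hΘinj : Function.Injective Θ := Θ.toRingHom.injective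
  have hE : E ≠ ⊥ := by
    intro h
    have h1 : (x : RatFunc ℂ) ∈ (⊥ : IntermediateField ℂ (RatFunc ℂ)) := h ▸ x.2
    obtain ⟨c, hc⟩ := IntermediateField.mem_bot.1 h1
    apply hx c
    have h2 : x = algebraMap ℂ E c := Subtype.ext hc.symm
    rw [h2, AlgHom.commutes]
  have hgen := RatFunc.Luroth.eq_adjoin_generator (E := E)
  have htr := RatFunc.Luroth.transcendental_generator hE
  set γ₀ := RatFunc.Luroth.generator E with hγ₀
  let γ : E := ⟨γ₀, RatFunc.Luroth.generator_mem⟩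
  have hval : ∀ P : Polynomial ℂ, ((Polynomial.aeval γ P : E) : RatFunc ℂ) =
      Polynomial.aeval γ₀ P := fun P => (Polynomial.aeval_algHom_apply E.val γ P).symm
  have hne : ∀ P : Polynomial ℂ, P ≠ 0 → Polynomial.aeval γ P ≠ 0 := by
    intro P hP h
    apply htr
    refine ⟨P, hP, ?_⟩
    rw [← hval, h]
    rfl
  have hmem : ∀ z : E, ∃ r s : Polynomial ℂ, (z : RatFunc ℂ) =
      Polynomial.aeval γ₀ r / Polynomial.aeval γ₀ s := by
    intro z
    have h1 : (z : RatFunc ℂ) ∈ IntermediateField.adjoin ℂ {γ₀} := hgen ▸ z.2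
    exact (IntermediateField.mem_adjoin_simple_iff ℂ _).1 h1
  have hrs : ∀ z : E, z ≠ 0 → ∃ r s : Polynomial ℂ, r ≠ 0 ∧ s ≠ 0 ∧
      z * Polynomial.aeval γ s = Polynomial.aeval γ r := by
    intro z hz
    obtain ⟨r, s, h1⟩ := hmem z
    have hz' : (z : RatFunc ℂ) ≠ 0 := fun h => hz (Subtype.ext h)
    have hs : Polynomial.aeval γ₀ s ≠ 0 := by
      intro h
      rw [h, div_zero] at h1
      exact hz' h1
    have hr : Polynomial.aeval γ₀ r ≠ 0 := by
      intro h
      rw [h, zero_div] at h1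
      exact hz' h1
    refine ⟨r, s, ?_, ?_, ?_⟩
    · rintro rfl
      exact hr (map_zero _)
    · rintro rfl
      exact hs (map_zero _)
    · apply Subtype.ext
      rw [hval]
      show (z : RatFunc ℂ) * ((Polynomial.aeval γ s : E) : RatFunc ℂ) = _
      rw [hval, h1, div_mul_cancel₀ _ hs]
  have hx0 : x ≠ 0 := by
    rintro rfl
    exact hx 0 (by rw [map_zero, map_zero])
  have hy0 : y ≠ 0 := by
    rintro rfl
    exact hy (map_zero _)
  obtain ⟨r, s, hr, hs, hrs1⟩ := hrs x hx0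
  obtain ⟨r', s', hr', hs', hrs2⟩ := hrs y hy0
  let R₀ : Fin 3 → Polynomial ℂ := ![r * s', s * s', r' * s]
  have hR₀ : ∀ a, R₀ a ≠ 0 := by
    intro a
    fin_cases a
    · exact mul_ne_zero hr hs'
    · exact mul_ne_zero hs hs'
    · exact mul_ne_zero hr' hs
  obtain ⟨G, hG⟩ := (IsPrincipalIdealRing.principal (Ideal.span (Set.range R₀))).principal
  have hGdvd : ∀ a, ∃ R, R₀ a = R * G := by
    intro a
    have h1 : R₀ a ∈ Ideal.span (Set.range R₀) := Ideal.subset_span ⟨a, rfl⟩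
    rw [hG] at h1
    obtain ⟨c, hc⟩ := Submodule.mem_span_singleton.1 h1
    exact ⟨c, by rw [← hc]; rfl⟩
  choose R hR using hGdvd
  have hG0 : G ≠ 0 := by
    rintro rfl
    exact hR₀ 0 (by rw [hR 0, mul_zero])
  obtain ⟨u, hu⟩ : ∃ u : Fin 3 → Polynomial ℂ, ∑ a, u a * R₀ a = G := by
    have h1 : G ∈ Ideal.span (Set.range R₀) := by
      rw [hG]
      exact Submodule.mem_span_singleton_self G
    exact (Ideal.mem_span_range_iff_exists_fun).1 h1
  have hu1 : ∑ a, u a * R a = 1 := by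
    apply mul_right_cancel₀ hG0
    rw [one_mul, Finset.sum_mul]
    nth_rewrite 2 [← hu]
    refine Finset.sum_congr rfl fun a _ => ?_
    rw [hR a, mul_assoc]
  have hR0 : ∀ a, R a ≠ 0 := by
    intro a h
    exact hR₀ a (by rw [hR a, h, zero_mul])
  have hGγ := hne G hG0
  have hΘaev : ∀ P : Polynomial ℂ, Θ (Polynomial.aeval γ P) = Polynomial.aeval (Θ γ) P :=
    fun P => (Polynomial.aeval_algHom_apply Θ γ P).symm
  refine ⟨γ, R, ?_, hR0, ?_, ?_, ?_, ?_⟩
  · intro c hc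
    rw [← Θ.commutes c] at hc
    have h1 := hΘinj hc
    have h2 := congrArg (fun z : E => (z : RatFunc ℂ)) h1
    exact RatFunc.Luroth.generator_spec hE ⟨c, h2.symm⟩
  · intro a h
    rw [← hΘaev] at h
    exact hne (R a) (hR0 a) (hΘinj (by rw [h, map_zero]))
  · intro z
    by_contra hcon
    push Not at hcon
    have h1 := congrArg (Polynomial.eval z) hu1
    rw [Polynomial.eval_finsetSum, Polynomial.eval_one] at h1
    simp only [Polynomial.eval_mul, hcon, mul_zero, Finset.sum_const_zero] at h1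
    exact zero_ne_one h1
  · rw [← hΘaev, ← hΘaev, ← map_mul]
    congr 1
    apply mul_right_cancel₀ hGγ
    rw [mul_assoc, ← map_mul, ← map_mul, ← hR 1, ← hR 0]
    show x * Polynomial.aeval γ (s * s') = Polynomial.aeval γ (r * s')
    rw [map_mul, map_mul, ← mul_assoc, hrs1]
  · rw [← hΘaev, ← hΘaev, ← map_mul]
    congr 1
    apply mul_right_cancel₀ hGγ
    rw [mul_assoc, ← map_mul, ← map_mul, ← hR 1, ← hR 2]
    show y * Polynomial.aeval γ (s * s') = Polynomial.aeval γ (r' * s)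
    rw [map_mul, map_mul, mul_comm (Polynomial.aeval γ s), ← mul_assoc, hrs2]

theorem lurA {q : Fin 3 → Pol l} {d : ℕ} (hd : 0 < d) (hq : ∀ a, (q a).IsHomogeneous d) (h0 : ∀ a, q a ≠ 0)
    (hrel : ∀ a b, a ≠ b → IsRelPrime (q a) (q b)) (hJ : ∀ v w, jac q v w = 0) :
    ∃ (n e : ℕ) (g₀ g₁ : Pol l) (R : Fin 3 → Polynomial ℂ), 0 < n ∧ 0 < e ∧ g₀.IsHomogeneous e ∧ g₁.IsHomogeneous e ∧
      g₁ ≠ 0 ∧ IsRelPrime g₀ g₁ ∧ (∀ x, ∃ a, (R a).eval x ≠ 0) ∧ (∀ a, (R a).natDegree ≤ n) ∧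
      (∃ a, (R a).natDegree = n) ∧ (∀ a, R a ≠ 0) ∧
      ∀ a b, q a * hz n (R b) g₀ g₁ = q b * hz n (R a) g₀ g₁ := by
  classical
  have hinj : Function.Injective (algebraMap (Pol l) (FractionRing (Pol l))) :=
    IsFractionRing.injective _ _
  have hAC : ∀ c : ℂ, algebraMap (Pol l) (FractionRing (Pol l)) (C c) =
      algebraMap ℂ (FractionRing (Pol l)) c := fun c => by
    rw [IsScalarTower.algebraMap_apply ℂ (Pol l) (FractionRing (Pol l)), algebraMap_eq]
  have hA0 : ∀ P : Pol l, P ≠ 0 → algebraMap (Pol l) (FractionRing (Pol l)) P ≠ 0 :=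
    fun P hP h => hP (hinj (by rw [h, map_zero]))
  -- q 0 is not a multiple of q 1
  have hnc : ∀ c : ℂ, q 0 ≠ C c * q 1 := by
    intro c hc
    have h1 : q 1 ∣ q 0 := ⟨C c, by rw [hc, mul_comm]⟩
    have h2 : IsUnit (q 1) := hrel 0 1 (by decide) h1 dvd_rfl
    have h3 := h2.map (eval (0 : Fin l → ℂ))
    have h4 : eval (0 : Fin l → ℂ) (q 1) = 0 := by
      have := eval_smul_hom (hq 1) 0 (0 : Fin l → ℂ)
      rw [zero_smul, zero_pow hd.ne', zero_mul] at this
      exact this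
    rw [h4] at h3
    exact not_isUnit_zero h3
  obtain ⟨a, b, hC⟩ := exists_line (h0 1) hnc
  obtain ⟨Θ, hΘ0, hΘ2⟩ := exists_theta hJ hC
  have hfr0 : ∀ c : ℂ, fr (q 0) (q 1) ≠ algebraMap ℂ (FractionRing (Pol l)) c := by
    intro c hc
    apply hnc c
    apply hinj
    rw [map_mul, hAC, ← hc]
    unfold fr
    rw [div_mul_cancel₀ _ (hA0 _ (h0 1))]
  have hfr2 : fr (q 2) (q 1) ≠ 0 := div_ne_zero (hA0 _ (h0 2)) (hA0 _ (h0 1))
  obtain ⟨γ, R, hγc, hR0, hRγ, hRz, hx, hy⟩ := lur_core _ Θ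
    ⟨fb a b (q 0) (q 1), IntermediateField.subset_adjoin _ _ (by simp)⟩
    ⟨fb a b (q 2) (q 1), IntermediateField.subset_adjoin _ _ (by simp)⟩
    (by rw [hΘ0]; exact hfr0) (by rw [hΘ2]; exact hfr2)
  rw [hΘ0] at hx
  rw [hΘ2] at hy
  -- scaling
  have hginj : Function.Injective
      ((IsScalarTower.toAlgHom ℂ (Pol l) (FractionRing (Pol l))).comp (sc l)) :=
    hinj.comp sc_inj
  let σ : FractionRing (Pol l) →ₐ[ℂ] FractionRing (Pol l) := IsFractionRing.liftAlgHom hginj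
  have hσ : ∀ P, σ (algebraMap _ _ P) = algebraMap (Pol l) (FractionRing (Pol l)) (sc l P) := by
    intro P
    show IsFractionRing.liftAlgHom hginj (algebraMap _ _ P) = _
    rw [IsFractionRing.liftAlgHom_apply]
    exact IsFractionRing.lift_algebraMap (A := Pol l) (K := FractionRing (Pol l))
      (g := (((IsScalarTower.toAlgHom ℂ (Pol l) (FractionRing (Pol l))).comp (sc l)) :
        Pol l →+* FractionRing (Pol l))) hginj P
  have h2d : (algebraMap ℂ (FractionRing (Pol l)) (2 ^ d)) ≠ 0 := by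
    rw [Ne, map_eq_zero]
    exact pow_ne_zero _ two_ne_zero
  have hσfr : ∀ c c' : Fin 3, σ (fr (q c) (q c')) = fr (q c) (q c') := by
    intro c c'
    unfold fr
    rw [map_div₀, hσ, hσ, sc_hom (hq c), sc_hom (hq c'), map_mul, map_mul, hAC,
      mul_div_mul_left _ _ h2d]
  have hσΘ : σ.comp Θ = Θ := by
    refine IntermediateField.adjoin_algHom_ext ℂ fun x hx => ?_
    rcases hx with rfl | hx
    · rw [AlgHom.comp_apply, hΘ0, hσfr]
    · rw [Set.mem_singleton_iff] at hx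
      subst hx
      rw [AlgHom.comp_apply, hΘ2, hσfr]
  set g := Θ γ with hg
  have hσg : σ g = g := by
    rw [hg, ← AlgHom.comp_apply, hσΘ]
  -- the fraction
  obtain ⟨g₀, ⟨g₁, hg₁⟩, hrelg, hgg⟩ := IsFractionRing.exists_reduced_fraction (Pol l)
    (K := FractionRing (Pol l)) g
  have hg₁0 : g₁ ≠ 0 := nonZeroDivisors.ne_zero hg₁
  have hrelg' : IsRelPrime g₀ g₁ := hrelg
  rw [IsFractionRing.mk'_eq_div] at hgg
  have hgg' : g = algebraMap _ _ g₀ / algebraMap _ _ g₁ := hgg.symm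
  have hg0 : g ≠ 0 := fun h => hγc 0 (by rw [h, map_zero])
  have hg₀0 : g₀ ≠ 0 := by
    rintro rfl
    rw [map_zero, zero_div] at hgg'
    exact hg0 hgg'
  have hsc₁ : sc l g₁ ≠ 0 := fun h => hg₁0 (sc_inj (by rw [h, map_zero]))
  have hcross : sc l g₀ * g₁ = g₀ * sc l g₁ := by
    apply hinj
    rw [map_mul, map_mul]
    have h1 : algebraMap (Pol l) (FractionRing (Pol l)) (sc l g₀) /
        algebraMap _ _ (sc l g₁) = algebraMap _ _ g₀ / algebraMap _ _ g₁ := by
      rw [← hσ, ← hσ, ← map_div₀, ← hgg', hσg]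
    rwa [div_eq_div_iff (hA0 _ hsc₁) (hA0 _ hg₁0)] at h1
  have hd₀ : g₀ ∣ sc l g₀ := by
    refine hrelg'.dvd_of_dvd_mul_right ?_
    rw [hcross]
    exact dvd_mul_right _ _
  have hd₁ : g₁ ∣ sc l g₁ := by
    refine hrelg'.symm.dvd_of_dvd_mul_left ?_
    rw [← hcross]
    exact dvd_mul_left _ _
  obtain ⟨e, he1, he2⟩ := hom_of_dvd hg₀0 hd₀
  obtain ⟨e', he1', he2'⟩ := hom_of_dvd hg₁0 hd₁
  have hee : e' = e := by
    rw [he2, he2'] at hcross
    have h1 : (C (2 ^ e) : Pol l) * (g₀ * g₁) = C (2 ^ e') * (g₀ * g₁) := by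
      rw [← mul_assoc, hcross]
      ring
    have h2 := mul_right_cancel₀ (mul_ne_zero hg₀0 hg₁0) h1
    exact (two_pow_inj (C_injective _ _ h2)).symm
  subst hee
  have he : 0 < e' := by
    rcases Nat.eq_zero_or_pos e' with h | h
    · exfalso
      subst h
      have h1 := totalDegree_eq_zero_iff_eq_C.1 (he1.totalDegree hg₀0)
      have h2 := totalDegree_eq_zero_iff_eq_C.1 (he1'.totalDegree hg₁0)
      apply hγc (g₀.coeff 0 / g₁.coeff 0)
      rw [map_div₀, ← hAC, ← hAC, ← h1, ← h2]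
      exact hgg'
    · exact h
  -- the degree
  obtain ⟨a₀, -, ha₀⟩ := Finset.exists_mem_eq_sup (Finset.univ : Finset (Fin 3))
    ⟨0, Finset.mem_univ _⟩ (fun a => (R a).natDegree)
  set n := Finset.univ.sup (fun a => (R a).natDegree) with hn
  have hdeg : ∀ a, (R a).natDegree ≤ n := fun a =>
    Finset.le_sup (f := fun a => (R a).natDegree) (Finset.mem_univ a)
  -- the relations
  have hrel1 : ∀ c, algebraMap (Pol l) (FractionRing (Pol l)) (q c) * Polynomial.aeval g (R 1) =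
      algebraMap _ _ (q 1) * Polynomial.aeval g (R c) := by
    intro c
    fin_cases c
    · show algebraMap (Pol l) (FractionRing (Pol l)) (q 0) * _ = algebraMap _ _ (q 1) *
        Polynomial.aeval g (R 0)
      rw [← hx]
      unfold fr
      rw [← mul_assoc, mul_div_cancel₀ _ (hA0 _ (h0 1))]
    · rfl
    · show algebraMap (Pol l) (FractionRing (Pol l)) (q 2) * _ = algebraMap _ _ (q 1) *
        Polynomial.aeval g (R 2)
      rw [← hy]
      unfold fr
      rw [← mul_assoc, mul_div_cancel₀ _ (hA0 _ (h0 1))]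
  have hrel2 : ∀ c c', algebraMap (Pol l) (FractionRing (Pol l)) (q c) *
      Polynomial.aeval g (R c') = algebraMap _ _ (q c') * Polynomial.aeval g (R c) := by
    intro c c'
    apply mul_right_cancel₀ (hRγ 1)
    calc algebraMap (Pol l) (FractionRing (Pol l)) (q c) * Polynomial.aeval g (R c') *
          Polynomial.aeval g (R 1)
        = (algebraMap (Pol l) (FractionRing (Pol l)) (q c) * Polynomial.aeval g (R 1)) *
          Polynomial.aeval g (R c') := by ring
      _ = (algebraMap _ _ (q 1) * Polynomial.aeval g (R c')) * Polynomial.aeval g (R c) := by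
          rw [hrel1]; ring
      _ = _ := by rw [← hrel1]; ring
  have hhz : ∀ c, algebraMap (Pol l) (FractionRing (Pol l)) (hz n (R c) g₀ g₁) =
      algebraMap _ _ g₁ ^ n * Polynomial.aeval g (R c) := by
    intro c
    rw [Polynomial.aeval_eq_sum_range' (Nat.lt_succ_of_le (hdeg c)), Finset.mul_sum]
    unfold hz
    rw [map_sum]
    refine Finset.sum_congr rfl fun k hk => ?_
    have hkn : k ≤ n := Nat.lt_succ_iff.1 (Finset.mem_range.1 hk)
    rw [map_mul, map_mul, map_pow, map_pow, hAC, Algebra.smul_def, hgg', div_pow]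
    have h1 : algebraMap (Pol l) (FractionRing (Pol l)) g₁ ^ n =
        algebraMap _ _ g₁ ^ (n - k) * algebraMap _ _ g₁ ^ k := by
      rw [← pow_add, Nat.sub_add_cancel hkn]
    rw [h1]
    have h2 := pow_ne_zero k (hA0 _ hg₁0)
    field_simp
  refine ⟨n, e', g₀, g₁, R, ?_, he, he1, he1', hg₁0, hrelg', hRz, hdeg, ⟨a₀, ha₀.symm⟩, hR0, ?_⟩
  · rcases Nat.eq_zero_or_pos n with h | h
    · exfalso
      have h1 : ∀ c, R c = Polynomial.C ((R c).coeff 0) := fun c =>
        Polynomial.eq_C_of_natDegree_eq_zero (Nat.le_zero.1 (h ▸ hdeg c))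
      have h2 := hrel1 0
      have h3 : (R 1).coeff 0 ≠ 0 := by
        intro h4
        apply hR0 1
        rw [h1 1, h4, map_zero]
      rw [h1 0, h1 1, Polynomial.aeval_C, Polynomial.aeval_C, ← hAC, ← hAC, ← map_mul, ← map_mul]
        at h2
      have h4 := hinj h2
      apply hnc ((R 0).coeff 0 / (R 1).coeff 0)
      have h5 : (C ((R 1).coeff 0) : Pol l) ≠ 0 := by
        rw [Ne, C_eq_zero]
        exact h3
      apply mul_right_cancel₀ h5
      rw [h4, mul_comm (q 1), mul_assoc, mul_comm (q 1), ← mul_assoc, ← C_mul,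
        div_mul_cancel₀ _ h3]
    · exact h
  · intro c c'
    apply hinj
    rw [map_mul, map_mul, hhz, hhz, mul_left_comm, hrel2]
    ring

end MFib
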