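import Pool.Agent.Lib.MFib.PLurA

/-!
# PLurB (about 250 lines): Lemma L, `q_a` is a product of `n` linear forms in `(g₀, g₁)`

From `lurA`.
* `hz_factor`: `R ≠ 0`, `natDegree R ≤ n`: `hz n R x y = C (leadingCoeff) * ∏ over the roots (x - C ρ y) * y^(n - natDegree R)` (`ℂ` algebraically closed:
  `Polynomial.Splits`/`IsAlgClosed.splits`, `eq_prod_roots_of_splits`); so it is `C κ * ∏_{j<n} (C (u j) x + C (v j) y)` with `κ ≠ 0`, `(u j, v j) ≠ 0`, where
  for the factor `(1, -ρ)`: `ρ` is a root of `R`, and a factor `(0, 1)` occurs only if `natDegree R < n`.  Proof of the expansion: prove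
  `hz (n+m) (R*S) x y = hz n R x y * hz m S x y` for `natDegree R ≤ n`, `natDegree S ≤ m` (or compare with `Polynomial.homogenize`-like API), or: both sides are
  determined after dividing by `y^n` in the fraction field; or: induction on `n` (if `natDegree R < n` split off `y`, else split off a root).
* The three `hz n (R a) g₀ g₁` have no common irreducible factor `π`: `π` divides a factor `u g₀ + v g₁` of each of them; if two of these factors
  are non-proportional then `π ∣ g₀, g₁`, contradiction to `IsRelPrime` (`π` not a unit).  So they are all proportional to one `(u, v)`: if `(u,v) = (1,-ρ)`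
  then `ρ` is a common root of all `R a`; if `(0,1)`: all natDegrees are `< n`: contradiction.
* Put `H_a = hz n (R a) g₀ g₁` (nonzero: product of nonzero factors: `u g₀ + v g₁ = 0` would give, `g₀, g₁` relatively prime, hmm: if `u ≠ 0`, `g₀ = -(v/u) g₁`, so
  `g₁ ∣ g₀`, `g₁` unit, but `g₁` is homogeneous of degree `e > 0` and nonzero: not a unit.  Same for `v ≠ 0`, `u = 0`: `g₁ = 0`.)
  `q_a H_b = q_b H_a`, `q_a, q_b` relatively prime for `a ≠ b`: `q_a ∣ H_a` (`IsRelPrime.dvd_of_dvd_mul_left`): `H_a = q_a T_a`, and `q_a q_b T_b = q_b q_a T_a`: `T_a = T_b = T`;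
  `T` divides all `H_a`, which have no common irreducible factor: `T` is a unit (`T ≠ 0`): `T = C τ`, `τ ≠ 0`.  So `q_a = C (τ⁻¹ κ_a) ∏ ...`.
-/

set_option autoImplicit false

namespace MFib

open MvPolynomial

variable {l : ℕ}

private theorem hz_succ_of_le {n : ℕ} {R : Polynomial ℂ} (hn : R.natDegree ≤ n) (x y : Pol l) :
    hz (n + 1) R x y = hz n R x y * y := by
  unfold hz
  rw [Finset.sum_range_succ, Polynomial.coeff_eq_zero_of_natDegree_lt (by omega : R.natDegree < n + 1)]
  rw [Finset.sum_mul]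
  simp only [map_zero, zero_mul, add_zero]
  refine Finset.sum_congr rfl fun k hk => ?_
  have hk' : k ≤ n := by
    have := Finset.mem_range.mp hk
    omega
  rw [show n + 1 - k = (n - k) + 1 by omega, pow_succ]
  ring

private theorem hz_X_sub_C_mul {n : ℕ} {S : Polynomial ℂ} (hn : S.natDegree ≤ n) (ρ : ℂ) (x y : Pol l) :
    hz (n + 1) ((Polynomial.X - Polynomial.C ρ) * S) x y = (x - C ρ * y) * hz n S x y := by
  have h1 : hz (n + 1) ((Polynomial.X - Polynomial.C ρ) * S) x y =
      (∑ k ∈ Finset.range (n + 2), C ((Polynomial.X * S).coeff k) * x ^ k * y ^ (n + 1 - k)) -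
        C ρ * ∑ k ∈ Finset.range (n + 2), C (S.coeff k) * x ^ k * y ^ (n + 1 - k) := by
    unfold hz
    rw [Finset.mul_sum, ← Finset.sum_sub_distrib]
    refine Finset.sum_congr rfl fun k _ => ?_
    rw [sub_mul, Polynomial.coeff_sub, Polynomial.coeff_C_mul, map_sub, map_mul]
    ring
  have h2 : (∑ k ∈ Finset.range (n + 2), C (S.coeff k) * x ^ k * y ^ (n + 1 - k)) = hz n S x y * y :=
    hz_succ_of_le hn x y
  have h3 : (∑ k ∈ Finset.range (n + 2), C ((Polynomial.X * S).coeff k) * x ^ k * y ^ (n + 1 - k)) =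
      x * hz n S x y := by
    rw [Finset.sum_range_succ']
    unfold hz
    rw [Finset.mul_sum]
    simp only [Polynomial.mul_coeff_zero, Polynomial.coeff_X_zero, zero_mul, map_zero, add_zero]
    refine Finset.sum_congr rfl fun k _ => ?_
    rw [Polynomial.coeff_X_mul, show n + 1 - (k + 1) = n - k by omega, pow_succ]
    ring
  rw [h1, h2, h3]
  ring

theorem hz_factor {n : ℕ} {R : Polynomial ℂ} (h0 : R ≠ 0) (hn : R.natDegree ≤ n) :
    ∃ (κ : ℂ) (u v : Fin n → ℂ), κ ≠ 0 ∧ (∀ j, (u j = 1 ∧ R.eval (-(v j)) = 0) ∨ (u j = 0 ∧ v j = 1 ∧ R.natDegree < n)) ∧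
      ∀ x y : Pol l, hz n R x y = C κ * ∏ j, (C (u j) * x + C (v j) * y) := by
  induction n generalizing R with
  | zero =>
    obtain ⟨c, hc⟩ := Polynomial.natDegree_eq_zero.mp (Nat.le_zero.mp hn)
    subst hc
    refine ⟨c, Fin.elim0, Fin.elim0, ?_, fun j => j.elim0, fun x y => ?_⟩
    · rintro rfl
      exact h0 (by simp)
    · simp [hz]
  | succ n ih =>
    by_cases hle : R.natDegree ≤ n
    · obtain ⟨κ, u, v, hκ, huv, hp⟩ := ih h0 hle
      refine ⟨κ, Fin.cons 0 u, Fin.cons 1 v, hκ, fun j => ?_, fun x y => ?_⟩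
      · refine Fin.cases ?_ (fun i => ?_) j
        · right
          exact ⟨by simp, by simp, by omega⟩
        · rcases huv i with h | h
          · left
            simpa using h
          · right
            refine ⟨by simpa using h.1, by simpa using h.2.1, by omega⟩
      · rw [hz_succ_of_le hle, hp x y, Fin.prod_univ_succ]
        simp only [Fin.cons_zero, Fin.cons_succ, map_zero, zero_mul, zero_add, map_one, one_mul]
        ring
    · have hd : R.natDegree = n + 1 := by omega
      have hdeg : R.degree ≠ 0 := by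
        rw [Polynomial.degree_eq_natDegree h0, hd]
        exact_mod_cast Nat.succ_ne_zero n
      obtain ⟨ρ, hρ⟩ := IsAlgClosed.exists_root R hdeg
      obtain ⟨S, hS⟩ := Polynomial.dvd_iff_isRoot.mpr hρ
      have hS0 : S ≠ 0 := by
        rintro rfl
        exact h0 (by rw [hS, mul_zero])
      have hSd : S.natDegree = n := by
        have h := congrArg Polynomial.natDegree hS
        rw [Polynomial.natDegree_mul (Polynomial.X_sub_C_ne_zero ρ) hS0, Polynomial.natDegree_X_sub_C, hd] at h
        omega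
      obtain ⟨κ, u, v, hκ, huv, hp⟩ := ih hS0 hSd.le
      refine ⟨κ, Fin.cons 1 u, Fin.cons (-ρ) v, hκ, fun j => ?_, fun x y => ?_⟩
      · refine Fin.cases ?_ (fun i => ?_) j
        · left
          refine ⟨by simp, ?_⟩
          simpa using hρ
        · rcases huv i with h | h
          · left
            refine ⟨by simpa using h.1, ?_⟩
            simp only [Fin.cons_succ]
            rw [hS, Polynomial.eval_mul, h.2, mul_zero]
          · exfalso
            omega
      · rw [hS, hz_X_sub_C_mul hSd.le, hp x y, Fin.prod_univ_succ]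
        simp only [Fin.cons_zero, Fin.cons_succ, map_one, one_mul, map_neg]
        ring

private theorem not_isUnit_of_hom {g : Pol l} {e : ℕ} (he : 0 < e) (hg : g.IsHomogeneous e) (h0 : g ≠ 0) :
    ¬ IsUnit g := by
  intro hu
  have h1 := hg.totalDegree h0
  rw [MvPolynomial.isUnit_iff_totalDegree_of_isReduced] at hu
  omega

theorem lemL {q : Fin 3 → Pol l} {d : ℕ} (hd : 0 < d) (hq : ∀ a, (q a).IsHomogeneous d) (h0 : ∀ a, q a ≠ 0)
    (hrel : ∀ a b, a ≠ b → IsRelPrime (q a) (q b)) (hJ : ∀ v w, jac q v w = 0) :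
    ∃ (n e : ℕ) (g₀ g₁ : Pol l) (κ : Fin 3 → ℂ) (u v : Fin 3 → Fin n → ℂ), 0 < n ∧ 0 < e ∧ g₀.IsHomogeneous e ∧
      g₁.IsHomogeneous e ∧ IsRelPrime g₀ g₁ ∧ (∀ a j, u a j ≠ 0 ∨ v a j ≠ 0) ∧
      ∀ a, q a = C (κ a) * ∏ j, (C (u a j) * g₀ + C (v a j) * g₁) := by
  obtain ⟨n, e, g₀, g₁, R, hn, he, hg₀, hg₁, hg10, hrg, hroot, hdeg, ⟨a₁, ha₁⟩, hR0, hcross⟩ :=
    lurA hd hq h0 hrel hJ
  choose κ u v hκ huv hp using fun a => hz_factor (l := l) (hR0 a) (hdeg a)
  have hg1u : ¬ IsUnit g₁ := not_isUnit_of_hom he hg₁ hg10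
  have hfac : ∀ a j, C (u a j) * g₀ + C (v a j) * g₁ ≠ 0 := by
    intro a j h
    rcases huv a j with h' | h'
    · rw [h'.1, map_one, one_mul] at h
      have h2 : g₀ = g₁ * (- C (v a j)) := by linear_combination h
      exact hg1u (hrg ⟨_, h2⟩ dvd_rfl)
    · rw [h'.1, h'.2.1, map_zero, zero_mul, zero_add, map_one, one_mul] at h
      exact hg10 h
  set H : Fin 3 → Pol l := fun a => hz n (R a) g₀ g₁ with hH
  have hHp : ∀ a, H a = C (κ a) * ∏ j, (C (u a j) * g₀ + C (v a j) * g₁) := fun a => hp a g₀ g₁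
  have hCκ : ∀ a, IsUnit (C (κ a) : Pol l) := fun a => (IsUnit.mk0 _ (hκ a)).map C
  have hH0 : ∀ a, H a ≠ 0 := by
    intro a
    rw [hHp a]
    exact mul_ne_zero (hCκ a).ne_zero (Finset.prod_ne_zero_iff.mpr fun j _ => hfac a j)
  -- no common irreducible factor
  have hirr : ∀ π : Pol l, Irreducible π → ¬ ∀ a, π ∣ H a := by
    intro π hπ hdv
    have hpr : Prime π := hπ.prime
    have hex : ∀ a, ∃ j, π ∣ C (u a j) * g₀ + C (v a j) * g₁ := by
      intro a
      have h1 := hdv a
      rw [hHp a] at h1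
      rcases hpr.dvd_or_dvd h1 with h2 | h2
      · exact absurd (isUnit_of_dvd_unit h2 (hCκ a)) hπ.not_isUnit
      · obtain ⟨j, _, hj⟩ := (hpr.dvd_finsetProd_iff _).mp h2
        exact ⟨j, hj⟩
    choose J hJ' using hex
    -- determinant vanishes
    have hdet : ∀ a b, u a (J a) * v b (J b) - u b (J b) * v a (J a) = 0 := by
      intro a b
      by_contra hne
      have hu : IsUnit (C (u a (J a) * v b (J b) - u b (J b) * v a (J a)) : Pol l) :=
        (IsUnit.mk0 _ hne).map C
      have hA : π ∣ C (u a (J a) * v b (J b) - u b (J b) * v a (J a)) * g₀ := by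
        have : C (u a (J a) * v b (J b) - u b (J b) * v a (J a)) * g₀ =
            (C (u a (J a)) * g₀ + C (v a (J a)) * g₁) * C (v b (J b)) -
              (C (u b (J b)) * g₀ + C (v b (J b)) * g₁) * C (v a (J a)) := by
          simp only [map_sub, map_mul]
          ring
        rw [this]
        exact dvd_sub ((hJ' a).mul_right _) ((hJ' b).mul_right _)
      have hB : π ∣ C (u a (J a) * v b (J b) - u b (J b) * v a (J a)) * g₁ := by
        have : C (u a (J a) * v b (J b) - u b (J b) * v a (J a)) * g₁ =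
            (C (u b (J b)) * g₀ + C (v b (J b)) * g₁) * C (u a (J a)) -
              (C (u a (J a)) * g₀ + C (v a (J a)) * g₁) * C (u b (J b)) := by
          simp only [map_sub, map_mul]
          ring
        rw [this]
        exact dvd_sub ((hJ' b).mul_right _) ((hJ' a).mul_right _)
      exact hπ.not_isUnit (hrg ((hu.dvd_mul_left).mp hA) ((hu.dvd_mul_left).mp hB))
    rcases huv a₁ (J a₁) with h1 | h1
    · obtain ⟨b, hb⟩ := hroot (-(v a₁ (J a₁)))
      rcases huv b (J b) with h2 | h2
      · have h3 := hdet a₁ b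
        rw [h1.1, h2.1] at h3
        have h4 : v b (J b) = v a₁ (J a₁) := by linear_combination h3
        rw [h4] at h2
        exact hb h2.2
      · have h3 := hdet a₁ b
        rw [h1.1, h2.1, h2.2.1] at h3
        simp at h3
    · exact absurd ha₁ h1.2.2.ne
  -- division
  have hcross' : ∀ a b, q a * H b = q b * H a := hcross
  have hdvd : ∀ a, q a ∣ H a := by
    intro a
    obtain ⟨b, hb⟩ : ∃ b : Fin 3, a ≠ b := by
      fin_cases a
      · exact ⟨1, by decide⟩
      · exact ⟨0, by decide⟩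
      · exact ⟨0, by decide⟩
    have h1 : q a ∣ q b * H a := ⟨H b, (hcross' a b).symm⟩
    exact (hrel a b hb).dvd_of_dvd_mul_left h1
  choose T hT using hdvd
  have hTT : ∀ a b, T a = T b := by
    intro a b
    have h1 := hcross' a b
    rw [hT a, hT b] at h1
    have h2 : (q a * q b) * T b = (q a * q b) * T a := by linear_combination h1
    exact (mul_left_cancel₀ (mul_ne_zero (h0 a) (h0 b)) h2).symm
  have hTu : IsUnit (T 0) := by
    by_contra hnu
    have hT0 : T 0 ≠ 0 := by
      intro h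
      apply hH0 0
      rw [hT 0, h, mul_zero]
    obtain ⟨π, hπ, hπd⟩ := WfDvdMonoid.exists_irreducible_factor hnu hT0
    exact hirr π hπ fun a => by
      rw [hT a, hTT a 0]
      exact hπd.mul_left _
  obtain ⟨τ, hτ, hτT⟩ := (MvPolynomial.isUnit_iff_eq_C_of_isReduced).mp hTu
  have hτ0 : τ ≠ 0 := hτ.ne_zero
  refine ⟨n, e, g₀, g₁, fun a => τ⁻¹ * κ a, u, v, hn, he, hg₀, hg₁, hrg, fun a j => ?_, fun a => ?_⟩
  · rcases huv a j with h | h
    · left
      rw [h.1]
      exact one_ne_zero
    · right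
      rw [h.2.1]
      exact one_ne_zero
  · have h1 : C (τ⁻¹) * H a = q a := by
      rw [hT a, hTT a 0, hτT]
      have : (C (τ⁻¹) : Pol l) * C τ = 1 := by
        rw [← map_mul, inv_mul_cancel₀ hτ0, map_one]
      linear_combination (q a) * this
    rw [← h1, hHp a, map_mul]
    ring

end MFib
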