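import Pool.Agent.Lib.MFib.PWedge
import Pool.Agent.Lib.MFib.PCls

/-!
# PPen (about 200 lines): the pencil theorem

(1) `lemL` for `q = qq N` (`mn_d_pos`, `qq_hom`, `qq_ne_zero`, `qq_relprime`, `jac_zero`) and `class_pow`: `q_a = C ρ_a G_a^n`, `G_a = x_a g₀ + y_a g₁`.
(2) `n = 1`: for every `i`, with `a = c i`: `q_a = lin (α i)^{m_i} R`, `lin (α i) ∤ R` (`mult_qq`); the multiplicity of the prime `lin (α i)` in `C ρ G_a^n` is `n` times its
    multiplicity in `G_a`: so `n ∣ m_i` (`emultiplicity_pow`, `emultiplicity_mul`, or: write `G_a = lin^k S`, `lin ∤ S`, compare).  So `n ∣ gcd m = 1` (`Finset.dvd_gcd`), `n = 1`.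
(3) So `q_a = ρ_a x_a g₀ + ρ_a y_a g₁`, three vectors of `ℂ²`: there are `(lam_a) ≠ 0` with `∑ lam_a q_a = 0`.  All `lam_a ≠ 0`: if e.g. `lam_0 = 0`: `lam_1 q_1 = - lam_2 q_2`, not both zero, `q_1, q_2 ≠ 0`,
    so both nonzero and `q_1 ∣ q_2`; `IsRelPrime` makes `q_1` a unit, but it is divisible by a prime `lin (α i)` (`class_nonempty`, `lin_dvd_qq`).
(4) `S a = C (lam a) * qq N a`; `m_i = 1 + 3 r_i`, `r_i = m_i / 3`; `μ^3 = lam_0 lam_1 lam_2` (`IsAlgClosed.exists_pow_nat_eq`), `h = C μ * ∏ i, lin (α i)^{r_i}`, homogeneous of degree `∑ r_i`;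
    `S_0 S_1 S_2 = lam_0 lam_1 lam_2 ∏ lin^{m_i} = h^3 * QQ α` (`qq_prod`).  `h(z) ≠ 0` if `QQ α (z) = ∏ α_i z ≠ 0`.
-/

set_option autoImplicit false

namespace MFib

open MvPolynomial

variable {l : ℕ} {ι : Type} [Fintype ι] {α : ι → Module.Dual ℂ (Fin l → ℂ)}

private theorem isUnit_Cx {x : ℂ} (hx : x ≠ 0) : IsUnit (C x : Pol l) :=
  (isUnit_iff_ne_zero.mpr hx).map (C : ℂ →+* Pol l)

private theorem det_ne (hα : ∀ i, α i ≠ 0) (hd : ∀ i j, i ≠ j → LinearMap.ker (α i) ≠ LinearMap.ker (α j)) (N : Multinet α)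
    {a b : Fin 3} (hab : a ≠ b) {g₀ g₁ : Pol l} {x y : Fin 3 → ℂ}
    (hq : ∀ a, qq N a = C (x a) * g₀ + C (y a) * g₁) : x a * y b - x b * y a ≠ 0 := by
  intro h0
  have hne : x a ≠ 0 ∨ y a ≠ 0 := by
    by_contra hcon
    push Not at hcon
    apply qq_ne_zero hα N a
    rw [hq a, hcon.1, hcon.2, C_0, zero_mul, zero_mul, add_zero]
  have hdvd : qq N a ∣ qq N b := by
    rcases hne with h | h
    · have h1 : C (x a) * qq N b = C (x b) * qq N a := by
        rw [hq a, hq b]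
        have h2 : (C (x a * y b - x b * y a) : Pol l) = 0 := by rw [h0, C_0]
        rw [C_sub, C_mul, C_mul] at h2
        linear_combination h2 * g₁
      exact (isUnit_Cx (l := l) h).dvd_mul_left.mp ⟨C (x b), by rw [h1, mul_comm]⟩
    · have h1 : C (y a) * qq N b = C (y b) * qq N a := by
        rw [hq a, hq b]
        have h2 : (C (x a * y b - x b * y a) : Pol l) = 0 := by rw [h0, C_0]
        rw [C_sub, C_mul, C_mul] at h2
        linear_combination (-h2) * g₀
      exact (isUnit_Cx (l := l) h).dvd_mul_left.mp ⟨C (y b), by rw [h1, mul_comm]⟩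
  have hu : IsUnit (qq N a) := qq_relprime hα hd N hab dvd_rfl hdvd
  obtain ⟨i, hi⟩ := class_nonempty N a
  have h3 : lin (α i) ∣ qq N a := (lin_dvd_qq hα hd N a i).mpr hi
  exact (lin_prime (hα i)).not_isUnit (isUnit_of_dvd_unit h3 hu)

theorem pencil_thm (hα : ∀ i, α i ≠ 0) (hd : ∀ i j, i ≠ j → LinearMap.ker (α i) ≠ LinearMap.ker (α j)) (N : Multinet α)
    (h1 : ∀ i, N.m i % 3 = 1) :
    ∃ (P : Pencil (QQ α)) (lam : Fin 3 → ℂ), (∀ a, lam a ≠ 0) ∧ ∀ a, P.S a = C (lam a) * qq N a := by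
  classical
  obtain ⟨n, e, g₀, g₁, κ, u, v, hn, he, h0g, h1g, hrel, huv, hq⟩ :=
    lemL (mn_d_pos N) (qq_hom N) (qq_ne_zero hα N) (fun a b hab => qq_relprime hα hd N hab)
      (fun v w => jac_zero hα hd N v w)
  choose ρ x y hρ hxy hqa using fun a => class_pow hα hd N hn he h0g h1g hrel huv hq a
  -- n = 1
  have hn1 : n = 1 := by
    have hdiv : n ∣ Finset.univ.gcd N.m := by
      refine Finset.dvd_gcd fun i _ => ?_
      have hp := lin_prime (hα i)
      obtain ⟨R, hR, hRn⟩ := mult_qq hα hd N i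
      have e1 : emultiplicity (lin (α i)) (qq N (N.c i)) = N.m i := by
        rw [hR, emultiplicity_mul hp, emultiplicity_pow_self_of_prime hp, emultiplicity_eq_zero.mpr hRn, add_zero]
      have hG : (C (x (N.c i)) * g₀ + C (y (N.c i)) * g₁ : Pol l) ≠ 0 := by
        intro h0
        apply qq_ne_zero hα N (N.c i)
        rw [hqa, h0, zero_pow hn.ne', mul_zero]
      have e2 : emultiplicity (lin (α i)) (qq N (N.c i)) =
          n * emultiplicity (lin (α i)) (C (x (N.c i)) * g₀ + C (y (N.c i)) * g₁) := by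
        rw [hqa, emultiplicity_mul hp, emultiplicity_pow hp, emultiplicity_eq_zero.mpr, zero_add]
        intro hdv
        exact hp.not_isUnit (isUnit_of_dvd_unit hdv (isUnit_Cx (hρ _)))
      have hfin := FiniteMultiplicity.of_not_isUnit hp.not_isUnit hG
      rw [hfin.emultiplicity_eq_multiplicity, e1] at e2
      have e3 : N.m i = n * multiplicity (lin (α i)) (C (x (N.c i)) * g₀ + C (y (N.c i)) * g₁) := by
        exact_mod_cast e2
      exact ⟨_, e3⟩
    rw [N.gcd_eq] at hdiv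
    exact Nat.dvd_one.mp hdiv
  subst hn1
  -- linear forms
  have hq' : ∀ a, qq N a = C (ρ a * x a) * g₀ + C (ρ a * y a) * g₁ := by
    intro a
    rw [hqa a, pow_one, C_mul, C_mul]
    ring
  set X : Fin 3 → ℂ := fun a => ρ a * x a with hX
  set Y : Fin 3 → ℂ := fun a => ρ a * y a with hY
  have hq2 : ∀ a, qq N a = C (X a) * g₀ + C (Y a) * g₁ := hq'
  have d12 := det_ne hα hd N (show (1 : Fin 3) ≠ 2 by decide) hq2
  have d20 := det_ne hα hd N (show (2 : Fin 3) ≠ 0 by decide) hq2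
  have d01 := det_ne hα hd N (show (0 : Fin 3) ≠ 1 by decide) hq2
  set lam : Fin 3 → ℂ := ![X 1 * Y 2 - X 2 * Y 1, X 2 * Y 0 - X 0 * Y 2, X 0 * Y 1 - X 1 * Y 0] with hlam
  have l0 : lam 0 = X 1 * Y 2 - X 2 * Y 1 := rfl
  have l1 : lam 1 = X 2 * Y 0 - X 0 * Y 2 := rfl
  have l2 : lam 2 = X 0 * Y 1 - X 1 * Y 0 := rfl
  have hlam_ne : ∀ a, lam a ≠ 0 := by
    intro a
    fin_cases a
    · exact d12
    · exact d20
    · exact d01
  obtain ⟨μ, hμ⟩ := IsAlgClosed.exists_pow_nat_eq (lam 0 * lam 1 * lam 2) (n := 3) (by norm_num)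
  have hμ0 : μ ≠ 0 := by
    rintro rfl
    rw [zero_pow (by norm_num)] at hμ
    exact mul_ne_zero (mul_ne_zero (hlam_ne 0) (hlam_ne 1)) (hlam_ne 2) hμ.symm
  have hm : ∀ i, N.m i = 3 * (N.m i / 3) + 1 := by
    intro i
    have h2 := h1 i
    omega
  refine ⟨{ S := fun a => C (lam a) * qq N a
            h := C μ * ∏ i, lin (α i) ^ (N.m i / 3)
            d := N.d
            e := ∑ i, N.m i / 3
            d_pos := mn_d_pos N
            S_hom := ?_
            h_hom := ?_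
            sum := ?_
            prod := ?_
            h_ne := ?_ }, lam, hlam_ne, fun a => rfl⟩
  · intro a
    have h2 := (isHomogeneous_C (Fin l) (lam a)).mul (qq_hom N a)
    rwa [zero_add] at h2
  · have h2 : (∏ i, lin (α i) ^ (N.m i / 3) : Pol l).IsHomogeneous (∑ i, N.m i / 3) := by
      refine IsHomogeneous.prod _ _ _ fun i _ => ?_
      have h3 := (lin_hom (α i)).pow (N.m i / 3)
      rwa [one_mul] at h3
    have h3 := (isHomogeneous_C (Fin l) μ).mul h2
    rwa [zero_add] at h3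
  · show C (lam 0) * qq N 0 + C (lam 1) * qq N 1 + C (lam 2) * qq N 2 = 0
    rw [hq2 0, hq2 1, hq2 2, l0, l1, l2]
    simp only [C_sub, C_mul]
    ring
  · show C (lam 0) * qq N 0 * (C (lam 1) * qq N 1) * (C (lam 2) * qq N 2) =
      (C μ * ∏ i, lin (α i) ^ (N.m i / 3)) ^ 3 * QQ α
    have e1 : C (lam 0) * qq N 0 * (C (lam 1) * qq N 1) * (C (lam 2) * qq N 2) =
        C (lam 0 * lam 1 * lam 2) * (qq N 0 * qq N 1 * qq N 2) := by
      rw [C_mul, C_mul]
      ring
    rw [e1, ← hμ, qq_prod, mul_pow, C_pow, ← Finset.prod_pow, QQ, mul_assoc, ← Finset.prod_mul_distrib]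
    congr 1
    refine Finset.prod_congr rfl fun i _ => ?_
    rw [← pow_mul, ← pow_succ]
    congr 1
    rw [mul_comm]
    exact hm i
  · intro z hz
    show eval z (C μ * ∏ i, lin (α i) ^ (N.m i / 3)) ≠ 0
    rw [map_mul, eval_C, map_prod]
    refine mul_ne_zero hμ0 (Finset.prod_ne_zero_iff.mpr fun i _ => ?_)
    rw [map_pow]
    refine pow_ne_zero _ ?_
    rw [QQ, map_prod, Finset.prod_ne_zero_iff] at hz
    exact hz i (Finset.mem_univ i)

end MFib
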