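import Pool.Agent.Lib.MFib.PV

/-!
# PTheta (about 300 lines): a good line, and the embedding `ℂ(f|line, h|line) → Frac(Pol)`

* `exists_line`.  Choose `z` with `q₁(z) ≠ 0`.  If `wr z b q₀ q₁ = 0` for all `b`: put `f = line z b q₀`, `g = line z b q₁`, `g(0) = q₁(z) ≠ 0`,
  `c = f(0)/g(0)`, `R = f - c g`: `R g' = g R'` and `R(0) = 0`; if `R ≠ 0` has order `k ≥ 1` at `0`, then `R g'` has order `≥ k`, `g R'` has
  order `k - 1`: contradiction.  So `f = c g`, and at `t = 1`: `q₀(z+b) = c q₁(z+b)` for all `b` (`c = q₀(z)/q₁(z)` does not depend on `b`):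
  `q₀ = C c * q₁`, contradiction.
* `exists_theta`.  `K = FractionRing (Pol l)`, `fr q q' = q/q'`, `fb a b q q' = (q/q')|line`.  `q 1 ≠ 0` and `line a b (q 1) ≠ 0` (else `wr = 0`).
  For `P : MvPolynomial (Fin 2) ℂ` of total degree `≤ N` let `W = ∑ over monomials, x_0^i x_2^j x_1^(N-i-j)` (homogenisation; homogeneous of degree `N`):
  `aeval (f, h) P * q_1^N = aeval q W` in `K` and the same on the line.  By `lemV_iff`: `aeval (f,h) P = 0 ↔ aeval (fb, hb) P = 0`.
  So the algebra maps `MvPolynomial (Fin 2) ℂ → K` and `→ RatFunc ℂ` have the same kernel; `Algebra.adjoin ℂ {fb, hb}` is the range of the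
  second (`Algebra.adjoin_range_eq_range_aeval`), so there is an injective algebra map `Algebra.adjoin ℂ {fb,hb} → K`
  (`Ideal.Quotient.liftₐ`/ `AlgHom.liftOfSurjective`), which extends to the fraction field `IntermediateField.adjoin ℂ {fb, hb}`
  (Mathlib: `IsFractionRing (Algebra.adjoin F S) (IntermediateField.adjoin F S)` instance, `IsFractionRing.liftAlgHom`).
-/

set_option autoImplicit false

namespace MFib

open MvPolynomial

variable {l : ℕ}

private theorem eval_line (a b : Fin l → ℂ) (t : ℂ) (P : Pol l) :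
    (line a b P).eval t = eval (fun j => a j + b j * t) P := by
  unfold line
  rw [← Polynomial.coe_evalRingHom, ← MvPolynomial.coe_aeval_eq_eval]
  have h1 : ((Polynomial.evalRingHom t).comp
      (MvPolynomial.aeval (fun j => Polynomial.C (a j) + Polynomial.C (b j) * Polynomial.X)
        : Pol l →ₐ[ℂ] Polynomial ℂ).toRingHom) =
      (MvPolynomial.aeval (fun j => a j + b j * t) : Pol l →ₐ[ℂ] ℂ).toRingHom := by
    apply MvPolynomial.ringHom_ext
    · intro r
      simp
    · intro j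
      simp
  exact congrArg (fun (φ : Pol l →+* ℂ) => φ P) h1

/-- the order argument -/
private theorem const_of_wronskian {f g : Polynomial ℂ} (hg : g.eval 0 ≠ 0)
    (h : f * Polynomial.derivative g - g * Polynomial.derivative f = 0) :
    f = Polynomial.C (f.eval 0 / g.eval 0) * g := by
  set c := f.eval 0 / g.eval 0 with hc
  by_contra hne
  set R := f - Polynomial.C c * g with hR
  have hR0 : R ≠ 0 := by
    intro h0
    exact hne (sub_eq_zero.mp h0)
  have hRev : R.eval 0 = 0 := by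
    rw [hR, Polynomial.eval_sub, Polynomial.eval_mul, Polynomial.eval_C, hc, div_mul_cancel₀ _ hg, sub_self]
  have hw : R * Polynomial.derivative g = g * Polynomial.derivative R := by
    rw [hR]
    simp only [Polynomial.derivative_sub, Polynomial.derivative_mul, Polynomial.derivative_C, zero_mul, zero_add]
    linear_combination h
  obtain ⟨S, hS, hS0⟩ := Polynomial.exists_eq_pow_rootMultiplicity_mul_and_not_dvd R hR0 0
  set k := R.rootMultiplicity 0 with hk
  have hk1 : 0 < k := (Polynomial.rootMultiplicity_pos hR0).mpr hRev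
  obtain ⟨n, hn⟩ : ∃ n, k = n + 1 := ⟨k - 1, by omega⟩
  rw [hn] at hS
  rw [Polynomial.C_0, sub_zero] at hS hS0
  have hSe : S.eval 0 ≠ 0 := by
    intro h0
    exact hS0 (by rw [← Polynomial.coeff_zero_eq_eval_zero] at h0; exact Polynomial.X_dvd_iff.mpr h0)
  have h2 : Polynomial.X ^ n * (Polynomial.X * S * Polynomial.derivative g) =
      Polynomial.X ^ n * (g * (Polynomial.C ((n : ℂ) + 1) * S + Polynomial.X * Polynomial.derivative S)) := by
    have h3 := hw
    rw [hS] at h3
    rw [Polynomial.derivative_mul, Polynomial.derivative_X_pow] at h3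
    push_cast at h3
    simp only [Polynomial.C_add, Polynomial.C_1] at h3 ⊢
    linear_combination h3
  have h4 := mul_left_cancel₀ (pow_ne_zero n Polynomial.X_ne_zero) h2
  have h5 := congrArg (Polynomial.eval 0) h4
  simp only [Polynomial.eval_mul, Polynomial.eval_X, Polynomial.eval_add, Polynomial.eval_C, zero_mul, add_zero] at h5
  rcases mul_eq_zero.mp h5.symm with h6 | h6
  · exact hg h6
  · rcases mul_eq_zero.mp h6 with h7 | h7
    · exact Nat.cast_add_one_ne_zero n h7
    · exact hSe h7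

theorem exists_line {q₀ q₁ : Pol l} (h1 : q₁ ≠ 0) (h : ∀ c : ℂ, q₀ ≠ C c * q₁) : ∃ a b, wr a b q₀ q₁ ≠ 0 := by
  obtain ⟨z, hz⟩ : ∃ z, eval z q₁ ≠ 0 := by
    by_contra hcon
    push Not at hcon
    exact h1 (MvPolynomial.funext fun z => by rw [hcon z, map_zero])
  by_contra hcon
  push Not at hcon
  apply h (eval z q₀ / eval z q₁)
  apply MvPolynomial.funext
  intro y
  have h2 := hcon z (fun j => y j - z j)
  unfold wr at h2
  have he0 : ∀ P : Pol l, (line z (fun j => y j - z j) P).eval 0 = eval z P := by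
    intro P
    rw [eval_line]
    congr 2
    funext j
    ring
  have he1 : ∀ P : Pol l, (line z (fun j => y j - z j) P).eval 1 = eval y P := by
    intro P
    rw [eval_line]
    congr 2
    funext j
    ring
  have h3 := const_of_wronskian (by rw [he0]; exact hz) h2
  have h4 := congrArg (Polynomial.eval 1) h3
  rw [Polynomial.eval_mul, Polynomial.eval_C, he0, he0, he1, he1] at h4
  rw [h4, map_mul, eval_C]

/-- homogenisation -/
private noncomputable def hom2 (N : ℕ) (P : MvPolynomial (Fin 2) ℂ) : MvPolynomial (Fin 3) ℂ :=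
  ∑ m ∈ P.support, C (coeff m P) * (X 0 ^ m 0 * X 2 ^ m 1 * X 1 ^ (N - (m 0 + m 1)))

private theorem deg_le {P : MvPolynomial (Fin 2) ℂ} {m : Fin 2 →₀ ℕ} (hm : m ∈ P.support) :
    m 0 + m 1 ≤ P.totalDegree := by
  have h1 := MvPolynomial.le_totalDegree hm
  rw [Finsupp.sum_fintype _ _ (fun _ => rfl), Fin.sum_univ_two] at h1
  exact h1

private theorem hom2_hom {N : ℕ} {P : MvPolynomial (Fin 2) ℂ} (hP : P.totalDegree ≤ N) : (hom2 N P).IsHomogeneous N := by
  unfold hom2
  refine IsHomogeneous.sum _ _ _ fun m hm => ?_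
  have h1 := (deg_le hm).trans hP
  have h2 : (X 0 ^ m 0 * X 2 ^ m 1 * X 1 ^ (N - (m 0 + m 1)) : MvPolynomial (Fin 3) ℂ).IsHomogeneous
      (1 * m 0 + 1 * m 1 + 1 * (N - (m 0 + m 1))) :=
    (((isHomogeneous_X ℂ 0).pow _).mul ((isHomogeneous_X ℂ 2).pow _)).mul ((isHomogeneous_X ℂ 1).pow _)
  have h3 := (isHomogeneous_C (Fin 3) (coeff m P)).mul h2
  have h4 : 0 + (1 * m 0 + 1 * m 1 + 1 * (N - (m 0 + m 1))) = N := by omega
  rwa [h4] at h3

private theorem hom2_eval {L : Type*} [Field L] [Algebra ℂ L] {N : ℕ} {P : MvPolynomial (Fin 2) ℂ}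
    (hP : P.totalDegree ≤ N) {x : Fin 3 → L} (hx : x 1 ≠ 0) :
    aeval x (hom2 N P) = x 1 ^ N * aeval ![x 0 / x 1, x 2 / x 1] P := by
  unfold hom2
  rw [map_sum]
  conv_rhs => rw [P.as_sum, map_sum, Finset.mul_sum]
  refine Finset.sum_congr rfl fun m hm => ?_
  have h1 := (deg_le hm).trans hP
  rw [aeval_monomial, Finsupp.prod_fintype _ _ (fun _ => pow_zero _), Fin.prod_univ_two]
  simp only [map_mul, map_pow, aeval_X, algHom_C, Matrix.cons_val_zero, Matrix.cons_val_one]
  have h2 : x 1 ^ N = x 1 ^ m 0 * x 1 ^ m 1 * x 1 ^ (N - (m 0 + m 1)) := by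
    rw [← pow_add, ← pow_add]
    congr 1
    omega
  rw [h2, div_pow, div_pow]
  field_simp

theorem exists_theta {q : Fin 3 → Pol l} (hJ : ∀ v w, jac q v w = 0) {a b : Fin l → ℂ} (hC : wr a b (q 0) (q 1) ≠ 0) :
    ∃ Θ : IntermediateField.adjoin ℂ {fb a b (q 0) (q 1), fb a b (q 2) (q 1)} →ₐ[ℂ] FractionRing (Pol l),
      Θ ⟨fb a b (q 0) (q 1), IntermediateField.subset_adjoin _ _ (by simp)⟩ = fr (q 0) (q 1) ∧
      Θ ⟨fb a b (q 2) (q 1), IntermediateField.subset_adjoin _ _ (by simp)⟩ = fr (q 2) (q 1) := by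
  have hl1 : line a b (q 1) ≠ 0 := by
    intro h0
    apply hC
    unfold wr
    rw [h0, Polynomial.derivative_zero, mul_zero, zero_mul, sub_zero]
  have hq1 : q 1 ≠ 0 := by
    intro h0
    apply hl1
    rw [h0, map_zero]
  have hK : (algebraMap (Pol l) (FractionRing (Pol l)) (q 1)) ≠ 0 := by
    intro h0
    exact hq1 ((IsFractionRing.injective (Pol l) (FractionRing (Pol l))) (by rw [h0, map_zero]))
  have hR : (algebraMap (Polynomial ℂ) (RatFunc ℂ) (line a b (q 1))) ≠ 0 := by
    intro h0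
    exact hl1 ((IsFractionRing.injective (Polynomial ℂ) (RatFunc ℂ)) (by rw [h0, map_zero]))
  -- the kernels agree
  have hker : ∀ P : MvPolynomial (Fin 2) ℂ,
      aeval ![fr (q 0) (q 1), fr (q 2) (q 1)] P = 0 ↔ aeval ![fb a b (q 0) (q 1), fb a b (q 2) (q 1)] P = 0 := by
    intro P
    have e1 := hom2_eval (x := fun j => algebraMap (Pol l) (FractionRing (Pol l)) (q j)) (le_refl P.totalDegree) hK
    have e2 := hom2_eval (x := fun j => algebraMap (Polynomial ℂ) (RatFunc ℂ) (line a b (q j)))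
      (le_refl P.totalDegree) hR
    have e3 := lemV_iff hJ hC (hom2_hom (le_refl P.totalDegree))
    have e4 : aeval (fun j => algebraMap (Pol l) (FractionRing (Pol l)) (q j)) (hom2 P.totalDegree P) =
        algebraMap (Pol l) (FractionRing (Pol l)) (aeval q (hom2 P.totalDegree P)) :=
      MvPolynomial.aeval_algebraMap_apply (FractionRing (Pol l)) q _
    have e5 : aeval (fun j => algebraMap (Polynomial ℂ) (RatFunc ℂ) (line a b (q j))) (hom2 P.totalDegree P) =
        algebraMap (Polynomial ℂ) (RatFunc ℂ) (aeval (fun j => line a b (q j)) (hom2 P.totalDegree P)) :=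
      MvPolynomial.aeval_algebraMap_apply (RatFunc ℂ) (fun j => line a b (q j)) _
    have f1 : aeval ![fr (q 0) (q 1), fr (q 2) (q 1)] P = 0 ↔ aeval q (hom2 P.totalDegree P) = 0 := by
      rw [← map_eq_zero_iff _ (IsFractionRing.injective (Pol l) (FractionRing (Pol l))), ← e4, e1]
      unfold fr
      constructor
      · intro h0
        rw [h0, mul_zero]
      · intro h0
        exact (mul_eq_zero.mp h0).resolve_left (pow_ne_zero _ hK)
    have f2 : aeval ![fb a b (q 0) (q 1), fb a b (q 2) (q 1)] P = 0 ↔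
        aeval (fun j => line a b (q j)) (hom2 P.totalDegree P) = 0 := by
      rw [← map_eq_zero_iff _ (IsFractionRing.injective (Polynomial ℂ) (RatFunc ℂ)), ← e5, e2]
      unfold fb
      constructor
      · intro h0
        rw [h0, mul_zero]
      · intro h0
        exact (mul_eq_zero.mp h0).resolve_left (pow_ne_zero _ hR)
    rw [f1, f2, e3]
  -- the surjection onto the algebra
  set S : Set (RatFunc ℂ) := {fb a b (q 0) (q 1), fb a b (q 2) (q 1)} with hS
  set φ₂ : MvPolynomial (Fin 2) ℂ →ₐ[ℂ] RatFunc ℂ := aeval ![fb a b (q 0) (q 1), fb a b (q 2) (q 1)] with hφ₂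
  set φ₁ : MvPolynomial (Fin 2) ℂ →ₐ[ℂ] FractionRing (Pol l) := aeval ![fr (q 0) (q 1), fr (q 2) (q 1)] with hφ₁
  have hrange : Algebra.adjoin ℂ S = φ₂.range := by
    rw [hφ₂, ← Algebra.adjoin_range_eq_range_aeval]
    congr 1
    rw [hS, Matrix.range_cons, Matrix.range_cons, Matrix.range_empty, Set.union_empty, Set.singleton_union]
  have hmem : ∀ P, φ₂ P ∈ Algebra.adjoin ℂ S := fun P => by rw [hrange]; exact ⟨P, rfl⟩
  let π : MvPolynomial (Fin 2) ℂ →ₐ[ℂ] Algebra.adjoin ℂ S := φ₂.codRestrict _ hmem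
  have hπ : Function.Surjective π := by
    rintro ⟨y, hy⟩
    have hy' := hy
    rw [hrange] at hy'
    obtain ⟨P, hP⟩ := hy'
    exact ⟨P, Subtype.ext hP⟩
  have hπval : ∀ P, ((π P : Algebra.adjoin ℂ S) : RatFunc ℂ) = φ₂ P := fun P => rfl
  have hπ0 : ∀ P, π P = 0 ↔ φ₁ P = 0 := by
    intro P
    rw [hker P, ← hπval]
    exact ⟨fun h => by rw [h]; rfl, fun h => Subtype.ext h⟩
  let ψ : Algebra.adjoin ℂ S →ₐ[ℂ] FractionRing (Pol l) :=
    AlgHom.liftOfSurjective π hπ φ₁ (fun P hP => (hπ0 P).mp hP)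
  have hψ : ∀ P, ψ (π P) = φ₁ P := fun P => AlgHom.liftOfSurjective_apply _ _ _ _ _
  have hψinj : Function.Injective ψ := by
    rw [injective_iff_map_eq_zero]
    intro y hy
    obtain ⟨P, rfl⟩ := hπ y
    rw [hψ] at hy
    exact (hπ0 P).mpr hy
  open scoped IntermediateField.algebraAdjoinAdjoin in
  refine ⟨IsFractionRing.liftAlgHom (K := IntermediateField.adjoin ℂ S) hψinj, ?_, ?_⟩
  · have h1 : (⟨fb a b (q 0) (q 1), IntermediateField.subset_adjoin _ _ (by simp [hS])⟩ : IntermediateField.adjoin ℂ S) =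
        algebraMap (Algebra.adjoin ℂ S) (IntermediateField.adjoin ℂ S) (π (X 0)) := by
      apply Subtype.ext
      rw [IntermediateField.algebraAdjoinAdjoin.coe_algebraMap, hπval, hφ₂, aeval_X]
      rfl
    rw [h1, IsFractionRing.liftAlgHom_apply, IsFractionRing.lift_algebraMap]
    change ψ (π (X 0)) = _
    rw [hψ, hφ₁, aeval_X]
    rfl
  · have h1 : (⟨fb a b (q 2) (q 1), IntermediateField.subset_adjoin _ _ (by simp [hS])⟩ : IntermediateField.adjoin ℂ S) =
        algebraMap (Algebra.adjoin ℂ S) (IntermediateField.adjoin ℂ S) (π (X 1)) := by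
      apply Subtype.ext
      rw [IntermediateField.algebraAdjoinAdjoin.coe_algebraMap, hπval, hφ₂, aeval_X]
      rfl
    rw [h1, IsFractionRing.liftAlgHom_apply, IsFractionRing.lift_algebraMap]
    change ψ (π (X 1)) = _
    rw [hψ, hφ₁, aeval_X]
    rfl

end MFib
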