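import Pool.Agent.Lib.MFib.PLin

/-!
# PV (about 250 lines): Lemma V, a homogeneous relation on a line holds everywhere

Let `c : Fin l → ℂ`, `pl : Pol l →ₐ[ℂ] Polynomial (Polynomial ℂ)` (or `MvPolynomial (Fin 2) ℂ`, or `ℂ[t][s]`), `z_j ↦ a_j + t b_j + s c_j`
(`t` inner variable, `s` outer variable), `Φ = pl (aeval q W)`, i.e. `W(q(a + t b + s c))`.  Derivations: `∂_s = Polynomial.derivative`, `∂_t` =
coefficientwise derivative (`derivative'.mapCoeffs` as in Mathlib/Algebra/Polynomial/Bivariate.lean, or define it as a linear map and prove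
Leibniz).  Chain rules: `∂_t (pl P) = pl (dd b P)`, `∂_s (pl P) = pl (dd c P)` (check on `C`, `X`, products: `MvPolynomial.induction_on`, or
`MvPolynomial.derivation_ext`).
Suppose `Φ ≠ 0`, `Φ = s^k Φ_k + ...` with `Φ_k ≠ 0` in `ℂ[t]` (`k = natTrailingDegree`); `k ≥ 1` as `Φ(t,0) = W(line q) = 0` (hypothesis `h0`).
Put `Q_j = pl (q j)`, `A = ∂_t Q_0 ∂_s Q_1 - ∂_t Q_1 ∂_s Q_0`, `B = -(Q_0 ∂_s Q_1 - Q_1 ∂_s Q_0)`, `C = Q_0 ∂_t Q_1 - Q_1 ∂_t Q_0`.
Then `A Q_j + B ∂_t Q_j + C ∂_s Q_j = 0` for `j = 0, 1` (`ring`) and for `j = 2` this is `pl (jac q b c) = 0`.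
Chain rule for `W`: `∂_s Φ = ∑ j, pl(aeval q (pderiv j W)) * ∂_s Q_j`, same for `∂_t`, and Euler (`IsHomogeneous.sum_X_mul_pderiv`):
`∑ j, pl(aeval q (pderiv j W)) * Q_j = n Φ`.  So `C ∂_s Φ = - n A Φ - B ∂_t Φ`.
Compare the coefficients of `s^(k-1)`: right side is divisible by `s^k`; left side: `C(t,0) * k * Φ_k`, `C(t,0) = wr a b (q 0) (q 1) ≠ 0`,
`k ≥ 1`, `Φ_k ≠ 0`: contradiction.  So `Φ = 0`; put `t = 0`, `s = 1`: `W(q(a + c)) = 0` for all `c`; `MvPolynomial.funext`.
(The homogeneity of `q` is not needed.)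
`lemV_iff`: the converse is trivial (`line a b` is an algebra map).
-/

set_option autoImplicit false

namespace MFib

open MvPolynomial

variable {l : ℕ}

/-- the plane `a + t b + s c`, `t` inner, `s` outer variable -/
private noncomputable def pl (a b c : Fin l → ℂ) : Pol l →ₐ[ℂ] Polynomial (Polynomial ℂ) :=
  MvPolynomial.aeval (fun j => Polynomial.C (Polynomial.C (a j) + Polynomial.C (b j) * Polynomial.X) +
    Polynomial.C (Polynomial.C (c j)) * Polynomial.X)

private theorem dd_mulX (v : Fin l → ℂ) (P : Pol l) (j : Fin l) : dd v (P * X j) = dd v P * X j + P * C (v j) := by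
  rw [dd_mul]
  congr 1
  congr 1
  unfold dd
  rw [Finset.sum_eq_single j]
  · rw [pderiv_X_self, mul_one]
  · intro k _ hk
    rw [pderiv_X_of_ne (Ne.symm hk), mul_zero]
  · intro hj
    exact absurd (Finset.mem_univ j) hj

private theorem pl_mulX (a b c : Fin l → ℂ) (P : Pol l) (j : Fin l) : pl a b c (P * X j) =
    pl a b c P * Polynomial.C (Polynomial.C (a j) + Polynomial.C (b j) * Polynomial.X) +
      pl a b c P * Polynomial.C (Polynomial.C (c j)) * Polynomial.X := by
  rw [map_mul]
  have h1 : pl a b c (X j) = Polynomial.C (Polynomial.C (a j) + Polynomial.C (b j) * Polynomial.X) +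
    Polynomial.C (Polynomial.C (c j)) * Polynomial.X := by
    unfold pl
    rw [MvPolynomial.aeval_X]
  rw [h1]
  ring

private theorem pl_C (a b c : Fin l → ℂ) (x : ℂ) : pl a b c (C x) = Polynomial.C (Polynomial.C x) := by
  unfold pl
  rw [MvPolynomial.aeval_C]
  rfl

private theorem pl_dt (a b c : Fin l → ℂ) (P : Pol l) :
    ∀ k, (pl a b c (dd b P)).coeff k = Polynomial.derivative ((pl a b c P).coeff k) := by
  induction P using MvPolynomial.induction_on with
  | C x =>
    intro k
    rw [dd_C, map_zero, pl_C, Polynomial.coeff_zero, Polynomial.coeff_C]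
    split_ifs <;> simp
  | add P R hP hR =>
    intro k
    rw [dd_add, map_add, map_add, Polynomial.coeff_add, Polynomial.coeff_add, hP, hR, Polynomial.derivative_add]
  | mul_X P j hP =>
    intro k
    rw [dd_mulX, map_add, pl_mulX, pl_mulX, map_mul, pl_C]
    rcases k with _ | k
    · simp only [Polynomial.coeff_add, Polynomial.coeff_mul_C, Polynomial.coeff_mul_X_zero, hP, Polynomial.derivative_add,
        Polynomial.derivative_mul, Polynomial.derivative_C, Polynomial.derivative_X, Polynomial.derivative_zero]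
      ring
    · simp only [Polynomial.coeff_add, Polynomial.coeff_mul_C, Polynomial.coeff_mul_X, hP, Polynomial.derivative_add,
        Polynomial.derivative_mul, Polynomial.derivative_C, Polynomial.derivative_X]
      ring

private theorem pl_ds (a b c : Fin l → ℂ) (P : Pol l) :
    pl a b c (dd c P) = Polynomial.derivative (pl a b c P) := by
  induction P using MvPolynomial.induction_on with
  | C x =>
    rw [dd_C, map_zero, pl_C, Polynomial.derivative_C]
  | add P R hP hR =>
    rw [dd_add, map_add, map_add, hP, hR, Polynomial.derivative_add]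
  | mul_X P j hP =>
    rw [dd_mulX, map_add, pl_mulX, pl_mulX, map_mul, pl_C, hP]
    simp only [Polynomial.derivative_add, Polynomial.derivative_mul, Polynomial.derivative_C, Polynomial.derivative_X]
    ring

private theorem pl_zero (a b c : Fin l → ℂ) (P : Pol l) : (pl a b c P).coeff 0 = line a b P := by
  induction P using MvPolynomial.induction_on with
  | C x =>
    rw [pl_C, Polynomial.coeff_C_zero]
    unfold line
    rw [MvPolynomial.aeval_C]
    rfl
  | add P R hP hR =>
    rw [map_add, Polynomial.coeff_add, hP, hR, map_add]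
  | mul_X P j hP =>
    rw [pl_mulX, map_mul]
    have h1 : line a b (X j) = Polynomial.C (a j) + Polynomial.C (b j) * Polynomial.X := by
      unfold line
      rw [MvPolynomial.aeval_X]
    rw [h1]
    simp only [Polynomial.coeff_add, Polynomial.coeff_mul_C, Polynomial.coeff_mul_X_zero, hP, add_zero]

private theorem pl_one (a b c : Fin l → ℂ) (P : Pol l) :
    ((pl a b c P).eval 1).eval 0 = eval (a + c) P := by
  induction P using MvPolynomial.induction_on with
  | C x =>
    rw [pl_C, Polynomial.eval_C, Polynomial.eval_C, eval_C]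
  | add P R hP hR =>
    rw [map_add, Polynomial.eval_add, Polynomial.eval_add, hP, hR, map_add]
  | mul_X P j hP =>
    rw [pl_mulX, map_mul, eval_X]
    simp only [Polynomial.eval_add, Polynomial.eval_mul, Polynomial.eval_C, Polynomial.eval_X, Polynomial.eval_one,
      hP, Pi.add_apply]
    ring

private theorem dd_comp (q : Fin 3 → Pol l) (v : Fin l → ℂ) (W : MvPolynomial (Fin 3) ℂ) :
    dd v (aeval q W) = ∑ j, aeval q (pderiv j W) * dd v (q j) := by
  induction W using MvPolynomial.induction_on with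
  | C x =>
    rw [MvPolynomial.aeval_C]
    have h1 : dd v ((algebraMap ℂ (Pol l)) x) = 0 := dd_C v x
    rw [h1]
    symm
    refine Finset.sum_eq_zero fun j _ => ?_
    rw [pderiv_C, map_zero, zero_mul]
  | add P R hP hR =>
    rw [map_add, dd_add, hP, hR, ← Finset.sum_add_distrib]
    refine Finset.sum_congr rfl fun j _ => ?_
    rw [map_add, map_add]
    ring
  | mul_X P i hP =>
    rw [map_mul, dd_mul, hP, MvPolynomial.aeval_X]
    have h1 : ∀ j, aeval q (pderiv j (P * X i)) * dd v (q j) = aeval q (pderiv j P) * dd v (q j) * q i +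
        aeval q P * (if j = i then dd v (q i) else 0) := by
      intro j
      rw [pderiv_mul, map_add, map_mul, map_mul, MvPolynomial.aeval_X]
      split_ifs with hji
      · rw [hji, pderiv_X_self, map_one]
        ring
      · rw [pderiv_X_of_ne (Ne.symm hji), map_zero]
        ring
    rw [Finset.sum_congr rfl fun j _ => h1 j, Finset.sum_add_distrib, ← Finset.sum_mul, ← Finset.mul_sum,
      Finset.sum_ite_eq' Finset.univ i (fun _ => dd v (q i))]
    simp

private theorem key_rel {q : Fin 3 → Pol l} (hJ : ∀ v w, jac q v w = 0) (b c : Fin l → ℂ)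
    {W : MvPolynomial (Fin 3) ℂ} {n : ℕ} (hW : W.IsHomogeneous n) :
    (q 0 * dd b (q 1) - q 1 * dd b (q 0)) * dd c (aeval q W) =
      -((dd b (q 0) * dd c (q 1) - dd b (q 1) * dd c (q 0)) * (n * aeval q W)) +
        (q 0 * dd c (q 1) - q 1 * dd c (q 0)) * dd b (aeval q W) := by
  have hE : ∑ j, aeval q (pderiv j W) * q j = n * aeval q W := by
    have h1 := congrArg (aeval q) hW.sum_X_mul_pderiv
    rw [map_sum, nsmul_eq_mul, map_mul, map_natCast] at h1
    rw [← h1]
    refine Finset.sum_congr rfl fun j _ => ?_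
    rw [map_mul, MvPolynomial.aeval_X, mul_comm]
  have hj := hJ b c
  unfold jac at hj
  rw [← hE, dd_comp, dd_comp, Fin.sum_univ_three, Fin.sum_univ_three, Fin.sum_univ_three]
  linear_combination (aeval q (pderiv 2 W)) * hj

private theorem pl_aeval_eq_zero {q : Fin 3 → Pol l} (hJ : ∀ v w, jac q v w = 0) {a b : Fin l → ℂ} (hC : wr a b (q 0) (q 1) ≠ 0)
    {W : MvPolynomial (Fin 3) ℂ} {n : ℕ} (hW : W.IsHomogeneous n) (h0 : line a b (aeval q W) = 0) (c : Fin l → ℂ) :
    pl a b c (aeval q W) = 0 := by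
  by_contra hne
  set Φ := pl a b c (aeval q W) with hΦ
  have hX : (Polynomial.X : Polynomial (Polynomial ℂ)) ∣ Φ := by
    rw [Polynomial.X_dvd_iff, hΦ, pl_zero, h0]
  obtain ⟨k, Ψ, hΨ, hk⟩ : ∃ k, ∃ Ψ : Polynomial (Polynomial ℂ), ¬ Polynomial.X ∣ Ψ ∧ Φ = Polynomial.X ^ k * Ψ := by
    obtain ⟨k, Ψ, h1, h2⟩ := WfDvdMonoid.max_power_factor hne Polynomial.irreducible_X
    exact ⟨k, Ψ, h1, h2⟩
  obtain ⟨k, rfl⟩ : ∃ k', k = k' + 1 := by
    rcases k with _ | k
    · exfalso
      apply hΨ
      rwa [hk, pow_zero, one_mul] at hX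
    · exact ⟨k, rfl⟩
  have hrel := congrArg (pl a b c) (key_rel hJ b c hW)
  simp only [map_mul, map_add, map_sub, map_neg, map_natCast, pl_ds, ← hΦ] at hrel
  -- the t-derivative is divisible
  have hdt : (Polynomial.X : Polynomial (Polynomial ℂ)) ^ (k + 1) ∣ pl a b c (dd b (aeval q W)) := by
    rw [Polynomial.X_pow_dvd_iff]
    intro d hd
    rw [pl_dt, ← hΦ]
    have h1 : (Polynomial.X : Polynomial (Polynomial ℂ)) ^ (k + 1) ∣ Φ := ⟨Ψ, hk⟩
    rw [Polynomial.X_pow_dvd_iff] at h1
    rw [h1 d hd, Polynomial.derivative_zero]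
  obtain ⟨T, hT⟩ := hdt
  rw [hT, hk, Polynomial.derivative_mul, Polynomial.derivative_X_pow] at hrel
  set C0 := pl a b c (q 0) * pl a b c (dd b (q 1)) - pl a b c (q 1) * pl a b c (dd b (q 0)) with hC0
  have hC0' : C0.coeff 0 = wr a b (q 0) (q 1) := by
    rw [hC0, Polynomial.coeff_sub, Polynomial.mul_coeff_zero, Polynomial.mul_coeff_zero, pl_dt, pl_dt, pl_zero, pl_zero]
    rfl
  have hdiv : (Polynomial.X : Polynomial (Polynomial ℂ)) ∣ C0 * ((((k + 1 : ℕ)) : Polynomial (Polynomial ℂ)) * Ψ) := by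
    have hXk : (Polynomial.X : Polynomial (Polynomial ℂ)) ^ k ≠ 0 := pow_ne_zero _ Polynomial.X_ne_zero
    rw [← mul_dvd_mul_iff_left hXk, ← pow_succ]
    refine ⟨-((pl a b c (dd b (q 0)) * Polynomial.derivative (pl a b c (q 1)) -
      pl a b c (dd b (q 1)) * Polynomial.derivative (pl a b c (q 0))) * (n * Ψ)) +
      (pl a b c (q 0) * Polynomial.derivative (pl a b c (q 1)) -
        pl a b c (q 1) * Polynomial.derivative (pl a b c (q 0))) * T - C0 * Polynomial.derivative Ψ, ?_⟩
    have h2 : (Polynomial.C (((k + 1 : ℕ)) : Polynomial ℂ) : Polynomial (Polynomial ℂ)) = ((k + 1 : ℕ) : Polynomial (Polynomial ℂ)) := by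
      rw [map_natCast]
    rw [h2] at hrel
    simp only [Nat.add_sub_cancel] at hrel
    linear_combination hrel
  rcases Polynomial.prime_X.dvd_or_dvd hdiv with h | h
  · rw [Polynomial.X_dvd_iff, hC0'] at h
    exact hC h
  · rcases Polynomial.prime_X.dvd_or_dvd h with h' | h'
    · rw [Polynomial.X_dvd_iff, Polynomial.natCast_coeff_zero] at h'
      exact Nat.succ_ne_zero k (by exact_mod_cast h')
    · exact hΨ h'

private theorem line_aeval (a b : Fin l → ℂ) (q : Fin 3 → Pol l) (W : MvPolynomial (Fin 3) ℂ) :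
    aeval (fun j => line a b (q j)) W = line a b (aeval q W) := by
  have h1 : (line a b).comp (aeval q) = aeval (fun j => line a b (q j)) := by
    apply MvPolynomial.algHom_ext
    intro j
    simp
  rw [← h1]
  rfl

theorem lemV {q : Fin 3 → Pol l} (hJ : ∀ v w, jac q v w = 0) {a b : Fin l → ℂ} (hC : wr a b (q 0) (q 1) ≠ 0)
    {W : MvPolynomial (Fin 3) ℂ} {n : ℕ} (hW : W.IsHomogeneous n) (h0 : aeval (fun j => line a b (q j)) W = 0) :
    aeval q W = 0 := by
  rw [line_aeval] at h0
  apply MvPolynomial.funext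
  intro z
  have h1 := pl_aeval_eq_zero hJ hC hW h0 (z - a)
  have h2 := pl_one a b (z - a) (aeval q W)
  rw [h1, Polynomial.eval_zero, Polynomial.eval_zero] at h2
  rw [map_zero]
  have h3 : a + (z - a) = z := by abel
  rw [h3] at h2
  exact h2.symm

theorem lemV_iff {q : Fin 3 → Pol l} (hJ : ∀ v w, jac q v w = 0) {a b : Fin l → ℂ} (hC : wr a b (q 0) (q 1) ≠ 0)
    {W : MvPolynomial (Fin 3) ℂ} {n : ℕ} (hW : W.IsHomogeneous n) :
    aeval (fun j => line a b (q j)) W = 0 ↔ aeval q W = 0 := by
  constructor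
  · exact lemV hJ hC hW
  · intro h
    rw [line_aeval, h, map_zero]

end MFib
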