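import Pool.Agent.Lib.MFib.PQ

/-!
# PWedge (about 280 lines): the Jacobian identity of a multinet

`wedge_zero`.  Fix `z` with all `α k z ≠ 0`; `w_k(v) := α k v / α k z` (linear form in `v`, `w_k(z) = 1`).
`s_k := m_k ([c k = 0] - [c k = 2])`, `t_k := m_k ([c k = 1] - [c k = 2])` (complex numbers).  Then `la 0 - la 2 = ∑ s_k w_k`,
`la 1 - la 2 = ∑ t_k w_k` and the claim is
  `∑_{k,l} s_k t_l (w_k(v) w_l(w) - w_k(w) w_l(v)) = 0`   (sum over ordered pairs; the diagonal terms vanish).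
Group the pairs `(k,l)`, `k ≠ l`, by the submodule `X = ker α_k ⊓ ker α_l` (finite sum over the image of this map on pairs;
`Finset.sum_fiberwise_of_maps_to`).  For a fixed `X` (in the image) the pairs `(k,l)`, `k ≠ l`, with `ker α_k ⊓ ker α_l = X` are exactly the
pairs of distinct indices with `X ≤ ker α_k`, `X ≤ ker α_l` (`flat_eq`, twice: if `X = ker α_i ⊓ ker α_j`, `i ≠ j`, and `k ≠ l` contain X: one of
`k, l` is different from `i`, say; then `ker α_i ⊓ ker α_k = X` if `k ≠ i`, and from `X = ker α_i ⊓ ker α_k ≤ ker α_l`: `ker α_k ⊓ ker α_l = X`).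
So the `X`-part is `f(v) g(w) - f(w) g(v)` with `f = ∑_{k ∋ X} s_k w_k`, `g = ∑_{k ∋ X} t_k w_k` (the diagonal terms are zero again).
* `X ∉ N.X`: by `cross` all `k ∋ X` have the same class: for `k ≠ l` both containing `X`, `ker α_k ⊓ ker α_l = X ∉ N.X`, so `c k = c l`.
  So `s_k = ε m_k`, `t_k = δ m_k` on them with constants `ε, δ`: `f = ε S`, `g = δ S`: the part is 0.
* `X ∈ N.X`: `f` and `g` vanish on `X = ker α_i ⊓ ker α_j` and at the vector `z` (`f(z) = ∑_{k ∋ X} s_k = 0` by `sum_flat`); lemma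
  `prop_forms`: then `f(v) g(w) = f(w) g(v)`.
`prop_forms`: for `u` with `α_i u = 0`, `α_j u = 1` (exists since the kernels differ) and `x` in `ker α_i`: `x - α_j x • u ∈ X`, so
`f x = α_j x * f u`.  For general `v`: `v - (α_i v / α_i z) • z ∈ ker α_i`, so `f v = φ v * f u`, `φ v = α_j v - α_i v * α_j z / α_i z`; same for `g`.

`jac_zero`: by `eq_zero_of_generic`; at a generic point divide by `q_0 q_1 q_2`: `eval_dd_qq` gives
`eval z (jac q v w) = q_0 q_1 q_2 * [(l_1(v) l_2(w) - l_1(w) l_2(v)) + cyclic]` and the bracket is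
`(l_0 - l_2)(v) (l_1 - l_2)(w) - (l_0 - l_2)(w) (l_1 - l_2)(v)` (`ring`).
-/

set_option autoImplicit false

namespace MFib

open MvPolynomial

variable {l : ℕ} {ι : Type} [Fintype ι] {α : ι → Module.Dual ℂ (Fin l → ℂ)}

theorem prop_forms {β γ f g : Module.Dual ℂ (Fin l → ℂ)} (h : LinearMap.ker β ≠ LinearMap.ker γ) (hβ : β ≠ 0) (hγ : γ ≠ 0)
    {z : Fin l → ℂ} (hz : β z ≠ 0) (hf : LinearMap.ker β ⊓ LinearMap.ker γ ≤ LinearMap.ker f)
    (hg : LinearMap.ker β ⊓ LinearMap.ker γ ≤ LinearMap.ker g) (hfz : f z = 0) (hgz : g z = 0) (v w : Fin l → ℂ) :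
    f v * g w = f w * g v := by
  have hu0 : ∃ u, β u = 0 ∧ γ u ≠ 0 := by
    by_contra hne
    push Not at hne
    exact h (ker_eq_of_le hβ hγ fun x hx => by
      rw [LinearMap.mem_ker] at hx ⊢
      exact hne x hx)
  obtain ⟨u0, hu1, hu2⟩ := hu0
  obtain ⟨u, hu, hu'⟩ : ∃ u, β u = 0 ∧ γ u = 1 := by
    refine ⟨(γ u0)⁻¹ • u0, ?_, ?_⟩
    · rw [map_smul, hu1, smul_zero]
    · rw [map_smul, smul_eq_mul, inv_mul_cancel₀ hu2]
  have key : ∀ e : Module.Dual ℂ (Fin l → ℂ), LinearMap.ker β ⊓ LinearMap.ker γ ≤ LinearMap.ker e → e z = 0 →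
      ∀ x, e x = (γ x - β x / β z * γ z) * e u := by
    intro e he hez x
    have h1 : x - (β x / β z) • z - (γ x - β x / β z * γ z) • u ∈ LinearMap.ker e := by
      apply he
      rw [Submodule.mem_inf, LinearMap.mem_ker, LinearMap.mem_ker]
      constructor
      · rw [map_sub, map_sub, map_smul, map_smul, hu, smul_eq_mul, smul_zero, div_mul_cancel₀ _ hz]
        ring
      · rw [map_sub, map_sub, map_smul, map_smul, hu', smul_eq_mul, smul_eq_mul]
        ring
    rw [LinearMap.mem_ker, map_sub, map_sub, map_smul, map_smul, hez, smul_zero, sub_zero, smul_eq_mul] at h1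
    exact sub_eq_zero.mp h1
  rw [key f hf hfz v, key f hf hfz w, key g hg hgz v, key g hg hgz w]
  ring

omit [Fintype ι] in
private theorem pair_flat (hα : ∀ i, α i ≠ 0) (hd : ∀ i j, i ≠ j → LinearMap.ker (α i) ≠ LinearMap.ker (α j)) {i j k m : ι}
    (hij : i ≠ j) (hkm : k ≠ m) (hk : LinearMap.ker (α i) ⊓ LinearMap.ker (α j) ≤ LinearMap.ker (α k))
    (hm : LinearMap.ker (α i) ⊓ LinearMap.ker (α j) ≤ LinearMap.ker (α m)) :
    LinearMap.ker (α k) ⊓ LinearMap.ker (α m) = LinearMap.ker (α i) ⊓ LinearMap.ker (α j) := by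
  by_cases hki : k = i
  · subst hki
    exact flat_eq (hα _) (hα _) (hα _) (hd _ _ hij) (hd _ _ hkm) hm
  · have h1 : LinearMap.ker (α i) ⊓ LinearMap.ker (α k) = LinearMap.ker (α i) ⊓ LinearMap.ker (α j) :=
      flat_eq (hα _) (hα _) (hα _) (hd _ _ hij) (hd _ _ (Ne.symm hki)) hk
    have h2 : LinearMap.ker (α k) ⊓ LinearMap.ker (α i) ≤ LinearMap.ker (α m) := by
      rw [inf_comm, h1]
      exact hm
    rw [flat_eq (hα _) (hα _) (hα _) (hd _ _ hki) (hd _ _ hkm) h2, inf_comm, h1]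

/-- the multiplicity with sign: `m k` for class `a`, `- m k` for class 2 -/
private noncomputable def sg (N : Multinet α) (a : Fin 3) (k : ι) : ℂ :=
  (if N.c k = a then (N.m k : ℂ) else 0) - (if N.c k = 2 then (N.m k : ℂ) else 0)

private theorem la_sub (N : Multinet α) (a : Fin 3) (z v : Fin l → ℂ) :
    la N a z v - la N 2 z v = ∑ k, sg N a k * (α k v / α k z) := by
  unfold la sg
  rw [← Finset.sum_sub_distrib]
  refine Finset.sum_congr rfl fun k _ => ?_
  by_cases h1 : N.c k = a <;> by_cases h2 : N.c k = 2 <;> simp [h1, h2, sub_mul]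

private theorem sum_sg (N : Multinet α) (Y : Submodule ℂ (Fin l → ℂ)) (hY : Y ∈ N.X) (a : Fin 3) (S : Finset ι)
    (hS : ∀ k, k ∈ S ↔ Y ≤ LinearMap.ker (α k)) : ∑ k ∈ S, sg N a k = 0 := by
  classical
  have h := N.sum_flat Y hY a 2
  unfold sg
  rw [Finset.sum_sub_distrib, sub_eq_zero]
  have h1 : ∀ b : Fin 3, (∑ k ∈ S, if N.c k = b then (N.m k : ℂ) else 0) =
      ((∑ i with N.c i = b ∧ Y ≤ LinearMap.ker (α i), N.m i : ℕ) : ℂ) := by
    intro b
    rw [← Finset.sum_filter, Nat.cast_sum]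
    refine Finset.sum_congr ?_ fun _ _ => rfl
    ext k
    simp only [Finset.mem_filter, Finset.mem_univ, true_and, hS]
    exact and_comm
  rw [h1, h1, h]

private theorem part_zero (hα : ∀ i, α i ≠ 0) (hd : ∀ i j, i ≠ j → LinearMap.ker (α i) ≠ LinearMap.ker (α j)) (N : Multinet α)
    {z : Fin l → ℂ} (hz : ∀ i, α i z ≠ 0) (v w : Fin l → ℂ) {i j : ι} (hij : i ≠ j) (S : Finset ι)
    (hS : ∀ k, k ∈ S ↔ LinearMap.ker (α i) ⊓ LinearMap.ker (α j) ≤ LinearMap.ker (α k)) :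
    (∑ k ∈ S, sg N 0 k * (α k v / α k z)) * (∑ k ∈ S, sg N 1 k * (α k w / α k z)) =
      (∑ k ∈ S, sg N 0 k * (α k w / α k z)) * (∑ k ∈ S, sg N 1 k * (α k v / α k z)) := by
  by_cases hX : LinearMap.ker (α i) ⊓ LinearMap.ker (α j) ∈ N.X
  · have hev : ∀ (a : Fin 3) (x : Fin l → ℂ), (∑ k ∈ S, (sg N a k / α k z) • α k) x = ∑ k ∈ S, sg N a k * (α k x / α k z) := by
      intro a x
      rw [LinearMap.sum_apply]
      refine Finset.sum_congr rfl fun k _ => ?_
      rw [LinearMap.smul_apply, smul_eq_mul]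
      ring
    have hker : ∀ a : Fin 3, LinearMap.ker (α i) ⊓ LinearMap.ker (α j) ≤ LinearMap.ker (∑ k ∈ S, (sg N a k / α k z) • α k) := by
      intro a x hx
      rw [LinearMap.mem_ker, hev]
      refine Finset.sum_eq_zero fun k hk => ?_
      have h1 : α k x = 0 := LinearMap.mem_ker.mp ((hS k).mp hk hx)
      rw [h1, zero_div, mul_zero]
    have hz0 : ∀ a : Fin 3, (∑ k ∈ S, (sg N a k / α k z) • α k) z = 0 := by
      intro a
      rw [hev, ← sum_sg N _ hX a S hS]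
      refine Finset.sum_congr rfl fun k _ => ?_
      rw [div_self (hz k), mul_one]
    have h := prop_forms (hd i j hij) (hα i) (hα j) (hz i) (hker 0) (hker 1) (hz0 0) (hz0 1) v w
    rwa [hev, hev, hev, hev] at h
  · have hc : ∀ k ∈ S, N.c k = N.c i := by
      intro k hk
      by_cases hki : k = i
      · rw [hki]
      · by_contra hne
        apply hX
        rw [← flat_eq (hα i) (hα j) (hα k) (hd _ _ hij) (hd _ _ (Ne.symm hki)) ((hS k).mp hk)]
        exact N.cross i k (Ne.symm hne)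
    have hs : ∀ (a : Fin 3) (x : Fin l → ℂ), ∑ k ∈ S, sg N a k * (α k x / α k z) =
        ((if N.c i = a then 1 else 0) - (if N.c i = 2 then 1 else 0)) * ∑ k ∈ S, (N.m k : ℂ) * (α k x / α k z) := by
      intro a x
      rw [Finset.mul_sum]
      refine Finset.sum_congr rfl fun k hk => ?_
      unfold sg
      rw [hc k hk]
      by_cases h1 : N.c i = a <;> by_cases h2 : N.c i = 2 <;> simp [h1, h2, sub_mul]
    rw [hs, hs, hs, hs]
    ring

theorem wedge_zero (hα : ∀ i, α i ≠ 0) (hd : ∀ i j, i ≠ j → LinearMap.ker (α i) ≠ LinearMap.ker (α j)) (N : Multinet α)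
    {z : Fin l → ℂ} (hz : ∀ i, α i z ≠ 0) (v w : Fin l → ℂ) :
    (la N 0 z v - la N 2 z v) * (la N 1 z w - la N 2 z w) = (la N 0 z w - la N 2 z w) * (la N 1 z v - la N 2 z v) := by
  classical
  rw [la_sub, la_sub, la_sub, la_sub, ← sub_eq_zero]
  have hexp : ∀ S : Finset ι, (∑ k ∈ S, sg N 0 k * (α k v / α k z)) * (∑ k ∈ S, sg N 1 k * (α k w / α k z)) -
      (∑ k ∈ S, sg N 0 k * (α k w / α k z)) * (∑ k ∈ S, sg N 1 k * (α k v / α k z)) =
      ∑ p ∈ S ×ˢ S, sg N 0 p.1 * sg N 1 p.2 * (α p.1 v / α p.1 z * (α p.2 w / α p.2 z) - α p.1 w / α p.1 z * (α p.2 v / α p.2 z)) := by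
    intro S
    rw [Finset.sum_mul_sum, Finset.sum_mul_sum, ← Finset.sum_sub_distrib, Finset.sum_product]
    refine Finset.sum_congr rfl fun k _ => ?_
    rw [← Finset.sum_sub_distrib]
    refine Finset.sum_congr rfl fun m _ => ?_
    ring
  rw [hexp]
  have hdiag : ∀ S : Finset ι, ∑ p ∈ S ×ˢ S, sg N 0 p.1 * sg N 1 p.2 *
      (α p.1 v / α p.1 z * (α p.2 w / α p.2 z) - α p.1 w / α p.1 z * (α p.2 v / α p.2 z)) =
      ∑ p ∈ (S ×ˢ S).filter (fun p => p.1 ≠ p.2), sg N 0 p.1 * sg N 1 p.2 *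
      (α p.1 v / α p.1 z * (α p.2 w / α p.2 z) - α p.1 w / α p.1 z * (α p.2 v / α p.2 z)) := by
    intro S
    symm
    apply Finset.sum_subset (Finset.filter_subset _ _)
    intro p hp hp'
    have h1 : p.1 = p.2 := by
      by_contra hne
      exact hp' (Finset.mem_filter.mpr ⟨hp, hne⟩)
    rw [h1]
    ring
  rw [hdiag, ← Finset.sum_fiberwise_of_maps_to (g := fun p : ι × ι => LinearMap.ker (α p.1) ⊓ LinearMap.ker (α p.2))
    (t := (((Finset.univ : Finset ι) ×ˢ Finset.univ).filter (fun p => p.1 ≠ p.2)).image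
      (fun p : ι × ι => LinearMap.ker (α p.1) ⊓ LinearMap.ker (α p.2))) (fun p hp => Finset.mem_image_of_mem _ hp)]
  refine Finset.sum_eq_zero fun Y hY => ?_
  obtain ⟨⟨i, j⟩, hp, rfl⟩ := Finset.mem_image.mp hY
  have hij : i ≠ j := (Finset.mem_filter.mp hp).2
  have hset : (((Finset.univ : Finset ι) ×ˢ Finset.univ).filter (fun p => p.1 ≠ p.2)).filter
      (fun p : ι × ι => LinearMap.ker (α p.1) ⊓ LinearMap.ker (α p.2) = LinearMap.ker (α i) ⊓ LinearMap.ker (α j)) =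
      ((Finset.univ.filter (fun k => LinearMap.ker (α i) ⊓ LinearMap.ker (α j) ≤ LinearMap.ker (α k))) ×ˢ
        (Finset.univ.filter (fun k => LinearMap.ker (α i) ⊓ LinearMap.ker (α j) ≤ LinearMap.ker (α k)))).filter
        (fun p => p.1 ≠ p.2) := by
    ext ⟨k, m⟩
    simp only [Finset.mem_filter, Finset.mem_product, Finset.mem_univ, true_and]
    constructor
    · rintro ⟨h1, h2⟩
      exact ⟨⟨h2 ▸ inf_le_left, h2 ▸ inf_le_right⟩, h1⟩
    · rintro ⟨⟨h1, h2⟩, h3⟩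
      exact ⟨h3, pair_flat hα hd hij h3 h1 h2⟩
  rw [hset, ← hdiag, ← hexp, sub_eq_zero]
  exact part_zero hα hd N hz v w hij _ fun k => by simp

theorem jac_zero (hα : ∀ i, α i ≠ 0) (hd : ∀ i j, i ≠ j → LinearMap.ker (α i) ≠ LinearMap.ker (α j)) (N : Multinet α)
    (v w : Fin l → ℂ) : jac (qq N) v w = 0 := by
  refine eq_zero_of_generic hα fun z hz => ?_
  have h := wedge_zero hα hd N hz v w
  simp only [jac, map_add, map_mul, map_sub, eval_dd_qq N _ hz]
  linear_combination (eval z (qq N 0) * eval z (qq N 1) * eval z (qq N 2)) * h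

end MFib
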