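import Pool.Agent.Lib.MFib.PGood

/-!
# RComb (about 250 lines): the combinatorics: all `s_i t_X = t_i s_X` imply that the multinets are the same

`sv N a b k = m_k ([c k = a] - [c k = b])`.  For `X = ker α_i ⊓ ker α_j`, `i ≠ j`, write `s_X` for the sum over `k` with `X ≤ ker α_k`.  Hypothesis `h`: `s_i t_X = t_i s_X`
for all `s = sv N a b`, `t = sv N' c d`.
(1) `X = ker α_i ⊓ ker α_j ∈ N'.X ⇒ X ∈ N.X`: `t_X = 0` for all `c, d` (`sum_flat`); choose `c = N'.c i`, `d ≠ c`: `t_i = m'_i ≠ 0`; so `s_X = 0` for all `a, b`.  Hence the class sums of `N` over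
    `k ∋ X` agree; with `a = N.c i` the sum is `≥ m_i > 0`, so all three classes of `N` have an element through `X`: `k ∋ X`, `N.c k ≠ N.c i`; `ker α_i ⊓ ker α_k = X` (`flat_eq`), in `N.X` by `cross`.
    By the symmetry of the hypothesis (swap `N, N'`: `t_i s_X = s_i t_X`) also `X ∈ N.X ⇒ X ∈ N'.X`.
(2) `N.c i = N.c j ⇒ N'.c i = N'.c j`: by `conn` a chain of steps `k → k'`, `N.c k = N.c k'`, `ker ⊓ ker ∉ N.X`; each step with `k ≠ k'` has `ker ⊓ ker ∉ N'.X` by (1) so `N'.c k = N'.c k'`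
    (`N'.cross`, contrapositive).  Symmetric.
(3) For a step `k → k'`, `k ≠ k'`, `X = ker α_k ⊓ ker α_k' ∉ N.X`: all members of `X` have the same class `a = N.c k` (for `N`: a member `r` with `N.c r ≠ N.c k` gives `X ∈ N.X` by `flat_eq`, `cross`) and the same class
    for `N'`.  With `s = sv N a b` (`b ≠ a`), `t = sv N' c d` (`c = N'.c k`, `d ≠ c`): `m_k M'_X = m'_k M_X` and `m_k' M'_X = m'_k' M_X`, `M_X = ∑_{r ∋ X} m_r > 0`.  So `m_k m'_k' = m_k' m'_k`.
    By `conn`: `m_i m'_j = m_j m'_i` whenever `N.c i = N.c j` (cancel positive numbers along the chain).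
(4) Sum over `j` in the class of `i` (the same for `N` and `N'`): `m_i d' = d m'_i` for all `i` (`sum_class` for `N` and `N'`).
    gcd over `i`: `gcd (m_i d') = d'`, `gcd (d m'_i) = d` (`Finset.gcd_mul_left/right`, `gcd_eq`): `d = d'`, `d > 0` (`ι` nonempty), so `m_i = m'_i`.
-/

set_option autoImplicit false

namespace MFib

open MvPolynomial

variable {l : ℕ} {ι : Type} [Fintype ι] {α : ι → Module.Dual ℂ (Fin l → ℂ)}

/-- the vector `m_k ([c k = a] - [c k = b])` -/
noncomputable def sv (N : Multinet α) (a b : Fin 3) (k : ι) : ℂ :=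
  (if N.c k = a then (N.m k : ℂ) else 0) - (if N.c k = b then (N.m k : ℂ) else 0)

open Classical in
/-- the sum of the multiplicities of a class over the hyperplanes through a flat -/
private noncomputable def sX (N : Multinet α) (X : Submodule ℂ (Fin l → ℂ)) (a : Fin 3) : ℕ :=
  ∑ k with N.c k = a ∧ X ≤ LinearMap.ker (α k), N.m k

open Classical in
private theorem sum_sv (N : Multinet α) (X : Submodule ℂ (Fin l → ℂ)) (a b : Fin 3) :
    (∑ k, if X ≤ LinearMap.ker (α k) then sv N a b k else 0) = (sX N X a : ℂ) - (sX N X b : ℂ) := by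
  unfold sX sv
  push_cast
  rw [Finset.sum_filter, Finset.sum_filter, ← Finset.sum_sub_distrib]
  refine Finset.sum_congr rfl fun k _ => ?_
  by_cases hX : X ≤ LinearMap.ker (α k)
  · simp [hX]
  · simp [hX]

open Classical in
/-- the symmetric hypothesis -/
private def HH (N N' : Multinet α) : Prop :=
  ∀ (a b c d : Fin 3) (i j : ι), i ≠ j →
    sv N a b i * ((sX N' (LinearMap.ker (α i) ⊓ LinearMap.ker (α j)) c : ℂ) -
      sX N' (LinearMap.ker (α i) ⊓ LinearMap.ker (α j)) d) =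
    sv N' c d i * ((sX N (LinearMap.ker (α i) ⊓ LinearMap.ker (α j)) a : ℂ) -
      sX N (LinearMap.ker (α i) ⊓ LinearMap.ker (α j)) b)

private theorem HH.symm {N N' : Multinet α} (h : HH N N') : HH N' N :=
  fun a b c d i j hij => (h c d a b i j hij).symm

private theorem sv_self (N : Multinet α) {k : ι} {a b : Fin 3} (ha : N.c k = a) (hb : b ≠ a) :
    sv N a b k = N.m k := by
  unfold sv
  rw [if_pos ha, if_neg (by rw [ha]; exact hb.symm), sub_zero]

private theorem exists_other (a : Fin 3) : ∃ b : Fin 3, b ≠ a := by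
  revert a
  decide

private theorem claim_one (hα : ∀ i, α i ≠ 0) (hd : ∀ i j, i ≠ j → LinearMap.ker (α i) ≠ LinearMap.ker (α j))
    {N N' : Multinet α} (h : HH N N') {i j : ι} (hij : i ≠ j)
    (hX : LinearMap.ker (α i) ⊓ LinearMap.ker (α j) ∈ N'.X) : LinearMap.ker (α i) ⊓ LinearMap.ker (α j) ∈ N.X := by
  classical
  obtain ⟨d, hd'⟩ := exists_other (N'.c i)
  obtain ⟨b, hb⟩ := exists_other (N.c i)
  have h1 := h (N.c i) b (N'.c i) d i j hij
  have h2 : sX N' (LinearMap.ker (α i) ⊓ LinearMap.ker (α j)) (N'.c i) =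
      sX N' (LinearMap.ker (α i) ⊓ LinearMap.ker (α j)) d := N'.sum_flat _ hX _ _
  rw [h2, sub_self, mul_zero, sv_self N' rfl hd'] at h1
  have hm : (N'.m i : ℂ) ≠ 0 := Nat.cast_ne_zero.mpr (N'.m_pos i).ne'
  have h3 := (mul_eq_zero.mp h1.symm).resolve_left hm
  rw [sub_eq_zero] at h3
  have h4 : sX N (LinearMap.ker (α i) ⊓ LinearMap.ker (α j)) (N.c i) =
      sX N (LinearMap.ker (α i) ⊓ LinearMap.ker (α j)) b := by exact_mod_cast h3
  have h5 : 0 < sX N (LinearMap.ker (α i) ⊓ LinearMap.ker (α j)) (N.c i) := by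
    refine Finset.sum_pos' (fun k _ => Nat.zero_le _) ⟨i, ?_, N.m_pos i⟩
    simp
  rw [h4] at h5
  obtain ⟨k, hk⟩ : (Finset.univ.filter fun k => N.c k = b ∧
      LinearMap.ker (α i) ⊓ LinearMap.ker (α j) ≤ LinearMap.ker (α k)).Nonempty := by
    by_contra hc
    rw [Finset.not_nonempty_iff_eq_empty] at hc
    unfold sX at h5
    rw [hc, Finset.sum_empty] at h5
    exact lt_irrefl _ h5
  rw [Finset.mem_filter] at hk
  obtain ⟨-, hkb, hkX⟩ := hk
  have hne : N.c i ≠ N.c k := by rw [hkb]; exact hb.symm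
  have hik : i ≠ k := fun e => hne (by rw [e])
  have h6 := flat_eq (hα i) (hα j) (hα k) (hd i j hij) (hd i k hik) hkX
  rw [← h6]
  exact N.cross i k hne

private theorem step_class (hα : ∀ i, α i ≠ 0) (hd : ∀ i j, i ≠ j → LinearMap.ker (α i) ≠ LinearMap.ker (α j))
    {N N' : Multinet α} (h : HH N N') {k k' : ι} (hX : LinearMap.ker (α k) ⊓ LinearMap.ker (α k') ∉ N.X) :
    N'.c k = N'.c k' := by
  by_contra hc
  have hkk : k ≠ k' := fun e => hc (by rw [e])
  exact hX (claim_one hα hd h hkk (N'.cross k k' hc))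

private theorem claim_two (hα : ∀ i, α i ≠ 0) (hd : ∀ i j, i ≠ j → LinearMap.ker (α i) ≠ LinearMap.ker (α j))
    {N N' : Multinet α} (h : HH N N') {i j : ι} (hc : N.c i = N.c j) : N'.c i = N'.c j := by
  have h1 := N.conn i j hc
  induction h1 with
  | refl => rfl
  | tail h2 h3 ih =>
    have h4 := step_class hα hd h h3.2
    exact (ih (by rw [hc, h3.1])).trans h4

private theorem sX_other (hα : ∀ i, α i ≠ 0) (hd : ∀ i j, i ≠ j → LinearMap.ker (α i) ≠ LinearMap.ker (α j))
    (N : Multinet α) {k k' : ι} (hkk : k ≠ k') (hX : LinearMap.ker (α k) ⊓ LinearMap.ker (α k') ∉ N.X) {b : Fin 3}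
    (hb : b ≠ N.c k) : sX N (LinearMap.ker (α k) ⊓ LinearMap.ker (α k')) b = 0 := by
  classical
  unfold sX
  refine Finset.sum_eq_zero fun r hr => ?_
  rw [Finset.mem_filter] at hr
  obtain ⟨-, hrb, hrX⟩ := hr
  exfalso
  have hne : N.c k ≠ N.c r := by rw [hrb]; exact hb.symm
  have hkr : k ≠ r := fun e => hne (by rw [e])
  have h6 := flat_eq (hα k) (hα k') (hα r) (hd k k' hkk) (hd k r hkr) hrX
  exact hX (h6 ▸ N.cross k r hne)

private theorem sX_pos (N : Multinet α) (k k' : ι) :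
    0 < sX N (LinearMap.ker (α k) ⊓ LinearMap.ker (α k')) (N.c k) := by
  classical
  refine Finset.sum_pos' (fun r _ => Nat.zero_le _) ⟨k, ?_, N.m_pos k⟩
  simp

private theorem step_mult (hα : ∀ i, α i ≠ 0) (hd : ∀ i j, i ≠ j → LinearMap.ker (α i) ≠ LinearMap.ker (α j))
    {N N' : Multinet α} (h : HH N N') {k k' : ι} (hc : N.c k = N.c k')
    (hX : LinearMap.ker (α k) ⊓ LinearMap.ker (α k') ∉ N.X) : N.m k * N'.m k' = N.m k' * N'.m k := by
  by_cases hkk : k = k'
  · rw [hkk]
  have hX' : LinearMap.ker (α k) ⊓ LinearMap.ker (α k') ∉ N'.X := fun e => hX (claim_one hα hd h hkk e)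
  have hc' : N'.c k = N'.c k' := step_class hα hd h hX
  obtain ⟨b, hb⟩ := exists_other (N.c k)
  obtain ⟨d, hd'⟩ := exists_other (N'.c k)
  have h1 := h (N.c k) b (N'.c k) d k k' hkk
  have h2 := h (N.c k) b (N'.c k) d k' k (Ne.symm hkk)
  rw [inf_comm (LinearMap.ker (α k'))] at h2
  rw [sX_other hα hd N hkk hX hb, sX_other hα hd N' hkk hX' hd', sv_self N rfl hb, sv_self N' rfl hd'] at h1
  rw [sX_other hα hd N hkk hX hb, sX_other hα hd N' hkk hX' hd', sv_self N hc.symm hb, sv_self N' hc'.symm hd'] at h2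
  have hp : ((sX N (LinearMap.ker (α k) ⊓ LinearMap.ker (α k')) (N.c k) : ℕ) : ℂ) ≠ 0 :=
    Nat.cast_ne_zero.mpr (sX_pos N k k').ne'
  have h3 : (N.m k : ℂ) * N'.m k' = N.m k' * N'.m k := by
    apply mul_right_cancel₀ hp
    rw [Nat.cast_zero, sub_zero, sub_zero] at h1 h2
    linear_combination (N.m k' : ℂ) * h1 - (N.m k : ℂ) * h2
  exact_mod_cast h3

private theorem claim_three (hα : ∀ i, α i ≠ 0) (hd : ∀ i j, i ≠ j → LinearMap.ker (α i) ≠ LinearMap.ker (α j))
    {N N' : Multinet α} (h : HH N N') {i j : ι} (hc : N.c i = N.c j) : N.m i * N'.m j = N.m j * N'.m i := by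
  have h1 := N.conn i j hc
  induction h1 with
  | refl => rfl
  | @tail b c h2 h3 ih =>
    have h4 := step_mult hα hd h h3.1 h3.2
    have h5 := ih (by rw [hc, h3.1])
    have h6 := N.m_pos b
    apply Nat.eq_of_mul_eq_mul_left h6
    calc N.m b * (N.m i * N'.m c) = N.m i * (N.m b * N'.m c) := by ring
      _ = N.m i * (N.m c * N'.m b) := by rw [h4]
      _ = N.m c * (N.m i * N'.m b) := by ring
      _ = N.m c * (N.m b * N'.m i) := by rw [h5]
      _ = N.m b * (N.m c * N'.m i) := by ring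

open Classical in
theorem r_comb (hα : ∀ i, α i ≠ 0) (hd : ∀ i j, i ≠ j → LinearMap.ker (α i) ≠ LinearMap.ker (α j)) {N N' : Multinet α}
    (h : ∀ (a b c d : Fin 3) (i j : ι), i ≠ j →
      sv N a b i * (∑ k, if LinearMap.ker (α i) ⊓ LinearMap.ker (α j) ≤ LinearMap.ker (α k) then sv N' c d k else 0) =
      sv N' c d i * ∑ k, if LinearMap.ker (α i) ⊓ LinearMap.ker (α j) ≤ LinearMap.ker (α k) then sv N a b k else 0) :
    Same N N' := by
  have hH : HH N N' := by
    intro a b c d i j hij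
    have h1 := h a b c d i j hij
    rw [sum_sv, sum_sv] at h1
    exact h1
  have hcl : ∀ i j, N.c i = N.c j ↔ N'.c i = N'.c j := fun i j =>
    ⟨fun e => claim_two hα hd hH e, fun e => claim_two hα hd hH.symm e⟩
  have h1 : ∀ i, N.m i * N'.d = N.d * N'.m i := by
    intro i
    rw [← N'.sum_class (N'.c i), ← N.sum_class (N.c i), Finset.mul_sum, Finset.sum_mul]
    have h2 : (Finset.univ.filter fun j => N'.c j = N'.c i) = Finset.univ.filter fun j => N.c j = N.c i := by
      ext j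
      simp only [Finset.mem_filter, Finset.mem_univ, true_and]
      exact (hcl j i).symm
    rw [h2]
    refine Finset.sum_congr rfl fun j hj => ?_
    rw [Finset.mem_filter] at hj
    exact claim_three hα hd hH hj.2.symm
  have h2 : N'.d = N.d := by
    have h3 : (Finset.univ.gcd fun i => N.m i * N'.d) = N'.d := by
      rw [Finset.gcd_mul_right, N.gcd_eq]
      simp
    have h4 : (Finset.univ.gcd fun i => N.d * N'.m i) = N.d := by
      rw [Finset.gcd_mul_left, N'.gcd_eq]
      simp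
    rw [← h3, ← h4]
    exact congrArg _ (funext h1)
  refine ⟨fun i => ?_, hcl⟩
  have hd0 : 0 < N.d := by
    rw [← N.sum_class (N.c i)]
    exact Finset.sum_pos' (fun r _ => Nat.zero_le _) ⟨i, by simp, N.m_pos i⟩
  have h3 := h1 i
  rw [h2, mul_comm] at h3
  exact Nat.eq_of_mul_eq_mul_left hd0 h3

end MFib
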