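import Pool.Agent.Lib.MFib.PQ

/-!
# ROne (about 200 lines): dependent pencils: all `(A_a - A_b) ∧ (A'_c - A'_d)` vanish

`P.S a = C (lam a) * qq N a`, so at a point `z` with all `α i z ≠ 0`: `S_a(z) ≠ 0`, `eval z (dd v (P.S a)) = S_a(z) * la N a z v` (`eval_dd_qq`).
(1) `∑ j, v_j * eval z (P.W j) = S_1 d_v S_0 - S_0 d_v S_1 = S_0 S_1 (la 0 - la 1)(v)` at `z` (`eval_dd`).  From `¬ Indep P P'`: for all `i j`
    `W_i W'_j = W_j W'_i`, so `(∑ v_i W_i)(∑ w_j W'_j) = (∑ w_j W_j)(∑ v_i W'_i)`.  Divide by `S_0 S_1 S'_0 S'_1`: the claim for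
    `(a,b,c,d) = (0,1,0,1)`.
(2) `S_0 + S_1 + S_2 = 0` differentiated: `S_0 la_0 + S_1 la_1 + S_2 la_2 = 0`; so with `D = la_0 - la_1`: `S_2 (la_2 - la_1) = - S_0 D`,
    `S_2 (la_2 - la_0) = S_1 D`: all `la_a - la_b` are multiples `ρ_ab D` with `ρ_ab` independent of the direction `v`.  Same for `N'`.
-/

set_option autoImplicit false

namespace MFib

open MvPolynomial

variable {l : ℕ} {ι : Type} [Fintype ι] {α : ι → Module.Dual ℂ (Fin l → ℂ)}

private theorem r_key {N : Multinet α} {P : Pencil (QQ α)} {lam : Fin 3 → ℂ}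
    (hl : ∀ a, lam a ≠ 0) (hP : ∀ a, P.S a = C (lam a) * qq N a) {z : Fin l → ℂ} (hz : ∀ i, α i z ≠ 0) :
    (∀ a, eval z (P.S a) ≠ 0) ∧ (∀ v, ∑ j, v j * eval z (P.W j) =
      eval z (P.S 0) * eval z (P.S 1) * (la N 0 z v - la N 1 z v)) ∧
      ∃ r : Fin 3 → ℂ, ∀ a v, la N a z v - la N 0 z v = r a * (la N 0 z v - la N 1 z v) := by
  have h1 : ∀ a, eval z (P.S a) ≠ 0 := by
    intro a
    rw [hP a, map_mul, eval_C]
    exact mul_ne_zero (hl a) (eval_qq_ne N a (fun i _ => hz i))
  have h2 : ∀ a v, eval z (dd v (P.S a)) = eval z (P.S a) * la N a z v := by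
    intro a v
    rw [hP a, dd_mul, dd_C, zero_mul, zero_add, map_mul, map_mul, eval_C, eval_dd_qq N a hz v]
    ring
  have h3 : ∀ v, ∑ j, v j * eval z (P.W j) =
      eval z (P.S 0) * eval z (P.S 1) * (la N 0 z v - la N 1 z v) := by
    intro v
    have e : ∑ j, v j * eval z (P.W j) =
        eval z (P.S 1) * eval z (dd v (P.S 0)) - eval z (P.S 0) * eval z (dd v (P.S 1)) := by
      rw [eval_dd, eval_dd, Finset.mul_sum, Finset.mul_sum, ← Finset.sum_sub_distrib]
      refine Finset.sum_congr rfl (fun j _ => ?_)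
      simp only [Pencil.W, map_sub, map_mul]
      ring
    rw [e, h2, h2]
    ring
  have h4 : eval z (P.S 0) + eval z (P.S 1) + eval z (P.S 2) = 0 := by
    have := congrArg (eval z) P.sum
    simpa only [map_add, map_zero] using this
  have h5 : ∀ v, eval z (P.S 0) * la N 0 z v + eval z (P.S 1) * la N 1 z v + eval z (P.S 2) * la N 2 z v = 0 := by
    intro v
    rw [← h2, ← h2, ← h2, ← map_add, ← map_add, ← dd_add, ← dd_add, P.sum]
    have : dd v (0 : Pol l) = 0 := by
      simp [dd]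
    rw [this, map_zero]
  refine ⟨h1, h3, ![0, -1, eval z (P.S 1) / eval z (P.S 2)], ?_⟩
  intro a v
  have h6 := h5 v
  have h7 := h1 2
  fin_cases a
  · simp
  · simp
  · simp only [Fin.reduceFinMk, Matrix.cons_val]
    rw [div_mul_eq_mul_div, eq_div_iff h7]
    linear_combination h6 - la N 0 z v * h4

theorem r_one {N N' : Multinet α} {P P' : Pencil (QQ α)} {lam lam' : Fin 3 → ℂ}
    (hl : ∀ a, lam a ≠ 0) (hl' : ∀ a, lam' a ≠ 0) (hP : ∀ a, P.S a = C (lam a) * qq N a)
    (hP' : ∀ a, P'.S a = C (lam' a) * qq N' a) (h : ¬ Indep P P') {z : Fin l → ℂ} (hz : ∀ i, α i z ≠ 0)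
    (v w : Fin l → ℂ) (a b c d : Fin 3) :
    (la N a z v - la N b z v) * (la N' c z w - la N' d z w) =
      (la N a z w - la N b z w) * (la N' c z v - la N' d z v) := by
  obtain ⟨h1, h2, r, hr⟩ := r_key hl hP hz
  obtain ⟨h1', h2', r', hr'⟩ := r_key hl' hP' hz
  have hW : ∀ i j, eval z (P.W i) * eval z (P'.W j) = eval z (P.W j) * eval z (P'.W i) := by
    intro i j
    have h0 : P.W i * P'.W j - P.W j * P'.W i = 0 := by
      by_contra hne
      exact h ⟨i, j, hne⟩
    have := congrArg (eval z) h0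
    simp only [map_sub, map_mul, map_zero] at this
    exact sub_eq_zero.mp this
  have hD : (∑ i, v i * eval z (P.W i)) * (∑ j, w j * eval z (P'.W j)) =
      (∑ i, w i * eval z (P.W i)) * (∑ j, v j * eval z (P'.W j)) := by
    rw [Finset.sum_mul_sum, Finset.sum_mul_sum, Finset.sum_comm]
    refine Finset.sum_congr rfl (fun j _ => Finset.sum_congr rfl (fun i _ => ?_))
    linear_combination v i * w j * hW i j
  rw [h2, h2, h2', h2'] at hD
  have hne : eval z (P.S 0) * eval z (P.S 1) * (eval z (P'.S 0) * eval z (P'.S 1)) ≠ 0 :=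
    mul_ne_zero (mul_ne_zero (h1 0) (h1 1)) (mul_ne_zero (h1' 0) (h1' 1))
  have hDD : (la N 0 z v - la N 1 z v) * (la N' 0 z w - la N' 1 z w) =
      (la N 0 z w - la N 1 z w) * (la N' 0 z v - la N' 1 z v) := by
    apply mul_left_cancel₀ hne
    linear_combination hD
  have e1 := hr a v
  have e2 := hr b v
  have e3 := hr a w
  have e4 := hr b w
  have f1 := hr' c v
  have f2 := hr' d v
  have f3 := hr' c w
  have f4 := hr' d w
  have g1 : la N a z v - la N b z v = (r a - r b) * (la N 0 z v - la N 1 z v) := by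
    linear_combination e1 - e2
  have g2 : la N a z w - la N b z w = (r a - r b) * (la N 0 z w - la N 1 z w) := by
    linear_combination e3 - e4
  have g3 : la N' c z v - la N' d z v = (r' c - r' d) * (la N' 0 z v - la N' 1 z v) := by
    linear_combination f1 - f2
  have g4 : la N' c z w - la N' d z w = (r' c - r' d) * (la N' 0 z w - la N' 1 z w) := by
    linear_combination f3 - f4
  rw [g1, g2, g3, g4]
  linear_combination (r a - r b) * (r' c - r' d) * hDD

end MFib
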