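import Pool.Agent.Lib.MFib.PGood

/-!
# RRes (about 250 lines): residues: `s_i t_X = t_i s_X`

Write `X = ker α_i ⊓ ker α_j`, `J = {k : X ≤ ker α_k}` (contains `i, j`).
Step 1 (localisation at `X`).  `w₀` = good point of `X` (`good_point`), `u` with `α_k u ≠ 0` for all `k` (`exists_generic` or any such `u`).  Apply `h` at `z = w₀ + ε u`, `ε → 0`,
`ε ≠ 0` small (then all `α_k z ≠ 0`: `α_k z = ε α_k u` for `k ∈ J`, `→ α_k w₀ ≠ 0` for `k ∉ J`); multiply by `ε²`: `ε ∑_k s_k α_k(v)/α_k(z) → ∑_{k ∈ J} s_k α_k(v)/α_k(u)`.  So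
for all `u` with all `α_k u ≠ 0` and all `v, w`:
  (*) `(∑_{J} s_k α_k v/α_k u)(∑_J t_k α_k w/α_k u) = (∑_J s_k α_k w/α_k u)(∑_J t_k α_k v/α_k u)`.
Step 2 (residue along `ker α_i`).  `w₁` from `exists_on_hyper` for `i` (`α_i w₁ = 0`, `α_k w₁ ≠ 0` for `k ≠ i`), `v` with `α_i v = 1`.
`u = w₁ + τ v`, `τ → 0`, `τ ≠ 0` small: `α_i u = τ`, `α_k u → α_k w₁ ≠ 0`.  Take `w = w₁` in (*) and multiply by `τ`:
`τ ∑_J s_k α_k v/α_k u → s_i`, `∑_J s_k α_k w₁/α_k u → ∑_{J, k ≠ i} s_k = s_X - s_i` (the term `k = i` is `0`), same for `t`.  Limit: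
`s_i (t_X - t_i) = (s_X - s_i) t_i`.
(Limits: `tendsto_nhds_unique`, continuity at `0` of finite sums of quotients with nonvanishing denominators, on `𝓝[≠] 0`.)
-/

set_option autoImplicit false

namespace MFib

open MvPolynomial

variable {l : ℕ} {ι : Type} [Fintype ι] {α : ι → Module.Dual ℂ (Fin l → ℂ)}

/-- the limit of `ε ∑ c_k / (A_k + ε B_k)` -/
private theorem lim_one {A B c : ι → ℂ} (hB : ∀ k, A k = 0 → B k ≠ 0) :
    Filter.Tendsto (fun ε : ℂ => ε * ∑ k, c k / (A k + ε * B k)) (nhdsWithin 0 {0}ᶜ)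
      (nhds (∑ k, if A k = 0 then c k / B k else 0)) := by
  have h1 : ∀ k, Filter.Tendsto (fun ε : ℂ => ε * (c k / (A k + ε * B k))) (nhdsWithin 0 {0}ᶜ)
      (nhds (if A k = 0 then c k / B k else 0)) := by
    intro k
    by_cases hk : A k = 0
    · rw [if_pos hk]
      refine Filter.Tendsto.congr' ?_ tendsto_const_nhds
      filter_upwards [self_mem_nhdsWithin] with ε hε
      have hε' : ε ≠ 0 := hε
      have hBk := hB k hk
      rw [hk, zero_add]
      field_simp
    · rw [if_neg hk]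
      have h2 : ContinuousAt (fun ε : ℂ => ε * (c k / (A k + ε * B k))) 0 := by
        refine continuousAt_id.mul (continuousAt_const.div ?_ ?_)
        · exact continuousAt_const.add (continuousAt_id.mul continuousAt_const)
        · simpa using hk
      have h3 := h2.tendsto
      rw [zero_mul] at h3
      exact h3.mono_left nhdsWithin_le_nhds
  have h4 := tendsto_finsetSum Finset.univ (fun k _ => h1 k)
  refine h4.congr fun ε => ?_
  rw [Finset.mul_sum]

/-- the limit of `∑ c_k A_k / (A_k + ε B_k)` -/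
private theorem lim_two {A B c : ι → ℂ} :
    Filter.Tendsto (fun ε : ℂ => ∑ k, c k * A k / (A k + ε * B k)) (nhdsWithin 0 {0}ᶜ)
      (nhds (∑ k, if A k = 0 then 0 else c k)) := by
  refine tendsto_finsetSum Finset.univ fun k _ => ?_
  by_cases hk : A k = 0
  · rw [if_pos hk]
    simp only [hk, mul_zero, zero_div]
    exact tendsto_const_nhds
  · rw [if_neg hk]
    have h2 : ContinuousAt (fun ε : ℂ => c k * A k / (A k + ε * B k)) 0 := by
      refine continuousAt_const.div ?_ ?_
      · exact continuousAt_const.add (continuousAt_id.mul continuousAt_const)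
      · simpa using hk
    have h3 := h2.tendsto
    rw [zero_mul, add_zero, mul_div_cancel_right₀ _ hk] at h3
    exact h3.mono_left nhdsWithin_le_nhds

private theorem ev_ne {A B : ι → ℂ} (hB : ∀ k, A k = 0 → B k ≠ 0) :
    ∀ᶠ ε : ℂ in nhdsWithin 0 {0}ᶜ, ∀ k, A k + ε * B k ≠ 0 := by
  rw [Filter.eventually_all]
  intro k
  by_cases hk : A k = 0
  · filter_upwards [self_mem_nhdsWithin] with ε hε
    have hε' : ε ≠ 0 := hε
    rw [hk, zero_add]
    exact mul_ne_zero hε' (hB k hk)
  · have h2 : ContinuousAt (fun ε : ℂ => A k + ε * B k) 0 :=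
      continuousAt_const.add (continuousAt_id.mul continuousAt_const)
    have h3 : ∀ᶠ ε : ℂ in nhds 0, A k + ε * B k ≠ 0 := by
      apply h2.eventually_ne
      simpa using hk
    exact h3.filter_mono nhdsWithin_le_nhds

open Classical in
/-- localisation at a flat -/
private theorem r_loc {s t : ι → ℂ}
    (h : ∀ z, (∀ i, α i z ≠ 0) → ∀ v w : Fin l → ℂ, (∑ k, s k * (α k v / α k z)) * (∑ k, t k * (α k w / α k z)) =
      (∑ k, s k * (α k w / α k z)) * (∑ k, t k * (α k v / α k z))) (i j : ι) {u : Fin l → ℂ}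
    (hu : ∀ k, α k u ≠ 0) (v w : Fin l → ℂ) :
    (∑ k, (if LinearMap.ker (α i) ⊓ LinearMap.ker (α j) ≤ LinearMap.ker (α k) then s k else 0) * α k v / α k u) *
        (∑ k, (if LinearMap.ker (α i) ⊓ LinearMap.ker (α j) ≤ LinearMap.ker (α k) then t k else 0) * α k w / α k u) =
      (∑ k, (if LinearMap.ker (α i) ⊓ LinearMap.ker (α j) ≤ LinearMap.ker (α k) then s k else 0) * α k w / α k u) *
        (∑ k, (if LinearMap.ker (α i) ⊓ LinearMap.ker (α j) ≤ LinearMap.ker (α k) then t k else 0) * α k v / α k u) := by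
  obtain ⟨w₀, hi, hj, hk⟩ := good_point α i j
  have hJ : ∀ k, (α k w₀ = 0 ↔ LinearMap.ker (α i) ⊓ LinearMap.ker (α j) ≤ LinearMap.ker (α k)) := by
    intro k
    constructor
    · intro h0
      by_contra hc
      exact hk k hc h0
    · intro hle
      exact hle ⟨hi, hj⟩
  have hL : ∀ (r : ι → ℂ) (x : Fin l → ℂ), Filter.Tendsto
      (fun ε : ℂ => ε * ∑ k, r k * α k x / (α k w₀ + ε * α k u)) (nhdsWithin 0 {0}ᶜ)
      (nhds (∑ k, (if LinearMap.ker (α i) ⊓ LinearMap.ker (α j) ≤ LinearMap.ker (α k) then r k else 0) *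
        α k x / α k u)) := by
    intro r x
    have h1 := lim_one (A := fun k => α k w₀) (B := fun k => α k u) (c := fun k => r k * α k x) (fun k _ => hu k)
    refine h1.trans (le_of_eq (congrArg nhds (Finset.sum_congr rfl fun k _ => ?_)))
    by_cases hc : α k w₀ = 0
    · rw [if_pos hc, if_pos ((hJ k).mp hc)]
    · rw [if_neg hc, if_neg fun h' => hc ((hJ k).mpr h')]
      simp
  have hl := (hL s v).mul (hL t w)
  have hr := (hL s w).mul (hL t v)
  refine tendsto_nhds_unique hl (hr.congr' ?_)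
  filter_upwards [ev_ne (A := fun k => α k w₀) (B := fun k => α k u) (fun k _ => hu k)] with ε hε
  have hz : ∀ k, α k (w₀ + ε • u) = α k w₀ + ε * α k u := fun k => by
    rw [map_add, map_smul, smul_eq_mul]
  have h2 := h (w₀ + ε • u) (fun k => by rw [hz]; exact hε k) v w
  simp only [hz, ← mul_div_assoc] at h2
  linear_combination (-ε ^ 2) * h2

open Classical in
theorem r_res (hα : ∀ i, α i ≠ 0) (hd : ∀ i j, i ≠ j → LinearMap.ker (α i) ≠ LinearMap.ker (α j)) {s t : ι → ℂ}
    (h : ∀ z, (∀ i, α i z ≠ 0) → ∀ v w : Fin l → ℂ, (∑ k, s k * (α k v / α k z)) * (∑ k, t k * (α k w / α k z)) =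
      (∑ k, s k * (α k w / α k z)) * (∑ k, t k * (α k v / α k z))) {i j : ι} (hij : i ≠ j) :
    s i * (∑ k, if LinearMap.ker (α i) ⊓ LinearMap.ker (α j) ≤ LinearMap.ker (α k) then t k else 0) =
      t i * ∑ k, if LinearMap.ker (α i) ⊓ LinearMap.ker (α j) ≤ LinearMap.ker (α k) then s k else 0 := by
  obtain ⟨w₁, hw, hw'⟩ := exists_on_hyper hα i
  have hne : ∀ k, k ≠ i → α k w₁ ≠ 0 := fun k hk => hw' k (hd k i hk)
  obtain ⟨v, hv⟩ : ∃ v, α i v = 1 := by
    obtain ⟨u, hu⟩ : ∃ u, α i u ≠ 0 := by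
      by_contra hcon
      push Not at hcon
      exact hα i (LinearMap.ext hcon)
    exact ⟨(α i u)⁻¹ • u, by rw [map_smul, smul_eq_mul, inv_mul_cancel₀ hu]⟩
  have hiff : ∀ k, (α k w₁ = 0 ↔ k = i) := by
    intro k
    constructor
    · intro h0
      by_contra hc
      exact hne k hc h0
    · rintro rfl
      exact hw
  have hB : ∀ k, α k w₁ = 0 → α k v ≠ 0 := by
    intro k hk
    rw [(hiff k).mp hk, hv]
    exact one_ne_zero
  set J : ι → Prop := fun k => LinearMap.ker (α i) ⊓ LinearMap.ker (α j) ≤ LinearMap.ker (α k) with hJdef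
  have hJi : J i := inf_le_left
  have h1 : ∀ r : ι → ℂ, Filter.Tendsto
      (fun ε : ℂ => ε * ∑ k, (if J k then r k else 0) * α k v / (α k w₁ + ε * α k v)) (nhdsWithin 0 {0}ᶜ)
      (nhds (r i)) := by
    intro r
    have h2 := lim_one (A := fun k => α k w₁) (B := fun k => α k v) (c := fun k => (if J k then r k else 0) * α k v) hB
    refine h2.trans (le_of_eq (congrArg nhds ?_))
    rw [Finset.sum_eq_single i]
    · rw [if_pos hw, if_pos hJi, hv]
      simp
    · intro k _ hk
      rw [if_neg (hne k hk)]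
    · intro hc
      exact absurd (Finset.mem_univ i) hc
  have h2 : ∀ r : ι → ℂ, Filter.Tendsto
      (fun ε : ℂ => ∑ k, (if J k then r k else 0) * α k w₁ / (α k w₁ + ε * α k v)) (nhdsWithin 0 {0}ᶜ)
      (nhds ((∑ k, if J k then r k else 0) - r i)) := by
    intro r
    have h3 := lim_two (A := fun k => α k w₁) (B := fun k => α k v) (c := fun k => if J k then r k else 0)
    refine h3.trans (le_of_eq (congrArg nhds ?_))
    have h4 : r i = ∑ k, if k = i then r k else 0 := by
      rw [Finset.sum_ite_eq' Finset.univ i]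
      simp
    rw [eq_sub_iff_add_eq]
    rw [h4]
    rw [← Finset.sum_add_distrib]
    refine Finset.sum_congr rfl fun k _ => ?_
    by_cases hk : k = i
    · rw [if_pos ((hiff k).mpr hk), if_pos hk, if_pos (hk ▸ hJi), zero_add]
    · rw [if_neg fun h' => hk ((hiff k).mp h'), if_neg hk, add_zero]
  have hl := (h1 s).mul (h2 t)
  have hr := (h2 s).mul (h1 t)
  have h5 := tendsto_nhds_unique hl (hr.congr' ?_)
  · linear_combination h5
  · filter_upwards [ev_ne (A := fun k => α k w₁) (B := fun k => α k v) hB] with ε hε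
    have hz : ∀ k, α k (w₁ + ε • v) = α k w₁ + ε * α k v := fun k => by
      rw [map_add, map_smul, smul_eq_mul]
    have h6 := r_loc h i j (u := w₁ + ε • v) (fun k => by rw [hz]; exact hε k) v w₁
    simp only [hz] at h6
    linear_combination (-ε) * h6

end MFib
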