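import Pool.Agent.Lib.MFib.PPen
import Pool.Agent.Lib.MFib.ROne
import Pool.Agent.Lib.MFib.RRes
import Pool.Agent.Lib.MFib.RComb

/-!
# RInd (about 80 lines): two distinct multinets give independent pencils

`la N a z v - la N b z v = ∑ k, sv N a b k * (α k v / α k z)`.  `r_one` gives the hypothesis of `r_res` for `s = sv N a b`, `t = sv N' c d`, which gives the hypothesis of `r_comb`.
`indep_ne`: if `P'.S 0 * P.S 1 = P.S 0 * P'.S 1` then all `P.W i * P'.W j = P.W j * P'.W i`: differentiate the relation (`pderiv i`):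
`S'_0,i S_1 + S'_0 S_1,i = S_0,i S'_1 + S_0 S'_1,i`; in the fraction field `S_0/S_1 = S'_0/S'_1` (`S_1, S'_1 ≠ 0`: `S_1 = 0` would give `h^3 Q = 0`, but `Q ≠ 0`, `h ≠ 0`) so `W_i/S_1² = W'_i/S'_1²`, i.e.
`W_i S'_1² = W'_i S_1²` for all `i`; multiply and cancel.
-/

set_option autoImplicit false

namespace MFib

open MvPolynomial

variable {l : ℕ}

private theorem S_one_ne {Q : Pol l} (hQ : Q ≠ 0) (P : Pencil Q) : P.S 1 ≠ 0 := by
  intro h1
  have h2 := P.prod
  rw [h1, mul_zero, zero_mul] at h2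
  have h3 : P.h ≠ 0 := by
    intro h0
    obtain ⟨z, hz⟩ : ∃ z, eval z Q ≠ 0 := by
      by_contra hc
      push Not at hc
      exact hQ (MvPolynomial.funext fun z => by rw [hc z, map_zero])
    exact P.h_ne z hz (by rw [h0, map_zero])
  exact mul_ne_zero (pow_ne_zero 3 h3) hQ h2.symm

theorem indep_ne {Q : Pol l} (hQ : Q ≠ 0) {P P' : Pencil Q} (h : Indep P P') : P'.S 0 * P.S 1 ≠ P.S 0 * P'.S 1 := by
  intro he
  obtain ⟨i, j, hij⟩ := h
  apply hij
  have h1 := S_one_ne hQ P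
  have h1' := S_one_ne hQ P'
  have key : ∀ k, P.W k * P'.S 1 ^ 2 = P'.W k * P.S 1 ^ 2 := by
    intro k
    have h2 : P.S 1 * (pderiv k (P'.S 0)) + P'.S 0 * pderiv k (P.S 1) =
        P'.S 1 * pderiv k (P.S 0) + P.S 0 * pderiv k (P'.S 1) := by
      have h3 := congrArg (pderiv k) he
      rw [Derivation.leibniz, Derivation.leibniz, smul_eq_mul, smul_eq_mul, smul_eq_mul, smul_eq_mul] at h3
      linear_combination h3
    simp only [Pencil.W]
    linear_combination (-(P.S 1 * P'.S 1)) * h2 + (P'.S 1 * pderiv k (P.S 1) + P.S 1 * pderiv k (P'.S 1)) * he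
  have h4 : (P.W i * P'.W j - P.W j * P'.W i) * P'.S 1 ^ 2 = 0 := by
    linear_combination P'.W j * key i - P'.W i * key j
  exact (mul_eq_zero.mp h4).resolve_right (pow_ne_zero 2 h1')

private theorem la_sv {ι : Type} [Fintype ι] {α : ι → Module.Dual ℂ (Fin l → ℂ)} (N : Multinet α) (a b : Fin 3)
    (z v : Fin l → ℂ) : la N a z v - la N b z v = ∑ k, sv N a b k * (α k v / α k z) := by
  unfold la sv
  rw [← Finset.sum_sub_distrib]
  refine Finset.sum_congr rfl fun k _ => ?_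
  split_ifs <;> ring

theorem exists_pencils {ι : Type} [Fintype ι] {α : ι → Module.Dual ℂ (Fin l → ℂ)} (hα : ∀ i, α i ≠ 0)
    (hd : ∀ i j, i ≠ j → LinearMap.ker (α i) ≠ LinearMap.ker (α j)) (N N' : Multinet α) (h : ¬ Same N N')
    (h1 : ∀ i, N.m i % 3 = 1) (h2 : ∀ i, N'.m i % 3 = 1) : ∃ P P' : Pencil (QQ α), Indep P P' := by
  obtain ⟨P, lam, hl, hP⟩ := pencil_thm hα hd N h1
  obtain ⟨P', lam', hl', hP'⟩ := pencil_thm hα hd N' h2
  refine ⟨P, P', ?_⟩
  by_contra hI
  apply h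
  refine r_comb hα hd fun a b c d i j hij => ?_
  refine r_res hα hd (fun z hz v w => ?_) hij
  have h3 := r_one hl hl' hP hP' hI hz v w a b c d
  rw [la_sv, la_sv, la_sv, la_sv] at h3
  exact h3

end MFib
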